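import Pool.Agent.H84.SF.Def

/-!
# Smoothed Fatou, SF-4d: algebra of the products and sums along an orbit
-/

set_option autoImplicit false

open Finset

namespace Pool.Agent.H84.SF

variable {X : Type} {S : Dat X} {A u : ℝ} {x : X}

theorem ph_zero : Ph S 0 x = 1 := by simp [Ph]

theorem ph_succ (n : ℕ) : Ph S (n + 1) x = Ph S n x * S.a (S.f^[n] x) := by
  simp [Ph, prod_range_succ]

theorem ph_add (m n : ℕ) : Ph S (m + n) x = Ph S m x * Ph S n (S.f^[m] x) := by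
  induction n with
  | zero => simp [ph_zero]
  | succ n ih =>
    rw [← add_assoc, ph_succ, ih, ph_succ, ← Function.iterate_add_apply, add_comm n m, mul_assoc]

theorem ph_one : Ph S 1 x = S.a x := by simp [Ph]

/-- the first step separately -/
theorem ph_succ' (n : ℕ) : Ph S (n + 1) x = S.a x * Ph S n (S.f x) := by
  rw [add_comm, ph_add, ph_one]; rfl

theorem ph_pos {n : ℕ} (h : ∀ l < n, 0 < S.a (S.f^[l] x)) : 0 < Ph S n x :=
  prod_pos fun i hi => h i (mem_range.1 hi)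

theorem ph_nonneg (h : ∀ x, 0 ≤ S.a x) (n : ℕ) : 0 ≤ Ph S n x :=
  prod_nonneg fun _ _ => h _

theorem lm_zero : Lm S A u 0 x = u := by simp [Lm]

theorem lm_succ (n : ℕ) :
    Lm S A u (n + 1) x = Lm S A u n x + A * (Ph S n x / S.a (S.f^[n] x)) := by
  simp only [Lm, sum_range_succ]; ring

theorem lm_step (h : ∀ x, 0 ≤ S.a x) (hA : 0 ≤ A) (n : ℕ) :
    Lm S A u n x ≤ Lm S A u (n + 1) x := by
  rw [lm_succ]
  have := mul_nonneg hA (div_nonneg (ph_nonneg (x := x) h n) (h (S.f^[n] x)))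
  linarith

theorem lm_mono (h : ∀ x, 0 ≤ S.a x) (hA : 0 ≤ A) {m n : ℕ} (hmn : m ≤ n) :
    Lm S A u m x ≤ Lm S A u n x :=
  monotone_nat_of_le_succ (fun n => lm_step h hA n) hmn

theorem lm_ge (h : ∀ x, 0 ≤ S.a x) (hA : 0 ≤ A) (n : ℕ) : u ≤ Lm S A u n x := by
  have := lm_mono (u := u) (x := x) h hA (Nat.zero_le n)
  rwa [lm_zero] at this

theorem lm_add (m n : ℕ) : Lm S A u (m + n) x = Lm S A u m x +
    Ph S m x * (A * ∑ l ∈ range n, Ph S l (S.f^[m] x) / S.a (S.f^[l] (S.f^[m] x))) := by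
  have h1 : ∀ l, Ph S (m + l) x / S.a (S.f^[m + l] x) =
      Ph S m x * (Ph S l (S.f^[m] x) / S.a (S.f^[l] (S.f^[m] x))) := by
    intro l
    rw [ph_add, ← Function.iterate_add_apply, add_comm l m, mul_div_assoc]
  simp only [Lm, sum_range_add]
  rw [sum_congr rfl fun l _ => h1 l, ← mul_sum]
  ring

theorem uu_zero : Uu S A u 0 x = u := by simp [Uu, lm_zero, ph_zero]

/-- the cocycle property -/
theorem uu_add {m : ℕ} (n : ℕ) (hm : Ph S m x ≠ 0) :
    Uu S A u (m + n) x = Uu S A (Uu S A u m x) n (S.f^[m] x) := by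
  have h1 : Lm S A (Uu S A u m x) n (S.f^[m] x) = Lm S A u (m + n) x / Ph S m x := by
    rw [lm_add, add_div, mul_comm (Ph S m x), mul_div_assoc, div_self hm, mul_one]
    simp only [Lm, Uu]
  rw [Uu, Uu, h1, ph_add, div_div]

theorem uu_mono {u' : ℝ} (h : ∀ x, 0 ≤ S.a x) (huu : u ≤ u') (n : ℕ) :
    Uu S A u n x ≤ Uu S A u' n x := by
  unfold Uu Lm
  gcongr
  exact ph_nonneg h n

end Pool.Agent.H84.SF
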