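import Pool.Agent.H84.SF.Shd

/-!
# Smoothed Fatou, SF-4d: existence of the bound period after a deep point
-/

set_option autoImplicit false

open Finset

namespace Pool.Agent.H84.SF

variable {X : Type} {S : Dat X} {M θ A w c h Λ : ℝ}

theorem cst_A (hs : Stat S M θ) (hc : Cst M θ A w c h) : 0 < A := by
  have := one_le_pow₀ hs.hM (n := 2)
  linarith [hc.hA]

theorem one_le_lm (hs : Stat S M θ) (hc : Cst M θ A w c h) (n : ℕ) (v : X) : 1 ≤ Lm S A w n v :=
  hc.hw.trans (lm_ge hs.a0 (cst_A hs hc).le n)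

/-- the scales of a critical orbit are unbounded -/
theorem lm_unb (hs : Stat S M θ) (hc : Cst M θ A w c h) (hG : Gd S A w c h Λ) {v : X} (hv : v ∈ S.V)
    {e : ℝ} (he : 0 < e) (heΛ : 1 / e < Λ) : ∃ n, 1 < Lm S A w n v * e := by
  by_contra hcon
  push Not at hcon
  have hA := cst_A hs hc
  have hM : 0 < M := by linarith [hs.hM]
  have h1 : ∀ n, Lm S A w n v ≤ 1 / e := fun n => by
    rw [le_div_iff₀ he]; exact hcon n
  have h2 : ∀ n, Lm S A w n v + A * c / M ≤ Lm S A w (n + 1) v := by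
    intro n
    obtain ⟨h3, h4⟩ := hG v hv n ((h1 n).trans_lt heΛ)
    have h5 := one_le_lm hs hc n v
    have h6 : c ≤ Ph S n v := by
      refine le_trans ?_ h4
      have := Real.one_le_rpow h5 (by linarith [hc.hh1] : 0 ≤ 1 - h)
      nlinarith [hc.hc]
    have h7 : 0 < S.a (S.f^[n] v) :=
      lt_of_lt_of_le (mul_pos hc.hc (Real.rpow_pos_of_pos (by linarith) _)) h3
    rw [lm_succ]
    have h8 : c / M ≤ Ph S n v / S.a (S.f^[n] v) :=
      div_le_div₀ (hc.hc.le.trans h6) h6 h7 (hs.aM _)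
    have h9 := mul_le_mul_of_nonneg_left h8 hA.le
    rw [mul_div_assoc]
    linarith
  have h3 : ∀ n : ℕ, 1 + n * (A * c / M) ≤ Lm S A w n v := by
    intro n
    induction n with
    | zero => simp [lm_zero, hc.hw]
    | succ n ih => push_cast; linarith [h2 n]
  have h4 : 0 < A * c / M := div_pos (mul_pos hA hc.hc) hM
  obtain ⟨n, hn⟩ := exists_nat_gt (1 / e / (A * c / M))
  rw [div_lt_iff₀ h4] at hn
  linarith [h3 n, h1 n]

theorem last_ex (hs : Stat S M θ) (hc : Cst M θ A w c h) (hG : Gd S A w c h Λ) {v : X} (hv : v ∈ S.V)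
    {e : ℝ} (he : 0 < e) (he1 : w * e ≤ 1) (heΛ : 1 / e < Λ) :
    ∃ L, Lm S A w L v * e ≤ 1 ∧ 1 < Lm S A w (L + 1) v * e := by
  classical
  have hex := lm_unb hs hc hG hv he heΛ
  have h1 : Nat.find hex ≠ 0 := by
    intro h0
    have := Nat.find_spec hex
    rw [h0, lm_zero] at this
    linarith
  refine ⟨Nat.find hex - 1, ?_, ?_⟩
  · exact not_lt.1 (Nat.find_min hex (by omega))
  · have := Nat.find_spec hex
    rwa [Nat.sub_add_cancel (Nat.one_le_iff_ne_zero.2 h1)]

theorem end_bd (hs : Stat S M θ) (hc : Cst M θ A w c h) {v : X} {L : ℕ} {e : ℝ} (he : 0 < e)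
    (h1 : c * Lm S A w L v ^ (-h) ≤ S.a (S.f^[L] v)) (h2 : c * Lm S A w L v ^ (1 - h) ≤ Ph S L v)
    (h3 : Lm S A w L v * e ≤ 1) (h4 : 1 < Lm S A w (L + 1) v * e) :
    c / (2 * A) * e ^ (h - 1) ≤ Ph S L v := by
  have hA := cst_A hs hc
  have hA1 : 1 ≤ A := by
    have := one_le_pow₀ hs.hM (n := 2)
    linarith [hc.hA]
  have h5 := one_le_lm hs hc L v
  have h6 : e ^ h ≤ Lm S A w L v ^ (-h) := by
    have h7 : Lm S A w L v ≤ e⁻¹ := by
      rw [← one_div, le_div_iff₀ he]; exact h3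
    have h8 := Real.rpow_le_rpow_of_nonpos (by linarith) h7 (by linarith [hc.hh] : -h ≤ 0)
    rwa [Real.inv_rpow he.le, Real.rpow_neg he.le, inv_inv] at h8
  have heh : 0 < e ^ h := Real.rpow_pos_of_pos he _
  have h7 : c / (2 * A) * e ^ h ≤ Ph S L v * e := by
    rcases le_or_gt (1 / 2) (Lm S A w L v * e) with h8 | h8
    · have h9 : Lm S A w L v ^ (1 - h) = Lm S A w L v * Lm S A w L v ^ (-h) := by
        rw [sub_eq_add_neg, Real.rpow_add (by linarith), Real.rpow_one]
      rw [h9] at h2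
      have h10 : c * (1 / 2) * e ^ h ≤ Ph S L v * e := by
        calc c * (1 / 2) * e ^ h ≤ c * (Lm S A w L v * e) * Lm S A w L v ^ (-h) := by
              have := hc.hc
              gcongr
          _ = c * (Lm S A w L v * Lm S A w L v ^ (-h)) * e := by ring
          _ ≤ Ph S L v * e := mul_le_mul_of_nonneg_right h2 he.le
      refine le_trans ?_ h10
      refine mul_le_mul_of_nonneg_right ?_ heh.le
      rw [div_le_iff₀ (by linarith)]
      nlinarith [hc.hc]
    · have hpos : 0 < S.a (S.f^[L] v) :=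
        lt_of_lt_of_le (mul_pos hc.hc (Real.rpow_pos_of_pos (by linarith) _)) h1
      rw [lm_succ] at h4
      have h9 : 1 / 2 < A * (Ph S L v / S.a (S.f^[L] v)) * e := by nlinarith
      have h10 : S.a (S.f^[L] v) < 2 * A * (Ph S L v * e) := by
        have h11 := mul_lt_mul_of_pos_right h9 hpos
        have h12 : A * (Ph S L v / S.a (S.f^[L] v)) * e * S.a (S.f^[L] v) =
            A * (Ph S L v * e) := by field_simp
        linarith
      have h11 : c * e ^ h ≤ 2 * A * (Ph S L v * e) :=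
        ((mul_le_mul_of_nonneg_left h6 hc.hc.le).trans h1).trans h10.le
      rw [div_mul_eq_mul_div, div_le_iff₀ (by linarith)]
      linarith
  rw [Real.rpow_sub_one he.ne', ← mul_div_assoc, div_le_iff₀ he]
  exact h7

/-- the bound period after a deep point -/
theorem bnd_ex (hs : Stat S M θ) (hc : Cst M θ A w c h) (hG : Gd S A w c h Λ) {x : X} (hx : 0 < S.a x)
    (hx1 : S.a x < θ) (hΛ : M / S.a x ^ 2 < Λ) : ∃ v L, Bnd S M A w c h x v L := by
  have hM : 0 < M := by linarith [hs.hM]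
  obtain ⟨v, hv, e1, e2⟩ := hs.d3 x hx hx1
  have he : 0 < S.D (S.f x) v := lt_of_lt_of_le (by positivity) e1
  have he2 : 1 / S.D (S.f x) v < Λ := by
    refine lt_of_le_of_lt ?_ hΛ
    rw [div_le_div_iff₀ he (by positivity), one_mul]
    rw [div_le_iff₀ hM] at e1
    linarith
  have he3 : w * S.D (S.f x) v ≤ 1 := by
    refine le_trans ?_ hc.hwθ
    refine mul_le_mul_of_nonneg_left (e2.trans ?_) (by linarith [hc.hw])
    exact mul_le_mul_of_nonneg_left (pow_le_pow_left₀ hx.le hx1.le 2) hM.le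
  obtain ⟨L, hL1, hL2⟩ := last_ex hs hc hG hv he he3 he2
  have hA := cst_A hs hc
  have hlm : ∀ l ≤ L, Lm S A w l v < Λ := by
    intro l hl
    refine (lm_mono hs.a0 hA.le hl).trans_lt (lt_of_le_of_lt ?_ he2)
    rw [le_div_iff₀ he]; exact hL1
  have hva : ∀ l ≤ L, c * Lm S A w l v ^ (-h) ≤ S.a (S.f^[l] v) := fun l hl =>
    (hG v hv l (hlm l hl)).1
  have hpos : ∀ l ≤ L, 0 < S.a (S.f^[l] v) := fun l hl =>
    lt_of_lt_of_le (mul_pos hc.hc (Real.rpow_pos_of_pos
      (by linarith [one_le_lm hs hc l v]) _)) (hva l hl)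
  refine ⟨v, L, hv, hx, e1, e2, hpos, hL1, ?_, ?_, fun l hl => (hG v hv l (hlm l hl)).2, hva, ?_⟩
  · intro l hl
    exact shd_a hs hc.hA (by linarith [hc.hw]) (fun l hl => hpos l hl.le) hL1 hl
  · intro l hl
    obtain ⟨ρ, -, hρ0, hρ1, -, h3, h4⟩ := shd hs hc.hA (by linarith [hc.hw]) (fun l hl => hpos l hl.le) hL1 l hl
    have hP : 0 < Ph S l v := ph_pos fun i hi => hpos i (by omega)
    constructor <;> nlinarith
  · exact end_bd hs hc he (hva L le_rfl) (hG v hv L (hlm L le_rfl)).2 hL1 hL2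

end Pool.Agent.H84.SF
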