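import Mathlib

/-!
# Smoothed Fatou, SF-4d: orbits of a map with an expansion rate (definitions)

Abstract setting of the deterministic part of the late stage. `f` is a map of a set `X` (later: a rational map of the Riemann sphere), `a x` its rate of expansion at `x` (the spherical derivative), `D` a distance (chordal
distance), `V` the set of the critical values. For an orbit `x_l = f^l(x)`, `a_l = a (x_l)`:

* `Ph n x = a_0 ⋯ a_(n-1)`,
* `Lm u n x = u + A ∑ l < n, Ph l x / a_l` (the inverse of the radius of the disc around `x` on which `f^n` is nearly affine, if the orbit starts with a disc of radius `1 / u`),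
* `Uu u n x = Lm u n x / Ph n x` (the inverse of the radius of the image of this disc under `f^n`).

`Stat`: static properties. `Gd Λ`: information on the critical orbits at all scales `Lm < Λ`. `Grow`: growth of the derivatives along orbits which stay in `θ ≤ a`.
-/

set_option autoImplicit false

open Finset

namespace Pool.Agent.H84.SF

/-- a map `f` of a set `X`, its rate of expansion `a`, a distance `D`, the set `V` of critical values -/
structure Dat (X : Type) where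
  f : X → X
  a : X → ℝ
  D : X → X → ℝ
  V : Set X

variable {X : Type}

noncomputable def Ph (S : Dat X) (n : ℕ) (x : X) : ℝ := ∏ i ∈ range n, S.a (S.f^[i] x)

noncomputable def Lm (S : Dat X) (A u : ℝ) (n : ℕ) (x : X) : ℝ :=
  u + A * ∑ l ∈ range n, Ph S l x / S.a (S.f^[l] x)

noncomputable def Uu (S : Dat X) (A u : ℝ) (n : ℕ) (x : X) : ℝ := Lm S A u n x / Ph S n x

/-- static properties -/
structure Stat (S : Dat X) (M θ : ℝ) : Prop where
  hM : 1 ≤ M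
  hθ : 0 < θ
  hθ1 : θ ≤ 1
  a0 : ∀ x, 0 ≤ S.a x
  aM : ∀ x, S.a x ≤ M
  D0 : ∀ x y, 0 ≤ S.D x y
  d1 : ∀ x y, |S.D (S.f x) (S.f y) - S.a y * S.D x y| ≤ M ^ 2 * S.D x y ^ 2
  d2 : ∀ x y, |S.a x - S.a y| ≤ M ^ 2 * S.D x y
  d3 : ∀ x, 0 < S.a x → S.a x < θ →
    ∃ v ∈ S.V, S.a x ^ 2 / M ≤ S.D (S.f x) v ∧ S.D (S.f x) v ≤ M * S.a x ^ 2

/-- information on the critical orbits at the scales below `Λ` (start value `w`) -/
def Gd (S : Dat X) (A w c h Λ : ℝ) : Prop :=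
  ∀ v ∈ S.V, ∀ l : ℕ, Lm S A w l v < Λ →
    c * Lm S A w l v ^ (-h) ≤ S.a (S.f^[l] v) ∧ c * Lm S A w l v ^ (1 - h) ≤ Ph S l v

/-- growth along orbits without deep points -/
structure Grow (S : Dat X) (θ M3 M4 : ℝ) : Prop where
  hM3 : 1 ≤ M3
  hM4 : 1 ≤ M4
  gr1 : ∀ (x : X) (m : ℕ), (∀ l < m, θ ≤ S.a (S.f^[l] x)) → 2 ^ m / M4 ≤ Ph S m x
  gr2 : ∀ (x : X) (m : ℕ), (∀ l < m, θ ≤ S.a (S.f^[l] x)) → S.a (S.f^[m] x) < θ →
    2 ^ m / M3 ≤ Ph S m x

/-- constants: `A` large with respect to `M`, start value `w ≥ 1`, `0 < c ≤ 1`, `0 ≤ h ≤ 1 / 4` -/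
structure Cst (M θ A w c h : ℝ) : Prop where
  hA : 64 * M ^ 2 ≤ A
  hw : 1 ≤ w
  hwθ : w * (M * θ ^ 2) ≤ 1
  hc : 0 < c
  hc1 : c ≤ 1
  hh : 0 ≤ h
  hh1 : h ≤ 1 / 4

/-- the deep point `x` follows the orbit of the critical value `v` for `L` steps -/
structure Bnd (S : Dat X) (M A w c h : ℝ) (x v : X) (L : ℕ) : Prop where
  hv : v ∈ S.V
  pos : 0 < S.a x
  e1 : S.a x ^ 2 / M ≤ S.D (S.f x) v
  e2 : S.D (S.f x) v ≤ M * S.a x ^ 2
  vpos : ∀ l ≤ L, 0 < S.a (S.f^[l] v)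
  lam : Lm S A w L v * S.D (S.f x) v ≤ 1
  sha : ∀ l < L, S.a (S.f^[l] v) / 2 ≤ S.a (S.f^[l] (S.f x)) ∧
    S.a (S.f^[l] (S.f x)) ≤ 2 * S.a (S.f^[l] v)
  shp : ∀ l ≤ L, Ph S l v / 2 ≤ Ph S l (S.f x) ∧ Ph S l (S.f x) ≤ 2 * Ph S l v
  vph : ∀ l ≤ L, c * Lm S A w l v ^ (1 - h) ≤ Ph S l v
  va : ∀ l ≤ L, c * Lm S A w l v ^ (-h) ≤ S.a (S.f^[l] v)
  fin : c / (2 * A) * S.D (S.f x) v ^ (h - 1) ≤ Ph S L v

/-- `m0` a starting time; the free deep times of a sequence `al`, `Bd k L` says that the deep time `k` is followed by a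
bound period of length `L` -/
inductive FD (θ : ℝ) (al : ℕ → ℝ) (Bd : ℕ → ℕ → Prop) (m0 : ℕ) : ℕ → Prop
  | first (k : ℕ) (h0 : m0 ≤ k) (h1 : ∀ l, m0 ≤ l → l < k → θ ≤ al l) (h2 : al k < θ) :
      FD θ al Bd m0 k
  | next (j L k : ℕ) (hj : FD θ al Bd m0 j) (hL : Bd j L) (h0 : j + 1 + L ≤ k)
      (h1 : ∀ l, j + 1 + L ≤ l → l < k → θ ≤ al l) (h2 : al k < θ) : FD θ al Bd m0 k

/-- early stage -/
structure ES (S : Dat X) (A w c N : ℝ) : Prop where
  hN : w ≤ N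
  es : ∀ v ∈ S.V, ∀ l : ℕ, Lm S A w l v ≤ N →
    c ≤ S.a (S.f^[l] v) ∧ c * Lm S A w l v ≤ Ph S l v

/-- the basic assumption at the scales between `N` and `Λ` -/
def BA (S : Dat X) (A w g N Λ : ℝ) : Prop :=
  ∀ v ∈ S.V, ∀ l : ℕ, N < Lm S A w l v → Lm S A w l v < Λ →
    Lm S A w l v ^ (-g) ≤ S.a (S.f^[l] v)

end Pool.Agent.H84.SF
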