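import Pool.Agent.H84.SF.Bex

/-!
# Smoothed Fatou, SF-4d: the bound period: estimates
-/

set_option autoImplicit false

open Finset

namespace Pool.Agent.H84.SF

variable {X : Type} {S : Dat X} {M θ A w c h Λ : ℝ}

theorem bnd_e (hM : 0 < M) {x v : X} {L : ℕ} (hb : Bnd S M A w c h x v L) :
    0 < S.D (S.f x) v :=
  lt_of_lt_of_le (div_pos (pow_pos hb.pos 2) hM) hb.e1

theorem bnd_ph (hs : Stat S M θ) (hc : Cst M θ A w c h) {x v : X} {L : ℕ}
    (hb : Bnd S M A w c h x v L) : S.a x ^ (2 * h - 1) / (4 * A * M / c) ≤ Ph S (L + 1) x := by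
  have hM : 0 < M := by linarith [hs.hM]
  have hA := cst_A hs hc
  have hα := hb.pos
  have hc0 := hc.hc
  have he := bnd_e hM hb
  have h1 : (M * S.a x ^ 2) ^ (h - 1) ≤ S.D (S.f x) v ^ (h - 1) :=
    Real.rpow_le_rpow_of_nonpos he hb.e2 (by linarith [hc.hh1])
  have h2 : M⁻¹ ≤ M ^ (h - 1) := by
    rw [← Real.rpow_neg_one]
    exact Real.rpow_le_rpow_of_exponent_le hs.hM (by linarith [hc.hh])
  have h3 : (S.a x ^ 2) ^ (h - 1) * S.a x = S.a x ^ (2 * h - 1) := by
    rw [← Real.rpow_natCast, ← Real.rpow_mul hα.le]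
    nth_rw 2 [← Real.rpow_one (S.a x)]
    rw [← Real.rpow_add hα]
    congr 1
    push_cast
    ring
  have h4 : M⁻¹ * S.a x ^ (2 * h - 1) ≤ S.D (S.f x) v ^ (h - 1) * S.a x := by
    rw [← h3, ← mul_assoc]
    refine mul_le_mul_of_nonneg_right ?_ hα.le
    refine le_trans ?_ h1
    rw [Real.mul_rpow hM.le (by positivity)]
    exact mul_le_mul_of_nonneg_right h2 (Real.rpow_nonneg (by positivity) _)
  have h5 := (hb.shp L le_rfl).1
  have h6 := hb.fin
  rw [ph_succ']
  calc S.a x ^ (2 * h - 1) / (4 * A * M / c)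
      = c / (4 * A) * (M⁻¹ * S.a x ^ (2 * h - 1)) := by field_simp
    _ ≤ c / (4 * A) * (S.D (S.f x) v ^ (h - 1) * S.a x) :=
        mul_le_mul_of_nonneg_left h4 (by positivity)
    _ = S.a x * ((c / (2 * A) * S.D (S.f x) v ^ (h - 1)) / 2) := by field_simp; ring
    _ ≤ S.a x * (Ph S L v / 2) := by gcongr
    _ ≤ S.a x * Ph S L (S.f x) := mul_le_mul_of_nonneg_left h5 hα.le

theorem bnd_lam (hs : Stat S M θ) (hc : Cst M θ A w c h) {x v : X} {L : ℕ}
    (hb : Bnd S M A w c h x v L) {p : ℕ} (hp : p ≤ L) : Lm S A w p v ≤ M / S.a x ^ 2 := by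
  have hM : 0 < M := by linarith [hs.hM]
  have he := bnd_e hM hb
  have h1 := lm_mono (S := S) (x := v) (u := w) hs.a0 (cst_A hs hc).le hp
  have h2 : Lm S A w L v ≤ 1 / S.D (S.f x) v := by
    rw [le_div_iff₀ he]; exact hb.lam
  have h3 : 1 / S.D (S.f x) v ≤ M / S.a x ^ 2 := by
    have := hb.e1
    rw [div_le_iff₀ hM] at this
    rw [div_le_div_iff₀ he (pow_pos hb.pos 2)]
    linarith
  linarith

theorem bnd_sum (hs : Stat S M θ) (hc : Cst M θ A w c h) {x v : X} {L : ℕ}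
    (hb : Bnd S M A w c h x v L) {p : ℕ} (hp : p ≤ L) :
    A * ∑ l ∈ range p, Ph S l (S.f x) / S.a (S.f^[l] (S.f x)) ≤ 4 * Lm S A w p v := by
  have hA := cst_A hs hc
  have h1 : ∑ l ∈ range p, Ph S l (S.f x) / S.a (S.f^[l] (S.f x)) ≤
      ∑ l ∈ range p, 4 * (Ph S l v / S.a (S.f^[l] v)) := by
    refine sum_le_sum fun l hl => ?_
    rw [mem_range] at hl
    have h2 := (hb.shp l (by omega)).2
    have h3 := (hb.sha l (by omega)).1
    have h4 := hb.vpos l (by omega)
    have h5 : 0 ≤ Ph S l v := ph_nonneg hs.a0 l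
    calc Ph S l (S.f x) / S.a (S.f^[l] (S.f x)) ≤ (2 * Ph S l v) / (S.a (S.f^[l] v) / 2) :=
          div_le_div₀ (by positivity) h2 (by positivity) h3
      _ = 4 * (Ph S l v / S.a (S.f^[l] v)) := by field_simp; ring
  rw [← mul_sum] at h1
  have h2 := mul_le_mul_of_nonneg_left h1 hA.le
  have h3 : Lm S A w p v = w + A * ∑ l ∈ range p, Ph S l v / S.a (S.f^[l] v) := rfl
  nlinarith [hc.hw]

theorem bnd_phpos (hs : Stat S M θ) (hc : Cst M θ A w c h) {x v : X} {L : ℕ}
    (hb : Bnd S M A w c h x v L) {p : ℕ} (hp : p ≤ L) : 0 < Ph S (p + 1) x := by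
  have h1 : 0 < Ph S p v := ph_pos fun i hi => hb.vpos i (by omega)
  have h2 := (hb.shp p hp).1
  rw [ph_succ']
  exact mul_pos hb.pos (by linarith)

theorem bnd_uu (hs : Stat S M θ) (hc : Cst M θ A w c h) {x v : X} {L : ℕ}
    (hb : Bnd S M A w c h x v L) {p : ℕ} (hp : p ≤ L) {u : ℝ} :
    Uu S A u (p + 1) x ≤ (u + A / S.a x + 4 * S.a x * Lm S A w p v) / Ph S (p + 1) x := by
  unfold Uu
  refine div_le_div_of_nonneg_right ?_ (bnd_phpos hs hc hb hp).le
  rw [add_comm p 1, lm_add]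
  have h1 := bnd_sum hs hc hb hp
  have h2 : Lm S A u 1 x = u + A / S.a x := by
    rw [Lm, sum_range_one, ph_zero]
    simp [div_eq_mul_inv]
  rw [h2, ph_one]
  have h3 := mul_le_mul_of_nonneg_left h1 hb.pos.le
  have h4 : S.f^[1] x = S.f x := rfl
  rw [h4]
  linarith

/-- the size after the bound period -/
theorem bnd_end (hs : Stat S M θ) (hc : Cst M θ A w c h) {x v : X} {L : ℕ}
    (hb : Bnd S M A w c h x v L) {u : ℝ} (hu : 0 ≤ u) :
    Uu S A u (L + 1) x ≤
      4 * A * M / c * (S.a x ^ (1 - 2 * h) * u + 2 * A * S.a x ^ (-(2 * h))) := by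
  have hM : 0 < M := by linarith [hs.hM]
  have hA := cst_A hs hc
  have hα := hb.pos
  have hc0 := hc.hc
  have h1 := bnd_uu hs hc hb le_rfl (u := u)
  have h2 := bnd_lam hs hc hb le_rfl
  have h3 := bnd_ph hs hc hb
  have h4 : 4 * S.a x * Lm S A w L v ≤ A / S.a x := by
    have h5 : 4 * S.a x * Lm S A w L v ≤ 4 * S.a x * (M / S.a x ^ 2) :=
      mul_le_mul_of_nonneg_left h2 (by positivity)
    have h6 : 4 * S.a x * (M / S.a x ^ 2) = 4 * M / S.a x := by field_simp
    rw [h6] at h5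
    refine h5.trans (div_le_div_of_nonneg_right ?_ hα.le)
    nlinarith [hc.hA, hs.hM]
  have hK : 0 < 4 * A * M / c := by positivity
  have h5 : 0 < S.a x ^ (2 * h - 1) / (4 * A * M / c) :=
    div_pos (Real.rpow_pos_of_pos hα _) hK
  have h6 : (u + A / S.a x + 4 * S.a x * Lm S A w L v) / Ph S (L + 1) x ≤
      (u + 2 * (A / S.a x)) / (S.a x ^ (2 * h - 1) / (4 * A * M / c)) :=
    div_le_div₀ (by positivity) (by linarith) h5 h3
  refine (h1.trans h6).trans (le_of_eq ?_)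
  have h7 : S.a x ^ (1 - 2 * h) = (S.a x ^ (2 * h - 1))⁻¹ := by
    rw [← Real.rpow_neg hα.le]; congr 1; ring
  have h8 : S.a x ^ (-(2 * h)) = (S.a x ^ (2 * h - 1))⁻¹ / S.a x := by
    rw [← h7, div_eq_mul_inv, ← Real.rpow_neg_one, ← Real.rpow_add hα]; congr 1; ring
  rw [h7, h8]
  field_simp

/-- the size in the bound period -/
theorem bnd_mid (hs : Stat S M θ) (hc : Cst M θ A w c h) {x v : X} {L : ℕ}
    (hb : Bnd S M A w c h x v L) {u : ℝ} (hu : 0 ≤ u) {p : ℕ} (hp : p ≤ L) :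
    Uu S A u (p + 1) x ≤
      2 / c * (S.a x)⁻¹ * (u + A * (S.a x)⁻¹) + 8 * M / c * S.a x ^ (-(2 * h)) := by
  have hM : 0 < M := by linarith [hs.hM]
  have hA := cst_A hs hc
  have hα := hb.pos
  have hc0 := hc.hc
  have h1 := bnd_uu hs hc hb hp (u := u)
  have h2 := bnd_lam hs hc hb hp
  have h3 := one_le_lm hs hc p v
  have h4 := hb.vph p hp
  have h5 : c ≤ Ph S p v := by
    refine le_trans ?_ h4
    have := Real.one_le_rpow h3 (by linarith [hc.hh1] : 0 ≤ 1 - h)
    nlinarith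
  have h6 : S.a x * (Ph S p v / 2) ≤ Ph S (p + 1) x := by
    rw [ph_succ']
    exact mul_le_mul_of_nonneg_left (hb.shp p hp).1 hα.le
  have hPp : 0 < Ph S p v := by linarith
  have hLp : 0 < Lm S A w p v := by linarith
  have h7 : 0 < S.a x * (Ph S p v / 2) := by positivity
  have h8 : (u + A / S.a x + 4 * S.a x * Lm S A w p v) / Ph S (p + 1) x ≤
      (u + A / S.a x + 4 * S.a x * Lm S A w p v) / (S.a x * (Ph S p v / 2)) := by
    refine div_le_div_of_nonneg_left ?_ h7 h6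
    positivity
  have h9 : (u + A / S.a x + 4 * S.a x * Lm S A w p v) / (S.a x * (Ph S p v / 2)) =
      2 / Ph S p v * (S.a x)⁻¹ * (u + A * (S.a x)⁻¹) + 8 * (Lm S A w p v / Ph S p v) := by
    have : Ph S p v ≠ 0 := by linarith
    field_simp
    ring
  have h10 : Lm S A w p v / Ph S p v ≤ M / c * S.a x ^ (-(2 * h)) := by
    have h11 : Lm S A w p v ^ h ≤ M * S.a x ^ (-(2 * h)) := by
      calc Lm S A w p v ^ h ≤ (M / S.a x ^ 2) ^ h :=
            Real.rpow_le_rpow (by linarith) h2 hc.hh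
        _ = M ^ h * S.a x ^ (-(2 * h)) := by
            rw [div_eq_mul_inv, Real.mul_rpow hM.le (by positivity), Real.inv_rpow (by positivity),
              ← Real.rpow_natCast, ← Real.rpow_mul hα.le, Real.rpow_neg hα.le]
            norm_num
        _ ≤ M * S.a x ^ (-(2 * h)) := by
            refine mul_le_mul_of_nonneg_right ?_ (Real.rpow_nonneg hα.le _)
            have := Real.rpow_le_rpow_of_exponent_le hs.hM (by linarith [hc.hh1] : h ≤ 1)
            rwa [Real.rpow_one] at this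
    have h12 : Lm S A w p v ^ (1 - h) * Lm S A w p v ^ h = Lm S A w p v := by
      rw [← Real.rpow_add (by linarith)]; simp
    have h13 : 0 < Lm S A w p v ^ (1 - h) := Real.rpow_pos_of_pos (by linarith) _
    have h14 : Lm S A w p v / Ph S p v ≤ Lm S A w p v / (c * Lm S A w p v ^ (1 - h)) :=
      div_le_div_of_nonneg_left (by linarith) (mul_pos hc0 h13) h4
    have h15 : Lm S A w p v / (c * Lm S A w p v ^ (1 - h)) = Lm S A w p v ^ h / c := by
      nth_rw 1 [← h12]
      field_simp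
    rw [h15] at h14
    refine h14.trans ?_
    rw [div_mul_eq_mul_div]
    exact div_le_div_of_nonneg_right h11 hc0.le
  have h11 : 2 / Ph S p v ≤ 2 / c := div_le_div_of_nonneg_left (by norm_num) hc0 h5
  calc Uu S A u (p + 1) x ≤ _ := h1.trans h8
    _ = _ := h9
    _ ≤ 2 / c * (S.a x)⁻¹ * (u + A * (S.a x)⁻¹) + 8 * (M / c * S.a x ^ (-(2 * h))) := by
        have : 0 < (S.a x)⁻¹ := inv_pos.2 hα
        gcongr
    _ = _ := by ring

/-- no very deep points inside the bound period -/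
theorem bnd_a (hs : Stat S M θ) (hc : Cst M θ A w c h) {x v : X} {L : ℕ}
    (hb : Bnd S M A w c h x v L) {l : ℕ} (hl : l < L) :
    c / 2 * (S.a x ^ 2 / M) ^ h ≤ S.a (S.f^[l + 1] x) := by
  have hM : 0 < M := by linarith [hs.hM]
  have h1 := (hb.sha l hl).1
  have h2 := hb.va l hl.le
  have h3 := bnd_lam hs hc hb hl.le
  have h4 := one_le_lm hs hc l v
  have h5 : (S.a x ^ 2 / M) ^ h ≤ Lm S A w l v ^ (-h) := by
    have := Real.rpow_le_rpow_of_nonpos (by linarith) h3 (by linarith [hc.hh] : -h ≤ 0)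
    refine le_trans (le_of_eq ?_) this
    rw [Real.rpow_neg (by have := hb.pos; positivity),
      ← Real.inv_rpow (by have := hb.pos; positivity), inv_div]
  have h6 : S.f^[l + 1] x = S.f^[l] (S.f x) := Function.iterate_succ_apply S.f l x
  rw [h6]
  calc c / 2 * (S.a x ^ 2 / M) ^ h ≤ c / 2 * Lm S A w l v ^ (-h) :=
        mul_le_mul_of_nonneg_left h5 (by linarith [hc.hc])
    _ = c * Lm S A w l v ^ (-h) / 2 := by ring
    _ ≤ S.a (S.f^[l] v) / 2 := by linarith
    _ ≤ _ := h1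

end Pool.Agent.H84.SF
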