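import Mathlib
import Pool.Agent.H84.SF.Def
import Pool.Agent.H84.SF.Alg
import Pool.Agent.H84.SF.Bex

/-!
# Smoothed Fatou, SF-4d: good times of the critical orbits at every scale
-/

set_option autoImplicit false

open Finset

namespace Pool.Agent.H84.SF

variable {X : Type} {S : Dat X} {M θ A w c h Λ : ℝ}

/-- the last time `p` with `Lm ≤ Y` -/
theorem gvy (hs : Stat S M θ) (hc : Cst M θ A w c h) (hG : Gd S A w c h Λ) {v : X} (hv : v ∈ S.V)
    {Y : ℝ} (hY : w ≤ Y) (hYΛ : Y < Λ) :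
    ∃ p, Lm S A w p v ≤ Y ∧ Y < Lm S A w (p + 1) v ∧ c / (2 * A) * Y ^ (1 - h) ≤ Ph S p v := by
  have hY0 : 0 < Y := lt_of_lt_of_le (by linarith [hc.hw]) hY
  have he : 0 < Y⁻¹ := inv_pos.2 hY0
  obtain ⟨p, h1, h2⟩ := last_ex hs hc hG hv he (by rwa [mul_inv_le_iff₀ hY0, one_mul])
    (by rwa [one_div, inv_inv])
  have h1' : Lm S A w p v ≤ Y := by rwa [mul_inv_le_iff₀ hY0, one_mul] at h1
  refine ⟨p, h1', ?_, ?_⟩
  · rwa [lt_mul_inv_iff₀ hY0, one_mul] at h2
  · obtain ⟨h3, h4⟩ := hG v hv p (lt_of_le_of_lt h1' hYΛ)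
    have h5 := end_bd hs hc he h3 h4 h1 h2
    rwa [Real.inv_rpow hY0.le, ← Real.rpow_neg hY0.le, neg_sub] at h5

theorem lm_len (hs : Stat S M θ) (hc : Cst M θ A w c h) (hG : Gd S A w c h Λ) {v : X} (hv : v ∈ S.V)
    {l : ℕ} (hl : Lm S A w l v < Λ) : (l : ℝ) * c ≤ Lm S A w l v := by
  induction l with
  | zero => simpa using (by linarith [one_le_lm hs hc 0 v] : (0 : ℝ) ≤ Lm S A w 0 v)
  | succ k ih =>
    have hA := cst_A hs hc
    have h1 : Lm S A w k v ≤ Lm S A w (k + 1) v := lm_step hs.a0 hA.le k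
    have h2 := ih (lt_of_le_of_lt h1 hl)
    obtain ⟨h3, h4⟩ := hG v hv k (lt_of_le_of_lt h1 hl)
    have h5 := one_le_lm hs hc k v
    have h6 : 1 ≤ Lm S A w k v ^ (1 - h) := Real.one_le_rpow h5 (by linarith [hc.hh1])
    have h7 : c ≤ Ph S k v := by
      have := hc.hc
      nlinarith
    have h8 : 0 < S.a (S.f^[k] v) :=
      lt_of_lt_of_le (mul_pos hc.hc (Real.rpow_pos_of_pos (by linarith) _)) h3
    have h9 := hs.aM (S.f^[k] v)
    have hM := hs.hM
    have h10 : M ≤ A := by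
      have := hc.hA
      nlinarith
    have h11 : c ≤ A * (Ph S k v / S.a (S.f^[k] v)) := by
      rw [← mul_div_assoc, le_div_iff₀ h8]
      have := hc.hc
      nlinarith
    rw [lm_succ]
    push_cast
    linarith

end Pool.Agent.H84.SF
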