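import Mathlib

/-!
# Smoothed Fatou, SF-4d: tail sums of the inverse derivatives
-/

set_option autoImplicit false

open Finset

namespace Pool.Agent.H84.SF

theorem tail_step {L L' P : ℝ} (hL : 1 ≤ L) (hP : √(√L) ^ 3 ≤ P) (hL' : L + P ≤ L') :
    1 / P ≤ 4 * ((√L)⁻¹ - (√L')⁻¹) := by
  obtain ⟨y, hy⟩ : ∃ y, y = √(√L) := ⟨_, rfl⟩
  have h1 : 1 ≤ √L := Real.one_le_sqrt.2 hL
  have h2 : 1 ≤ y := hy ▸ Real.one_le_sqrt.2 h1
  have h3 : √L = y ^ 2 := by rw [hy, Real.sq_sqrt (by linarith)]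
  have h4 : L = y ^ 4 := by
    have h5 : L = √L ^ 2 := (Real.sq_sqrt (by linarith)).symm
    rw [h5, h3]
    ring
  rw [← hy] at hP
  have hy0 : 0 < y := by linarith
  have hy3 : 0 < y ^ 3 := by positivity
  have h5 : 4 * y ^ 3 / (4 * y - 1) ≤ √L' := by
    refine Real.le_sqrt_of_sq_le ?_
    rw [div_pow, div_le_iff₀ (by nlinarith)]
    have h6 : y ^ 4 + y ^ 3 ≤ L' := by rw [← h4]; linarith
    refine le_trans ?_ (mul_le_mul_of_nonneg_right h6 (by positivity))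
    have h7 : (y ^ 4 + y ^ 3) * (4 * y - 1) ^ 2 - (4 * y ^ 3) ^ 2 =
        y ^ 3 * (8 * y ^ 2 - 7 * y + 1) := by ring
    have h8 : 0 ≤ y ^ 3 * (8 * y ^ 2 - 7 * y + 1) := mul_nonneg hy3.le (by nlinarith)
    linarith
  have h6 : (√L')⁻¹ ≤ (4 * y - 1) / (4 * y ^ 3) := by
    rw [← inv_div]
    exact inv_anti₀ (div_pos (by linarith) (by linarith)) h5
  have h7 : 1 / P ≤ 1 / y ^ 3 := one_div_le_one_div_of_le hy3 hP
  have h8 : 4 * ((y ^ 2)⁻¹ - (4 * y - 1) / (4 * y ^ 3)) = 1 / y ^ 3 := by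
    field_simp
    ring
  rw [h3]
  linarith

theorem tail_sum' {L P : ℕ → ℝ} {m k : ℕ} (hmk : m ≤ k)
    (h1 : ∀ l, m ≤ l → l < k → 1 ≤ L l ∧ √(√(L l)) ^ 3 ≤ P l)
    (h2 : ∀ l, m ≤ l → l < k → L l + P l ≤ L (l + 1)) :
    ∑ l ∈ Ico m k, 1 / P l ≤ 4 * ((√(L m))⁻¹ - (√(L k))⁻¹) := by
  induction k, hmk using Nat.le_induction with
  | base => simp
  | succ k hk ih =>
    rw [Finset.sum_Ico_succ_top hk]
    have h3 := ih (fun l a b => h1 l a (by omega)) (fun l a b => h2 l a (by omega))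
    have h4 := tail_step (h1 k hk (by omega)).1 (h1 k hk (by omega)).2 (h2 k hk (by omega))
    linarith

theorem tail_sum {L P : ℕ → ℝ} {m k : ℕ} (hmk : m ≤ k)
    (h1 : ∀ l, m ≤ l → l ≤ k → 1 ≤ L l ∧ √(√(L l)) ^ 3 ≤ P l)
    (h2 : ∀ l, m ≤ l → l < k → L l + P l ≤ L (l + 1)) :
    ∑ l ∈ Ico m (k + 1), 1 / P l ≤ 4 * (√(L m))⁻¹ := by
  rw [Finset.sum_Ico_succ_top hmk]
  have h3 := tail_sum' hmk (fun l a b => h1 l a b.le) h2
  obtain ⟨h4, h5⟩ := h1 k hmk le_rfl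
  have h6 : 1 ≤ √(L k) := Real.one_le_sqrt.2 h4
  have h7 : 1 ≤ √(√(L k)) := Real.one_le_sqrt.2 h6
  have h8 : √(L k) ≤ √(√(L k)) ^ 3 := by
    have h9 : √(√(L k)) ^ 2 = √(L k) := Real.sq_sqrt (by linarith)
    nlinarith
  have h9 : 1 / P k ≤ (√(L k))⁻¹ := by
    rw [one_div]
    exact inv_anti₀ (by linarith) (h8.trans h5)
  have h10 : 0 ≤ (√(L k))⁻¹ := inv_nonneg.2 (by linarith)
  linarith

/-- `√√L ^ 3 = L ^ (3/4) ≤ L ^ (1 - h)` for `h ≤ 1 / 4` -/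
theorem sqrt3_le {L h : ℝ} (hL : 1 ≤ L) (hh : h ≤ 1 / 4) : √(√L) ^ 3 ≤ L ^ (1 - h) := by
  have h1 : √(√L) ^ 3 = L ^ (3 / 4 : ℝ) := by
    rw [Real.sqrt_eq_rpow, Real.sqrt_eq_rpow, ← Real.rpow_mul (by linarith),
      ← Real.rpow_natCast, ← Real.rpow_mul (by linarith)]
    congr 1
    norm_num
  rw [h1]
  exact Real.rpow_le_rpow_of_exponent_le hL (by linarith)

end Pool.Agent.H84.SF
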