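import Mathlib
import Pool.Agent.H84.SF.Def
import Pool.Agent.H84.SF.Alg
import Pool.Agent.H84.SF.Bex
import Pool.Agent.H84.SF.Blk
import Pool.Agent.H84.SF.Sum
import Pool.Agent.H84.SF.Gvy

/-!
# Smoothed Fatou, SF-4d: the block of a deep point
-/

set_option autoImplicit false

open Finset

namespace Pool.Agent.H84.SF

theorem tail_stepq {L L' P q : ℝ} (hq0 : 0 < q) (hq1 : q ≤ 1) (hL : 1 ≤ L) (hP : √(√L) ^ 3 ≤ P)
    (hL' : L + q * P ≤ L') : 1 / P ≤ 4 / q * ((√L)⁻¹ - (√L')⁻¹) := by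
  obtain ⟨y, hy⟩ : ∃ y, y = √(√L) := ⟨_, rfl⟩
  have h1 : 1 ≤ √L := Real.one_le_sqrt.2 hL
  have h2 : 1 ≤ y := hy ▸ Real.one_le_sqrt.2 h1
  have h3 : √L = y ^ 2 := by rw [hy, Real.sq_sqrt (by linarith)]
  have h4 : L = y ^ 4 := by
    have h5 : L = √L ^ 2 := (Real.sq_sqrt (by linarith)).symm
    rw [h5, h3]
    ring
  rw [← hy] at hP
  have hy0 : 0 < y := by linarith
  have hy3 : 0 < y ^ 3 := by positivity
  have hyq : 0 < 4 * y - q := by linarith
  have h5 : 4 * y ^ 3 / (4 * y - q) ≤ √L' := by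
    refine Real.le_sqrt_of_sq_le ?_
    rw [div_pow, div_le_iff₀ (by positivity)]
    have h6 : y ^ 4 + q * y ^ 3 ≤ L' := by
      rw [← h4]
      nlinarith
    refine le_trans ?_ (mul_le_mul_of_nonneg_right h6 (by positivity))
    have h7 : (y ^ 4 + q * y ^ 3) * (4 * y - q) ^ 2 - (4 * y ^ 3) ^ 2 =
        q * y ^ 3 * (8 * y ^ 2 - 7 * q * y + q ^ 2) := by ring
    have h8 : 0 ≤ q * y ^ 3 * (8 * y ^ 2 - 7 * q * y + q ^ 2) :=
      mul_nonneg (by positivity) (by nlinarith)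
    linarith
  have h6 : (√L')⁻¹ ≤ (4 * y - q) / (4 * y ^ 3) := by
    rw [← inv_div]
    exact inv_anti₀ (div_pos (by linarith) (by linarith)) h5
  have h7 : 1 / P ≤ 1 / y ^ 3 := one_div_le_one_div_of_le hy3 hP
  have h8 : 4 / q * ((y ^ 2)⁻¹ - (4 * y - q) / (4 * y ^ 3)) = 1 / y ^ 3 := by
    field_simp
    ring
  rw [h3]
  have h9 : 4 / q * ((y ^ 2)⁻¹ - (4 * y - q) / (4 * y ^ 3)) ≤
      4 / q * ((y ^ 2)⁻¹ - (√L')⁻¹) := mul_le_mul_of_nonneg_left (by linarith) (by positivity)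
  linarith

theorem tail_sumq {L P : ℕ → ℝ} {q : ℝ} (hq0 : 0 < q) (hq1 : q ≤ 1) {m k : ℕ} (hmk : m ≤ k)
    (h1 : ∀ l, m ≤ l → l ≤ k → 1 ≤ L l ∧ √(√(L l)) ^ 3 ≤ P l)
    (h2 : ∀ l, m ≤ l → l < k → L l + q * P l ≤ L (l + 1)) :
    ∑ l ∈ Ico m (k + 1), 1 / P l ≤ 4 / q * (√(L m))⁻¹ := by
  have h3 : ∀ k, m ≤ k → (∀ l, m ≤ l → l < k → 1 ≤ L l ∧ √(√(L l)) ^ 3 ≤ P l) →
      (∀ l, m ≤ l → l < k → L l + q * P l ≤ L (l + 1)) →
      ∑ l ∈ Ico m k, 1 / P l ≤ 4 / q * ((√(L m))⁻¹ - (√(L k))⁻¹) := by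
    intro k hk
    induction k, hk using Nat.le_induction with
    | base => intros; simp
    | succ k hk ih =>
      intro a b
      rw [Finset.sum_Ico_succ_top hk]
      have h3 := ih (fun l c d => a l c (by omega)) (fun l c d => b l c (by omega))
      have h4 := tail_stepq hq0 hq1 (a k hk (by omega)).1 (a k hk (by omega)).2 (b k hk (by omega))
      nlinarith
  rw [Finset.sum_Ico_succ_top hmk]
  have h4 := h3 k hmk (fun l a b => h1 l a b.le) h2
  obtain ⟨h5, h6⟩ := h1 k hmk le_rfl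
  have h7 : 1 ≤ √(L k) := Real.one_le_sqrt.2 h5
  have h8 : 1 ≤ √(√(L k)) := Real.one_le_sqrt.2 h7
  have h9 : √(L k) ≤ √(√(L k)) ^ 3 := by
    have h9 : √(√(L k)) ^ 2 = √(L k) := Real.sq_sqrt (by linarith)
    nlinarith
  have h10 : 1 / P k ≤ (√(L k))⁻¹ := by
    rw [one_div]
    exact inv_anti₀ (by linarith) (h9.trans h6)
  have h11 : 0 ≤ (√(L k))⁻¹ := inv_nonneg.2 (by linarith)
  have h12 : 1 ≤ 4 / q := by
    rw [le_div_iff₀ hq0]
    linarith
  nlinarith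

variable {X : Type} {S : Dat X} {M θ A w c h Λ : ℝ}

theorem gd_sum (hs : Stat S M θ) (hc : Cst M θ A w c h) (hG : Gd S A w c h Λ) {v : X} (hv : v ∈ S.V)
    {L : ℕ} (hL : Lm S A w L v < Λ) : ∑ l ∈ Ico 0 (L + 1), 1 / Ph S l v ≤ 4 / c ^ 2 := by
  have hc0 := hc.hc
  have hA := cst_A hs hc
  have hM := hs.hM
  have hlt : ∀ l ≤ L, Lm S A w l v < Λ := fun l hl =>
    lt_of_le_of_lt (lm_mono hs.a0 hA.le hl) hL
  have h1 := tail_sumq (L := fun l => Lm S A w l v) (P := fun l => Ph S l v / c) (q := c) hc0 hc.hc1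
    (Nat.zero_le L) (fun l _ hl => ?_) (fun l _ hl => ?_)
  · simp only [lm_zero] at h1
    have h2 : (√w)⁻¹ ≤ 1 := inv_le_one_of_one_le₀ (Real.one_le_sqrt.2 hc.hw)
    have h3 : ∑ l ∈ Ico 0 (L + 1), 1 / (Ph S l v / c) = c * ∑ l ∈ Ico 0 (L + 1), 1 / Ph S l v := by
      rw [Finset.mul_sum]
      refine Finset.sum_congr rfl fun l _ => ?_
      rw [one_div_div]
      ring
    rw [h3] at h1
    have h4 : 4 / c * (√w)⁻¹ ≤ 4 / c := by
      have : 0 < 4 / c := by positivity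
      nlinarith
    have h5 : 4 / c ^ 2 = 4 / c / c := by field_simp
    rw [h5, le_div_iff₀ hc0]
    linarith
  · have h2 := one_le_lm hs hc l v
    refine ⟨h2, (sqrt3_le h2 hc.hh1).trans ?_⟩
    have h3 := (hG v hv l (hlt l hl)).2
    show Lm S A w l v ^ (1 - h) ≤ Ph S l v / c
    rw [le_div_iff₀ hc0]
    linarith
  · have h2 := one_le_lm hs hc l v
    have h3 := (hG v hv l (hlt l hl.le)).1
    have h4 : 0 < S.a (S.f^[l] v) :=
      lt_of_lt_of_le (mul_pos hc0 (Real.rpow_pos_of_pos (by linarith) _)) h3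
    have h5 := ph_nonneg hs.a0 l (x := v)
    have h6 := hs.aM (S.f^[l] v)
    have h7 : M ≤ A := by
      have := hc.hA
      nlinarith
    show Lm S A w l v + c * (Ph S l v / c) ≤ Lm S A w (l + 1) v
    rw [mul_div_cancel₀ _ hc0.ne', lm_succ, ← mul_div_assoc, add_le_add_iff_left, le_div_iff₀ h4]
    nlinarith

/-- **The block of a deep point.** -/
theorem deep_block (hs : Stat S M θ) (hc : Cst M θ A w c h) (hG : Gd S A w c h Λ) {x : X}
    (hx : 0 < S.a x) (hx1 : S.a x < θ) (hΛ : M / S.a x ^ 2 < Λ) :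
    ∃ m : ℕ, 1 ≤ m ∧ (m : ℝ) ≤ 1 + M / (c * S.a x ^ 2) ∧
      (∀ l < m, 0 < S.a (S.f^[l] x)) ∧
      ∑ l ∈ range m, Ph S l x / S.a (S.f^[l] x) ≤ 2 / S.a x ∧
      ∑ l ∈ Ico 1 (m + 1), 1 / Ph S l x ≤ 8 / (c ^ 2 * S.a x) ∧
      S.a x ^ (2 * h - 1) / (4 * A * M / c) ≤ Ph S m x ∧
      1 ≤ (4 * A * M / c) ^ 2 * S.a x * Ph S m x ^ 2 := by
  obtain ⟨v, L, hb⟩ := bnd_ex hs hc hG hx hx1 hΛ
  have hc0 := hc.hc
  have hA := cst_A hs hc
  have hM := hs.hM
  have hA1 : 64 * M ≤ A := by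
    have := hc.hA
    nlinarith
  have hlam := bnd_lam hs hc hb (le_refl L)
  have hlamΛ : Lm S A w L v < Λ := lt_of_le_of_lt hlam hΛ
  have hph := bnd_ph hs hc hb
  have hapos : ∀ l < L, 0 < S.a (S.f^[l] (S.f x)) := by
    intro l hl
    have h1 := (hb.sha l hl).1
    have h2 := hb.vpos l hl.le
    linarith
  refine ⟨L + 1, by omega, ?_, ?_, ?_, ?_, hph, ?_⟩
  · have h1 := lm_len hs hc hG hb.hv hlamΛ
    push_cast
    have h2 : (L : ℝ) ≤ M / (c * S.a x ^ 2) := by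
      rw [le_div_iff₀ (by positivity)]
      rw [le_div_iff₀ (by positivity)] at hlam
      have h3 : (L : ℝ) * c * S.a x ^ 2 ≤ Lm S A w L v * S.a x ^ 2 :=
        mul_le_mul_of_nonneg_right h1 (by positivity)
      linarith
    linarith
  · intro l hl
    rcases Nat.eq_zero_or_pos l with h1 | h1
    · subst h1
      exact hx
    · obtain ⟨j, rfl⟩ : ∃ j, l = j + 1 := ⟨l - 1, by omega⟩
      rw [Function.iterate_succ_apply]
      exact hapos j (by omega)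
  · rw [Finset.sum_range_succ']
    simp only [ph_zero, Function.iterate_zero, id]
    have h1 : ∑ k ∈ range L, Ph S (k + 1) x / S.a (S.f^[k + 1] x) =
        S.a x * ∑ k ∈ range L, Ph S k (S.f x) / S.a (S.f^[k] (S.f x)) := by
      rw [Finset.mul_sum]
      refine Finset.sum_congr rfl fun k _ => ?_
      rw [ph_succ', Function.iterate_succ_apply, mul_div_assoc]
    rw [h1]
    have h2 := bnd_sum hs hc hb (le_refl L)
    have h3 : A * ∑ l ∈ range L, Ph S l (S.f x) / S.a (S.f^[l] (S.f x)) ≤ 4 * (M / S.a x ^ 2) :=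
      h2.trans (by linarith)
    have h4 : ∑ l ∈ range L, Ph S l (S.f x) / S.a (S.f^[l] (S.f x)) ≤ 1 / S.a x ^ 2 := by
      have h5 : 4 * (M / S.a x ^ 2) ≤ A * (1 / S.a x ^ 2) := by
        rw [← mul_div_assoc, mul_one_div]
        exact div_le_div_of_nonneg_right (by linarith) (by positivity)
      exact le_of_mul_le_mul_left (h3.trans h5) hA
    have h5 : S.a x * ∑ l ∈ range L, Ph S l (S.f x) / S.a (S.f^[l] (S.f x)) ≤ 1 / S.a x := by
      refine (mul_le_mul_of_nonneg_left h4 hx.le).trans (le_of_eq ?_)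
      field_simp
    have h6 : 2 / S.a x = 1 / S.a x + 1 / S.a x := by ring
    rw [h6]
    linarith
  · rw [Finset.sum_Ico_eq_sum_range, show L + 1 + 1 - 1 = L + 1 by omega]
    have h1 : ∀ k ∈ range (L + 1), 1 / Ph S (1 + k) x ≤ 2 / S.a x * (1 / Ph S k v) := by
      intro k hk
      have hk' := Finset.mem_range.1 hk
      rw [add_comm, ph_succ']
      have h2 := (hb.shp k (by omega)).1
      have h3 : 0 < Ph S k v := ph_pos fun l hl => hb.vpos l (by omega)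
      rw [one_div, mul_inv, div_mul_div_comm, mul_one, ← mul_inv, inv_eq_one_div,
        div_le_div_iff₀ (by nlinarith) (by positivity)]
      nlinarith
    refine (Finset.sum_le_sum h1).trans ?_
    rw [← Finset.mul_sum]
    have h2 := gd_sum hs hc hG hb.hv hlamΛ
    rw [← Finset.range_eq_Ico] at h2
    have h3 : 2 / S.a x * ∑ i ∈ range (L + 1), 1 / Ph S i v ≤ 2 / S.a x * (4 / c ^ 2) :=
      mul_le_mul_of_nonneg_left h2 (by positivity)
    refine h3.trans (le_of_eq ?_)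
    field_simp
    norm_num
  · have hK : 0 < 4 * A * M / c := by positivity
    have ha1 : S.a x ≤ 1 := by linarith [hs.hθ1]
    have h1 : 1 ≤ S.a x * (S.a x ^ (2 * h - 1)) ^ 2 := by
      have h2 : S.a x * (S.a x ^ (2 * h - 1)) ^ 2 = S.a x ^ (4 * h - 1) := by
        rw [← Real.rpow_natCast, ← Real.rpow_mul hx.le]
        nth_rewrite 1 [← Real.rpow_one (S.a x)]
        rw [← Real.rpow_add hx]
        congr 1
        push_cast
        ring
      rw [h2]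
      exact Real.one_le_rpow_of_pos_of_le_one_of_nonpos hx ha1 (by linarith [hc.hh1])
    have h2 : S.a x ^ (2 * h - 1) ≤ 4 * A * M / c * Ph S (L + 1) x := by
      rw [div_le_iff₀ hK] at hph
      linarith
    have h3 : (S.a x ^ (2 * h - 1)) ^ 2 ≤ (4 * A * M / c * Ph S (L + 1) x) ^ 2 :=
      pow_le_pow_left₀ (Real.rpow_nonneg hx.le _) h2 2
    calc 1 ≤ S.a x * (S.a x ^ (2 * h - 1)) ^ 2 := h1
      _ ≤ S.a x * (4 * A * M / c * Ph S (L + 1) x) ^ 2 := mul_le_mul_of_nonneg_left h3 hx.le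
      _ = (4 * A * M / c) ^ 2 * S.a x * Ph S (L + 1) x ^ 2 := by ring

end Pool.Agent.H84.SF
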