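import Mathlib
import Pool.Agent.H84.SF.Def
import Pool.Agent.H84.SF.Alg
import Pool.Agent.H84.SF.Bex

/-!
# Smoothed Fatou, SF-4d: the early stage
-/

set_option autoImplicit false

open Finset

namespace Pool.Agent.H84.SF

variable {X : Type}

/-- early stage, as delivered by the random part: the first `n0` points of the critical orbits are far from the critical points,
uniform expansion between them -/
structure H3 (S : Dat X) (E K : ℝ) (n0 : ℕ) : Prop where
  hE : 1 ≤ E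
  hK : 2 ≤ K
  h3a : ∀ v ∈ S.V, ∀ l ≤ n0, 1 / E ≤ S.a (S.f^[l] v)
  h3p : ∀ v ∈ S.V, ∀ l j, l + j ≤ n0 → K ^ j / E ≤ Ph S j (S.f^[l] v)

variable {S : Dat X} {M θ A w c E K N : ℝ} {n0 : ℕ}

theorem geo_sum (hK : 2 ≤ K) {a b : ℕ} (hab : a ≤ b) :
    ∑ l ∈ Ico (a + 1) (b + 1), (K ^ l)⁻¹ ≤ (K ^ a)⁻¹ - (K ^ b)⁻¹ := by
  induction b, hab using Nat.le_induction with
  | base => simp
  | succ b hb ih =>
    rw [Finset.sum_Ico_succ_top (by omega)]
    have hKb : 0 < K ^ b := pow_pos (by linarith) _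
    have h1 : (K ^ (b + 1))⁻¹ = (K ^ b)⁻¹ * K⁻¹ := by rw [pow_succ, mul_inv]
    have h2 : K⁻¹ ≤ 1 / 2 := by
      rw [one_div]
      exact inv_anti₀ (by norm_num) hK
    have h3 : 0 < (K ^ b)⁻¹ := inv_pos.2 hKb
    nlinarith

/-- a sum over `i < l` of `K ^ (-(l - i))` -/
theorem geo_sum2 (hK : 2 ≤ K) (l : ℕ) : ∑ i ∈ range l, (K ^ (l - i))⁻¹ ≤ 1 := by
  have h1 : ∑ i ∈ range l, (K ^ (l - i))⁻¹ = ∑ i ∈ Ico (0 + 1) (l + 1), (K ^ i)⁻¹ := by
    rw [← Finset.sum_range_reflect, Finset.sum_Ico_eq_sum_range]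
    refine Finset.sum_congr (by simp) fun j hj => ?_
    have hj' := Finset.mem_range.1 hj
    congr 2
    omega
  rw [h1]
  have h2 := geo_sum hK (Nat.zero_le l)
  have h3 : 0 < (K ^ l)⁻¹ := inv_pos.2 (pow_pos (by linarith) _)
  simp only [pow_zero, inv_one] at h2
  linarith

theorem es_ph (h3 : H3 S E K n0) {v : X} (hv : v ∈ S.V) {l : ℕ} (hl : l ≤ n0) :
    K ^ l / E ≤ Ph S l v := h3.h3p v hv 0 l (by omega)

theorem es_lm (h3 : H3 S E K n0) (hA : 0 ≤ A) (hw : 1 ≤ w) {v : X} (hv : v ∈ S.V) {l : ℕ}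
    (hl : l ≤ n0) : Lm S A w l v ≤ (w * E + A * E ^ 2) * Ph S l v := by
  have hE := h3.hE
  have hK := h3.hK
  have hph : 1 / E ≤ Ph S l v := by
    refine le_trans ?_ (es_ph h3 hv hl)
    exact div_le_div_of_nonneg_right (one_le_pow₀ (by linarith)) (by linarith)
  have hP : 0 < Ph S l v := lt_of_lt_of_le (by positivity) hph
  have h1 : ∀ i ∈ range l, Ph S i v / S.a (S.f^[i] v) ≤ E ^ 2 * Ph S l v * (K ^ (l - i))⁻¹ := by
    intro i hi
    have hi' := Finset.mem_range.1 hi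
    have h2 := h3.h3a v hv i (by omega)
    have h4 := h3.h3p v hv i (l - i) (by omega)
    have h5 : Ph S l v = Ph S i v * Ph S (l - i) (S.f^[i] v) := by
      rw [← ph_add]
      congr 1
      omega
    have h6 : 0 < Ph S i v := lt_of_lt_of_le (by
      have : 0 < K ^ i := pow_pos (by linarith) _
      positivity) (es_ph h3 hv (show i ≤ n0 by omega))
    have h7 : 0 < K ^ (l - i) := pow_pos (by linarith) _
    have h8 : Ph S i v ≤ E * Ph S l v * (K ^ (l - i))⁻¹ := by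
      rw [h5, le_mul_inv_iff₀ h7]
      rw [div_le_iff₀ (by linarith)] at h4
      nlinarith
    have h9 : Ph S i v / S.a (S.f^[i] v) ≤ Ph S i v * E := by
      rw [div_le_iff₀ (lt_of_lt_of_le (by positivity) h2)]
      rw [div_le_iff₀ (by linarith)] at h2
      nlinarith
    calc Ph S i v / S.a (S.f^[i] v) ≤ Ph S i v * E := h9
      _ ≤ E * Ph S l v * (K ^ (l - i))⁻¹ * E := mul_le_mul_of_nonneg_right h8 (by linarith)
      _ = E ^ 2 * Ph S l v * (K ^ (l - i))⁻¹ := by ring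
  have h2 : ∑ i ∈ range l, Ph S i v / S.a (S.f^[i] v) ≤ E ^ 2 * Ph S l v := by
    refine (Finset.sum_le_sum h1).trans ?_
    rw [← Finset.mul_sum]
    have h4 := geo_sum2 hK l
    have h5 : 0 ≤ E ^ 2 * Ph S l v := by positivity
    nlinarith
  have h4 : w ≤ w * E * Ph S l v := by
    have h5 : 1 ≤ E * Ph S l v := by
      rw [div_le_iff₀ (by linarith)] at hph
      linarith
    nlinarith
  unfold Lm
  have h5 : A * ∑ i ∈ range l, Ph S i v / S.a (S.f^[i] v) ≤ A * (E ^ 2 * Ph S l v) :=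
    mul_le_mul_of_nonneg_left h2 hA
  nlinarith

theorem es_len (hs : Stat S M θ) (h3 : H3 S E K n0) (hA : M ≤ A) (hw : 1 ≤ w)
    (hN : N < K ^ n0 / E) {v : X} (hv : v ∈ S.V) {l : ℕ} (hl : Lm S A w l v ≤ N) : l ≤ n0 := by
  have hE := h3.hE
  have hM := hs.hM
  have hA0 : 0 ≤ A := by linarith
  by_contra h
  have h1 : Lm S A w (n0 + 1) v ≤ Lm S A w l v := lm_mono hs.a0 hA0 (by omega)
  have h2 : Ph S n0 v ≤ Lm S A w (n0 + 1) v := by
    rw [lm_succ]
    have h4 := h3.h3a v hv n0 le_rfl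
    have h5 : 0 < S.a (S.f^[n0] v) := lt_of_lt_of_le (by positivity) h4
    have h6 := hs.aM (S.f^[n0] v)
    have h7 := ph_nonneg hs.a0 n0 (x := v)
    have h8 : Ph S n0 v ≤ A * (Ph S n0 v / S.a (S.f^[n0] v)) := by
      rw [← mul_div_assoc, le_div_iff₀ h5]
      nlinarith
    have h9 : w ≤ Lm S A w n0 v := lm_ge hs.a0 hA0 n0
    linarith
  have h4 := es_ph h3 hv (le_refl n0)
  linarith

/-- **Early stage.** -/
theorem es_of (hs : Stat S M θ) (h3 : H3 S E K n0) (hA : M ≤ A) (hw : 1 ≤ w) (hwN : w ≤ N)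
    (hN : N < K ^ n0 / E) (hc : 0 < c) (hc1 : c * (w * E + A * E ^ 2) ≤ 1) : ES S A w c N := by
  have hE := h3.hE
  have hK := h3.hK
  have hM := hs.hM
  have hA0 : 0 ≤ A := by linarith
  refine ⟨hwN, fun v hv l hl => ?_⟩
  have hln : l ≤ n0 := es_len hs h3 hA hw hN hv hl
  have h1 := es_lm h3 hA0 hw hv hln (A := A)
  have h2 := h3.h3a v hv l hln
  have hP : 0 < Ph S l v := lt_of_lt_of_le (by
    have : 0 < K ^ l := pow_pos (by linarith) _
    positivity) (es_ph h3 hv hln)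
  constructor
  · refine le_trans ?_ h2
    rw [le_div_iff₀ (by linarith)]
    have h4 : E ≤ w * E + A * E ^ 2 := by nlinarith [mul_nonneg hA0 (sq_nonneg E)]
    nlinarith
  · nlinarith

/-- the part of the sum of the inverse derivatives in the early stage -/
theorem es_tail (hs : Stat S M θ) (h3 : H3 S E K n0) (hA : M ≤ A) (hw : 1 ≤ w) (hN : N < K ^ n0 / E)
    {v : X} (hv : v ∈ S.V) {k : ℕ} {B : ℝ} (hB : 0 ≤ B)
    (hpos : ∀ l ≤ k, 0 < Ph S l v)
    (hlate : ∀ m ≤ k, N < Lm S A w m v → ∑ l ∈ Ico m (k + 1), 1 / Ph S l v ≤ B) (n1 : ℕ) :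
    ∑ l ∈ Ico (n1 + 1) (k + 1), 1 / Ph S l v ≤ E / K ^ n1 + B := by
  classical
  have hE := h3.hE
  have hK := h3.hK
  have hM := hs.hM
  have hA0 : 0 ≤ A := by linarith
  have hB' : 0 ≤ E / K ^ n1 := div_nonneg (by linarith) (pow_nonneg (by linarith) _)
  rcases Nat.lt_or_ge k n1 with hk | hk
  · rw [Finset.Ico_eq_empty_of_le (by omega), Finset.sum_empty]
    linarith
  · rw [← Finset.sum_filter_add_sum_filter_not _ (fun l => Lm S A w l v ≤ N)]
    refine add_le_add ?_ ?_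
    · have h1 : ∀ l ∈ (Ico (n1 + 1) (k + 1)).filter (fun l => Lm S A w l v ≤ N),
          1 / Ph S l v ≤ E * (K ^ l)⁻¹ := by
        intro l hl
        have h2 := (Finset.mem_filter.1 hl).2
        have hln : l ≤ n0 := es_len hs h3 hA hw hN hv h2
        have h4 := es_ph h3 hv hln
        have h5 : 0 < K ^ l := pow_pos (by linarith) _
        have h6 : 0 < K ^ l / E := by positivity
        calc 1 / Ph S l v ≤ 1 / (K ^ l / E) := one_div_le_one_div_of_le h6 h4
          _ = E * (K ^ l)⁻¹ := by field_simp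
      refine (Finset.sum_le_sum h1).trans ?_
      have h7 : ∑ l ∈ (Ico (n1 + 1) (k + 1)).filter (fun l => Lm S A w l v ≤ N), E * (K ^ l)⁻¹ ≤
          ∑ l ∈ Ico (n1 + 1) (k + 1), E * (K ^ l)⁻¹ :=
        Finset.sum_le_sum_of_subset_of_nonneg (Finset.filter_subset _ _) fun i _ _ =>
          mul_nonneg (by linarith) (inv_nonneg.2 (pow_nonneg (by linarith) _))
      refine h7.trans ?_
      rw [← Finset.mul_sum]
      have h8 := geo_sum hK hk
      have h9 : 0 < (K ^ k)⁻¹ := inv_pos.2 (pow_pos (by linarith) _)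
      rw [div_eq_mul_inv]
      nlinarith
    · by_cases hex : ∃ m, N < Lm S A w m v ∧ m ≤ k
      · have h1 := Nat.find_spec hex
        refine le_trans (Finset.sum_le_sum_of_subset_of_nonneg ?_ ?_) (hlate _ h1.2 h1.1)
        · intro l hl
          obtain ⟨h2, h4⟩ := Finset.mem_filter.1 hl
          have h5 := Finset.mem_Ico.1 h2
          exact Finset.mem_Ico.2 ⟨Nat.find_min' hex ⟨not_le.1 h4, by omega⟩, h5.2⟩
        · intro l hl _
          have h5 := Finset.mem_Ico.1 hl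
          exact (one_div_pos.2 (hpos l (by omega))).le
      · rw [Finset.filter_eq_empty_iff.2, Finset.sum_empty]
        · exact hB
        · intro l hl
          have h5 := Finset.mem_Ico.1 hl
          push Not
          by_contra h6
          exact hex ⟨l, not_le.1 h6, by omega⟩

end Pool.Agent.H84.SF
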