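import Pool.Agent.H84.SF.Def

/-!
# Smoothed Fatou, SF-4d: the three possible positions of a time
-/

set_option autoImplicit false

namespace Pool.Agent.H84.SF

variable {θ : ℝ} {al : ℕ → ℝ} {Bd : ℕ → ℕ → Prop} {m0 : ℕ}

theorem fd_ge {k : ℕ} (h : FD θ al Bd m0 k) : m0 ≤ k := by
  induction h with
  | first k h0 h1 h2 => exact h0
  | next j L k hj hL h0 h1 h2 ih => omega

theorem fd_lt {k : ℕ} (h : FD θ al Bd m0 k) : al k < θ := by
  cases h with
  | first k h0 h1 h2 => exact h2
  | next j L k hj hL h0 h1 h2 => exact h2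

/-- a time `m` is in the first segment without deep times, in a bound period (or at its end) or in a later segment
without deep times -/
theorem fd_tri {n : ℕ} (hB : ∀ k, m0 ≤ k → k < n → al k < θ → ∃ L, Bd k L) {m : ℕ} (hm : m0 ≤ m)
    (hmn : m ≤ n) :
    (∀ l, m0 ≤ l → l < m → θ ≤ al l) ∨
    (∃ j L, FD θ al Bd m0 j ∧ Bd j L ∧ j < m ∧ m ≤ j + 1 + L) ∨
    (∃ j L, FD θ al Bd m0 j ∧ Bd j L ∧ j + 1 + L < m ∧ ∀ l, j + 1 + L ≤ l → l < m → θ ≤ al l) := by
  induction m, hm using Nat.le_induction with
  | base => exact Or.inl fun l h1 h2 => by omega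
  | succ m hm ih =>
    rcases ih (by omega) with h | ⟨j, L, h1, h2, h3, h4⟩ | ⟨j, L, h1, h2, h3, h4⟩
    · by_cases hd : θ ≤ al m
      · left
        intro l h5 h6
        rcases Nat.lt_succ_iff_lt_or_eq.1 h6 with h7 | rfl
        · exact h l h5 h7
        · exact hd
      · right; left
        obtain ⟨L, hL⟩ := hB m hm (by omega) (not_le.1 hd)
        exact ⟨m, L, FD.first m hm h (not_le.1 hd), hL, by omega, by omega⟩
    · rcases Nat.lt_or_ge m (j + 1 + L) with h5 | h5
      · right; left
        exact ⟨j, L, h1, h2, by omega, by omega⟩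
      · have h6 : m = j + 1 + L := by omega
        by_cases hd : θ ≤ al m
        · right; right
          refine ⟨j, L, h1, h2, by omega, fun l h7 h8 => ?_⟩
          have : l = m := by omega
          rw [this]; exact hd
        · right; left
          obtain ⟨L', hL'⟩ := hB m hm (by omega) (not_le.1 hd)
          exact ⟨m, L', FD.next j L m h1 h2 (by omega) (fun l h7 h8 => by omega) (not_le.1 hd),
            hL', by omega, by omega⟩
    · by_cases hd : θ ≤ al m
      · right; right
        refine ⟨j, L, h1, h2, by omega, fun l h7 h8 => ?_⟩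
        rcases Nat.lt_succ_iff_lt_or_eq.1 h8 with h9 | rfl
        · exact h4 l h7 h9
        · exact hd
      · right; left
        obtain ⟨L', hL'⟩ := hB m hm (by omega) (not_le.1 hd)
        exact ⟨m, L', FD.next j L m h1 h2 (by omega) h4 (not_le.1 hd), hL', by omega, by omega⟩

end Pool.Agent.H84.SF
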