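import Pool.Agent.H84.SF.Alg

/-!
# Smoothed Fatou, SF-4d: segments without deep points
-/

set_option autoImplicit false

open Finset

namespace Pool.Agent.H84.SF

variable {X : Type} {S : Dat X} {M θ A M3 M4 : ℝ}

theorem uu_seg (h0 : ∀ x, 0 ≤ S.a x) (hθ : 0 < θ) (hA : 0 ≤ A) {G u : ℝ} (hG : 0 < G)
    (hu : 0 ≤ u) {x : X} {m : ℕ} (h1 : ∀ l < m, θ ≤ S.a (S.f^[l] x))
    (h2 : ∀ l ≤ m, 2 ^ (m - l) / G ≤ Ph S (m - l) (S.f^[l] x)) :
    Uu S A u m x ≤ G * (u + 2 * A / θ ^ 2) := by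
  have hPm := h2 0 (Nat.zero_le _)
  simp only [Nat.sub_zero, Function.iterate_zero, id_eq] at hPm
  have hPm0 : 0 < Ph S m x := lt_of_lt_of_le (by positivity) hPm
  have hterm : ∀ l ∈ range m, Ph S l x / S.a (S.f^[l] x) / Ph S m x ≤
      G / θ ^ 2 * (1 / 2) ^ (m - 1 - l) := by
    intro l hl
    rw [mem_range] at hl
    have ha : θ ≤ S.a (S.f^[l] x) := h1 l hl
    have ha0 : 0 < S.a (S.f^[l] x) := lt_of_lt_of_le hθ ha
    have h3 := h2 (l + 1) hl
    have h4 : m - (l + 1) = m - 1 - l := by omega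
    rw [h4] at h3
    have hQ : 0 < Ph S (m - 1 - l) (S.f^[l + 1] x) := lt_of_lt_of_le (by positivity) h3
    have h5 : Ph S m x = Ph S l x * S.a (S.f^[l] x) * Ph S (m - 1 - l) (S.f^[l + 1] x) := by
      rw [← ph_succ, ← ph_add]
      congr 1
      omega
    have hPl : 0 < Ph S l x := ph_pos fun i hi => lt_of_lt_of_le hθ (h1 i (by omega))
    have h6 : Ph S l x / S.a (S.f^[l] x) / Ph S m x =
        1 / (S.a (S.f^[l] x) ^ 2 * Ph S (m - 1 - l) (S.f^[l + 1] x)) := by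
      rw [h5]; field_simp
    rw [h6]
    have h7 : θ ^ 2 * (2 ^ (m - 1 - l) / G) ≤
        S.a (S.f^[l] x) ^ 2 * Ph S (m - 1 - l) (S.f^[l + 1] x) := by
      gcongr
    refine (one_div_le_one_div_of_le (by positivity) h7).trans (le_of_eq ?_)
    rw [one_div_pow]
    field_simp
  have hsum : ∑ l ∈ range m, ((1 : ℝ) / 2) ^ (m - 1 - l) ≤ 2 := by
    rw [sum_range_reflect (fun j => ((1 : ℝ) / 2) ^ j) m]
    have := Summable.sum_le_tsum (range m) (fun i _ => by positivity)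
      summable_geometric_two
    rwa [tsum_geometric_two] at this
  have h8 : Uu S A u m x = u / Ph S m x + A * ∑ l ∈ range m, Ph S l x / S.a (S.f^[l] x) / Ph S m x := by
    rw [Uu, Lm, add_div, ← sum_div, mul_div_assoc]
  rw [h8, mul_add]
  refine add_le_add ?_ ?_
  · have h9 : 1 / G ≤ Ph S m x := by
      refine le_trans ?_ hPm
      exact div_le_div_of_nonneg_right (one_le_pow₀ (by norm_num)) hG.le
    rw [div_le_iff₀ hPm0]
    have h10 : 1 ≤ G * Ph S m x := by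
      rw [div_le_iff₀ hG] at h9
      linarith
    nlinarith
  · calc A * ∑ l ∈ range m, Ph S l x / S.a (S.f^[l] x) / Ph S m x
        ≤ A * ∑ l ∈ range m, G / θ ^ 2 * (1 / 2) ^ (m - 1 - l) :=
          mul_le_mul_of_nonneg_left (sum_le_sum hterm) hA
      _ = A * (G / θ ^ 2 * ∑ l ∈ range m, (1 / 2) ^ (m - 1 - l)) := by rw [← mul_sum (range m)]
      _ ≤ A * (G / θ ^ 2 * 2) := by gcongr
      _ = G * (2 * A / θ ^ 2) := by ring

theorem sh1 (hs : Stat S M θ) (hg : Grow S θ M3 M4) (hA : 0 ≤ A) {u : ℝ} (hu : 0 ≤ u) {x : X}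
    {m : ℕ} (h1 : ∀ l < m, θ ≤ S.a (S.f^[l] x)) :
    Uu S A u m x ≤ M4 * (u + 2 * A / θ ^ 2) := by
  have hM4 : 0 < M4 := by linarith [hg.hM4]
  refine uu_seg hs.a0 hs.hθ hA hM4 hu h1 fun l hl => ?_
  exact hg.gr1 (S.f^[l] x) (m - l) (fun i hi => by
    rw [← Function.iterate_add_apply]; exact h1 _ (by omega))

theorem sh2 (hs : Stat S M θ) (hg : Grow S θ M3 M4) (hA : 0 ≤ A) {u : ℝ} (hu : 0 ≤ u) {x : X}
    {m : ℕ} (h1 : ∀ l < m, θ ≤ S.a (S.f^[l] x)) (h2 : S.a (S.f^[m] x) < θ) :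
    Uu S A u m x ≤ M3 * (u + 2 * A / θ ^ 2) := by
  have hM3 : 0 < M3 := by linarith [hg.hM3]
  refine uu_seg hs.a0 hs.hθ hA hM3 hu h1 fun l hl => ?_
  refine hg.gr2 (S.f^[l] x) (m - l) (fun i hi => by
    rw [← Function.iterate_add_apply]; exact h1 _ (by omega)) ?_
  rw [← Function.iterate_add_apply, Nat.sub_add_cancel hl]
  exact h2

end Pool.Agent.H84.SF
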