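import Pool.Agent.H84.SF.Blk
import Pool.Agent.H84.SF.Sha
import Pool.Agent.H84.SF.Fdt

/-!
# Smoothed Fatou, SF-4d: the size at the free deep times and at all times
-/

set_option autoImplicit false

open Finset

namespace Pool.Agent.H84.SF

variable {X : Type} {S : Dat X} {M θ A w c h g M3 M4 : ℝ}

/-- an orbit from the time `m0` (large size) to the time `n`, with the basic assumption at its deep times and enough
information on the critical orbits -/
structure Run (S : Dat X) (M θ A w c h g M3 M4 : ℝ) (x : X) (m0 n : ℕ) : Prop where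
  hs : Stat S M θ
  hc : Cst M θ A w c h
  hg : Grow S θ M3 M4
  small : M3 * (4 * A * M / c) * θ ^ (1 - 2 * h) ≤ 1 / 4
  g0 : 0 ≤ g
  pos : ∀ k < m0, 0 < S.a (S.f^[k] x)
  U0 : Uu S A w m0 x ≤ 1 / c
  ba : ∀ k, m0 ≤ k → k < n → S.a (S.f^[k] x) < θ → Lm S A w k x ^ (-g) ≤ S.a (S.f^[k] x)
  gd : ∀ k, m0 ≤ k → k < n → S.a (S.f^[k] x) < θ →
    ∃ Λ, Gd S A w c h Λ ∧ M / S.a (S.f^[k] x) ^ 2 < Λ

noncomputable def BB (A M c θ M3 : ℝ) : ℝ := 8 * A * M3 * (4 * A * M / c + 1 / θ ^ 2)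

noncomputable def BC (A M c θ M3 M4 : ℝ) : ℝ :=
  M4 * BB A M c θ M3 + (2 * BB A M c θ M3 + 2 * A + 8 * M) / c

/-- `k` is followed by a bound period of length `L` -/
def BdR (S : Dat X) (M A w c h : ℝ) (x : X) (k L : ℕ) : Prop :=
  ∃ v, Bnd S M A w c h (S.f^[k] x) v L

/-- free deep time of the orbit of `x` -/
def FDx (S : Dat X) (M θ A w c h : ℝ) (x : X) (m0 k : ℕ) : Prop :=
  FD θ (fun k => S.a (S.f^[k] x)) (BdR S M A w c h x) m0 k

variable {x : X} {m0 n : ℕ}

theorem run_pos (hr : Run S M θ A w c h g M3 M4 x m0 n) {k : ℕ} (hk : k < n) :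
    0 < S.a (S.f^[k] x) := by
  rcases Nat.lt_or_ge k m0 with h1 | h1
  · exact hr.pos k h1
  · by_cases h2 : S.a (S.f^[k] x) < θ
    · refine lt_of_lt_of_le (Real.rpow_pos_of_pos ?_ _) (hr.ba k h1 hk h2)
      linarith [one_le_lm hr.hs hr.hc k x]
    · linarith [hr.hs.hθ, not_lt.1 h2]

theorem run_ph (hr : Run S M θ A w c h g M3 M4 x m0 n) {k : ℕ} (hk : k ≤ n) : 0 < Ph S k x :=
  ph_pos fun l hl => run_pos hr (by omega)

theorem run_uu (hr : Run S M θ A w c h g M3 M4 x m0 n) (k : ℕ) : 0 ≤ Uu S A w k x :=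
  div_nonneg (by linarith [one_le_lm hr.hs hr.hc k x]) (ph_nonneg hr.hs.a0 k)

theorem BB_facts (hr : Run S M θ A w c h g M3 M4 x m0 n) :
    1 ≤ A ∧ 1 ≤ 4 * A * M / c ∧ 0 < BB A M c θ M3 ∧
    2 * A * M3 * (4 * A * M / c) ≤ BB A M c θ M3 / 4 ∧ 2 * A * M3 / θ ^ 2 ≤ BB A M c θ M3 / 4 ∧
    M3 / c ≤ BB A M c θ M3 / 4 := by
  have hM := hr.hs.hM
  have hM2 := one_le_pow₀ hM (n := 2)
  have hA : 1 ≤ A := by linarith [hr.hc.hA]
  have hc := hr.hc.hc
  have hc1 := hr.hc.hc1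
  have hM3 := hr.hg.hM3
  have hθ := hr.hs.hθ
  have hAM : 1 ≤ A * M := by nlinarith
  have hK : 1 ≤ 4 * A * M / c := by
    rw [le_div_iff₀ hc]; nlinarith
  have h1 : 0 < 1 / θ ^ 2 := by positivity
  have hAM3 : 1 ≤ A * M3 := by nlinarith
  refine ⟨hA, hK, by unfold BB; positivity, ?_, ?_, ?_⟩
  · unfold BB
    have : 0 ≤ A * M3 * (1 / θ ^ 2) := by positivity
    nlinarith
  · unfold BB
    have h2 : 0 ≤ A * M3 * (4 * A * M / c) := by positivity
    have h3 : 2 * A * M3 / θ ^ 2 = 2 * (A * M3 * (1 / θ ^ 2)) := by ring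
    rw [h3]
    nlinarith
  · unfold BB
    have h2 : 0 ≤ A * M3 * (1 / θ ^ 2) := by positivity
    have h3 : M3 / c ≤ A * M3 * (4 * A * M / c) := by
      rw [← mul_div_assoc]
      refine div_le_div_of_nonneg_right ?_ hc.le
      nlinarith [mul_nonneg (by linarith : (0:ℝ) ≤ A * M3 - 1) (by linarith : (0:ℝ) ≤ A * M)]
    have h4 : 0 ≤ A * M3 * (4 * A * M / c) := by positivity
    nlinarith

/-- powers: the depth of a time in terms of its scale -/
theorem run_pow (hr : Run S M θ A w c h g M3 M4 x m0 n) {k : ℕ} (h1 : m0 ≤ k) (h2 : k < n)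
    (h3 : S.a (S.f^[k] x) < θ) :
    (S.a (S.f^[k] x))⁻¹ ≤ Lm S A w k x ^ g ∧
    S.a (S.f^[k] x) ^ (-(2 * h)) ≤ Lm S A w k x ^ (2 * g * h) ∧
    M3 * (4 * A * M / c) * S.a (S.f^[k] x) ^ (1 - 2 * h) ≤ 1 / 4 := by
  have hL := one_le_lm hr.hs hr.hc k x
  have hL0 : 0 < Lm S A w k x := by linarith
  have hα := run_pos hr h2
  have h4 : (S.a (S.f^[k] x))⁻¹ ≤ Lm S A w k x ^ g := by
    have h5 := inv_anti₀ (Real.rpow_pos_of_pos hL0 _) (hr.ba k h1 h2 h3)
    rwa [Real.rpow_neg hL0.le, inv_inv] at h5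
  refine ⟨h4, ?_, ?_⟩
  · rw [Real.rpow_neg hα.le, ← Real.inv_rpow hα.le]
    calc (S.a (S.f^[k] x))⁻¹ ^ (2 * h) ≤ (Lm S A w k x ^ g) ^ (2 * h) :=
          Real.rpow_le_rpow (inv_pos.2 hα).le h4 (by linarith [hr.hc.hh])
      _ = Lm S A w k x ^ (2 * g * h) := by
          rw [← Real.rpow_mul hL0.le]; congr 1; ring
  · refine le_trans ?_ hr.small
    have hK := (BB_facts hr).2.1
    have hM3 := hr.hg.hM3
    refine mul_le_mul_of_nonneg_left ?_ (by positivity)
    exact Real.rpow_le_rpow hα.le h3.le (by linarith [hr.hc.hh1])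

/-- the size after the bound period of a deep time -/
theorem run_end (hr : Run S M θ A w c h g M3 M4 x m0 n) {k L : ℕ} (h1 : m0 ≤ k) (h2 : k < n)
    (h3 : S.a (S.f^[k] x) < θ) (hb : BdR S M A w c h x k L) :
    M3 * Uu S A w (k + 1 + L) x ≤
      Uu S A w k x / 4 + BB A M c θ M3 / 4 * Lm S A w k x ^ (2 * g * h) := by
  obtain ⟨v, hb⟩ := hb
  obtain ⟨hA, hK, hB, hB1, -, -⟩ := BB_facts hr
  have hM3 := hr.hg.hM3
  obtain ⟨-, h5, h6⟩ := run_pow hr h1 h2 h3
  have hU := run_uu hr k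
  have h7 : Uu S A w (k + 1 + L) x = Uu S A (Uu S A w k x) (L + 1) (S.f^[k] x) := by
    rw [add_assoc, add_comm 1 L, uu_add _ (run_ph hr h2.le).ne']
  rw [h7]
  have h8 := bnd_end hr.hs hr.hc hb hU
  have h9 := mul_le_mul_of_nonneg_left h8 (by linarith : (0 : ℝ) ≤ M3)
  refine h9.trans ?_
  have h10 : M3 * (4 * A * M / c * (S.a (S.f^[k] x) ^ (1 - 2 * h) * Uu S A w k x +
      2 * A * S.a (S.f^[k] x) ^ (-(2 * h)))) =
      M3 * (4 * A * M / c) * S.a (S.f^[k] x) ^ (1 - 2 * h) * Uu S A w k x +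
      2 * A * M3 * (4 * A * M / c) * S.a (S.f^[k] x) ^ (-(2 * h)) := by ring
  rw [h10]
  refine add_le_add ?_ ?_
  · nlinarith [mul_le_mul_of_nonneg_right h6 hU]
  · refine mul_le_mul hB1 h5 (Real.rpow_nonneg (hr.hs.a0 _) _) (by positivity)

/-- the size at the free deep times -/
theorem fd_bd (hr : Run S M θ A w c h g M3 M4 x m0 n) {k : ℕ} (hk : FDx S M θ A w c h x m0 k)
    (hkn : k ≤ n) : Uu S A w k x ≤ BB A M c θ M3 * Lm S A w k x ^ (2 * g * h) := by
  obtain ⟨hA, hK, hB, hB1, hB2, hB3⟩ := BB_facts hr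
  have hM3 := hr.hg.hM3
  have hgh : 0 ≤ 2 * g * h := mul_nonneg (by linarith [hr.g0]) hr.hc.hh
  unfold FDx at hk
  induction hk with
  | first k h0 h1 h2 =>
    have h3 : Uu S A w k x = Uu S A (Uu S A w m0 x) (k - m0) (S.f^[m0] x) := by
      rw [← uu_add _ (run_ph hr (by omega)).ne']
      congr 1
      omega
    have h4 := sh2 hr.hs hr.hg (cst_A hr.hs hr.hc).le (run_uu hr m0) (x := S.f^[m0] x) (m := k - m0)
      (fun l hl => by
        rw [← Function.iterate_add_apply]; exact h1 _ (by omega) (by omega))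
      (by rw [← Function.iterate_add_apply, Nat.sub_add_cancel h0]; exact h2)
    rw [← h3] at h4
    have h5 : M3 * (Uu S A w m0 x + 2 * A / θ ^ 2) ≤ BB A M c θ M3 := by
      have h6 := mul_le_mul_of_nonneg_left hr.U0 (by linarith : (0 : ℝ) ≤ M3)
      have h7 : M3 * (1 / c) = M3 / c := by ring
      have h8 : M3 * (2 * A / θ ^ 2) = 2 * A * M3 / θ ^ 2 := by ring
      rw [mul_add]
      linarith
    refine (h4.trans h5).trans ?_
    have h9 := Real.one_le_rpow (one_le_lm hr.hs hr.hc k x) hgh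
    nlinarith
  | next j L k hj hL h0 h1 h2 ih =>
    have hjn : j < n := by omega
    have hjm := fd_ge hj
    have hjd := fd_lt hj
    have h3 := run_end hr hjm hjn hjd hL
    have h4 := ih hjn.le
    have h5 : Uu S A w k x =
        Uu S A (Uu S A w (j + 1 + L) x) (k - (j + 1 + L)) (S.f^[j + 1 + L] x) := by
      rw [← uu_add _ (run_ph hr (by omega)).ne']
      congr 1
      omega
    have h6 := sh2 hr.hs hr.hg (cst_A hr.hs hr.hc).le (run_uu hr (j + 1 + L)) (x := S.f^[j + 1 + L] x)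
      (m := k - (j + 1 + L))
      (fun l hl => by
        rw [← Function.iterate_add_apply]; exact h1 _ (by omega) (by omega))
      (by rw [← Function.iterate_add_apply, Nat.sub_add_cancel h0]; exact h2)
    rw [← h5] at h6
    have hLj := one_le_lm hr.hs hr.hc j x
    have h7 : 1 ≤ Lm S A w j x ^ (2 * g * h) := Real.one_le_rpow hLj hgh
    have h8 : Lm S A w j x ^ (2 * g * h) ≤ Lm S A w k x ^ (2 * g * h) :=
      Real.rpow_le_rpow (by linarith) (lm_mono hr.hs.a0 (by linarith) (by omega)) hgh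
    have h9 : M3 * (2 * A / θ ^ 2) = 2 * A * M3 / θ ^ 2 := by ring
    calc Uu S A w k x ≤ M3 * (Uu S A w (j + 1 + L) x + 2 * A / θ ^ 2) := h6
      _ ≤ BB A M c θ M3 * Lm S A w j x ^ (2 * g * h) := by
          rw [mul_add, h9]; nlinarith
      _ ≤ _ := mul_le_mul_of_nonneg_left h8 hB.le

/-- the size at all times -/
theorem all_bd (hr : Run S M θ A w c h g M3 M4 x m0 n) {m : ℕ} (hm : m0 ≤ m) (hmn : m ≤ n) :
    Uu S A w m x ≤ BC A M c θ M3 M4 * Lm S A w m x ^ (2 * g) := by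
  obtain ⟨hA, hK, hB, hB1, hB2, hB3⟩ := BB_facts hr
  have hM := hr.hs.hM
  have hM3 := hr.hg.hM3
  have hM4 := hr.hg.hM4
  have hc0 := hr.hc.hc
  have hg0 := hr.g0
  have hh0 := hr.hc.hh
  have hgh : 0 ≤ 2 * g * h := by positivity
  have hg2 : 0 ≤ 2 * g := by positivity
  have hθ := hr.hs.hθ
  have hLm := one_le_lm hr.hs hr.hc m x
  have hLm1 : 1 ≤ Lm S A w m x ^ (2 * g) := Real.one_le_rpow hLm hg2
  have hBC : M4 * BB A M c θ M3 ≤ BC A M c θ M3 M4 := by
    unfold BC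
    have : 0 ≤ (2 * BB A M c θ M3 + 2 * A + 8 * M) / c := by positivity
    linarith
  have h2A : 2 * A / θ ^ 2 ≤ BB A M c θ M3 / 4 := by
    refine le_trans ?_ hB2
    refine div_le_div_of_nonneg_right ?_ (by positivity)
    nlinarith
  have htri := fd_tri (θ := θ) (al := fun k => S.a (S.f^[k] x)) (Bd := BdR S M A w c h x) (m0 := m0)
    (n := n) (fun k h1 h2 h3 => by
      obtain ⟨Λ, h4, h5⟩ := hr.gd k h1 h2 h3
      obtain ⟨v, L, h6⟩ := bnd_ex hr.hs hr.hc h4 (run_pos hr h2) h3 h5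
      exact ⟨L, v, h6⟩) hm hmn
  rcases htri with h1 | ⟨j, L, hj, hL, h1, h2⟩ | ⟨j, L, hj, hL, h1, h2⟩
  · -- first segment
    have h3 : Uu S A w m x = Uu S A (Uu S A w m0 x) (m - m0) (S.f^[m0] x) := by
      rw [← uu_add _ (run_ph hr (by omega)).ne']
      congr 1
      omega
    have h4 := sh1 hr.hs hr.hg (cst_A hr.hs hr.hc).le (run_uu hr m0) (x := S.f^[m0] x) (m := m - m0)
      (fun l hl => by
        rw [← Function.iterate_add_apply]; exact h1 _ (by omega) (by omega))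
    rw [← h3] at h4
    have h5 : Uu S A w m0 x ≤ BB A M c θ M3 / 4 := by
      refine (hr.U0.trans ?_).trans hB3
      exact div_le_div_of_nonneg_right hM3 hc0.le
    have h6 : M4 * (Uu S A w m0 x + 2 * A / θ ^ 2) ≤ M4 * BB A M c θ M3 :=
      mul_le_mul_of_nonneg_left (by linarith) (by linarith)
    have h7 : 0 ≤ BC A M c θ M3 M4 := le_trans (by positivity) hBC
    exact ((h4.trans h6).trans hBC).trans (le_mul_of_one_le_right h7 hLm1)
  · -- bound period
    have hjn : j < n := by omega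
    have hjm := fd_ge hj
    have hjd := fd_lt hj
    obtain ⟨v, hb⟩ := hL
    obtain ⟨p, rfl⟩ : ∃ p, m = j + (p + 1) := ⟨m - j - 1, by omega⟩
    have h3 : Uu S A w (j + (p + 1)) x = Uu S A (Uu S A w j x) (p + 1) (S.f^[j] x) :=
      uu_add _ (run_ph hr hjn.le).ne'
    have h4 := bnd_mid hr.hs hr.hc hb (run_uu hr j) (p := p) (by omega)
    rw [← h3] at h4
    obtain ⟨h5, h6, -⟩ := run_pow hr hjm hjn hjd
    have h7 := fd_bd hr hj hjn.le
    have hLj := one_le_lm hr.hs hr.hc j x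
    have hLj0 : 0 < Lm S A w j x := by linarith
    have h8 : Lm S A w j x ^ (2 * g * h) ≤ Lm S A w j x ^ g := by
      refine Real.rpow_le_rpow_of_exponent_le hLj ?_
      nlinarith [hr.hc.hh1]
    have h9 : Lm S A w j x ^ g * Lm S A w j x ^ g = Lm S A w j x ^ (2 * g) := by
      rw [← Real.rpow_add hLj0]; congr 1; ring
    have h10 : 1 ≤ Lm S A w j x ^ g := Real.one_le_rpow hLj hg0
    have h11 : Lm S A w j x ^ g ≤ Lm S A w j x ^ (2 * g) := by
      rw [← h9]; nlinarith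
    have h12 : Lm S A w j x ^ (2 * g) ≤ Lm S A w (j + (p + 1)) x ^ (2 * g) :=
      Real.rpow_le_rpow hLj0.le (lm_mono hr.hs.a0 (by linarith) (by omega)) hg2
    have hα := run_pos hr hjn
    have h13 : (S.a (S.f^[j] x))⁻¹ * (Uu S A w j x + A * (S.a (S.f^[j] x))⁻¹) ≤
        (BB A M c θ M3 + A) * Lm S A w j x ^ (2 * g) := by
      have hi : 0 ≤ (S.a (S.f^[j] x))⁻¹ := (inv_pos.2 hα).le
      calc (S.a (S.f^[j] x))⁻¹ * (Uu S A w j x + A * (S.a (S.f^[j] x))⁻¹)
          ≤ Lm S A w j x ^ g * (BB A M c θ M3 * Lm S A w j x ^ g + A * Lm S A w j x ^ g) := by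
            have h14 : BB A M c θ M3 * Lm S A w j x ^ (2 * g * h) ≤
                BB A M c θ M3 * Lm S A w j x ^ g := mul_le_mul_of_nonneg_left h8 hB.le
            have h15 := h7.trans h14
            have := run_uu hr j
            gcongr
        _ = (BB A M c θ M3 + A) * (Lm S A w j x ^ g * Lm S A w j x ^ g) := by ring
        _ = _ := by rw [h9]
    have h14 : 2 / c * (S.a (S.f^[j] x))⁻¹ * (Uu S A w j x + A * (S.a (S.f^[j] x))⁻¹) +
        8 * M / c * S.a (S.f^[j] x) ^ (-(2 * h)) ≤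
        (2 * BB A M c θ M3 + 2 * A + 8 * M) / c * Lm S A w j x ^ (2 * g) := by
      have h15 : 8 * M / c * S.a (S.f^[j] x) ^ (-(2 * h)) ≤ 8 * M / c * Lm S A w j x ^ (2 * g) :=
        mul_le_mul_of_nonneg_left (by linarith) (by positivity)
      have h16 := mul_le_mul_of_nonneg_left h13 (by positivity : 0 ≤ 2 / c)
      have h17 : (2 * BB A M c θ M3 + 2 * A + 8 * M) / c * Lm S A w j x ^ (2 * g) =
          2 / c * ((BB A M c θ M3 + A) * Lm S A w j x ^ (2 * g)) +
          8 * M / c * Lm S A w j x ^ (2 * g) := by ring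
      rw [h17, mul_assoc]
      exact add_le_add h16 h15
    refine (h4.trans h14).trans ?_
    have h15 : (2 * BB A M c θ M3 + 2 * A + 8 * M) / c ≤ BC A M c θ M3 M4 := by
      unfold BC
      have : 0 ≤ M4 * BB A M c θ M3 := by positivity
      linarith
    exact mul_le_mul h15 h12 (by positivity) (by
      have : 0 ≤ M4 * BB A M c θ M3 := by positivity
      linarith)
  · -- a later segment
    have hjn : j < n := by omega
    have hjm := fd_ge hj
    have hjd := fd_lt hj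
    have h3 := run_end hr hjm hjn hjd hL
    have h4 := fd_bd hr hj hjn.le
    have h5 : Uu S A w m x =
        Uu S A (Uu S A w (j + 1 + L) x) (m - (j + 1 + L)) (S.f^[j + 1 + L] x) := by
      rw [← uu_add _ (run_ph hr (by omega)).ne']
      congr 1
      omega
    have h6 := sh1 hr.hs hr.hg (cst_A hr.hs hr.hc).le (run_uu hr (j + 1 + L)) (x := S.f^[j + 1 + L] x)
      (m := m - (j + 1 + L))
      (fun l hl => by
        rw [← Function.iterate_add_apply]; exact h2 _ (by omega) (by omega))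
    rw [← h5] at h6
    have hLj := one_le_lm hr.hs hr.hc j x
    have h7 : 1 ≤ Lm S A w j x ^ (2 * g * h) := Real.one_le_rpow hLj hgh
    have h8 : Lm S A w j x ^ (2 * g * h) ≤ Lm S A w m x ^ (2 * g) := by
      refine (Real.rpow_le_rpow (by linarith)
        (lm_mono hr.hs.a0 (by linarith) (by omega : j ≤ m)) hgh).trans ?_
      refine Real.rpow_le_rpow_of_exponent_le hLm ?_
      nlinarith [hr.hc.hh1]
    have h9 : Uu S A w (j + 1 + L) x ≤ M3 * Uu S A w (j + 1 + L) x := by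
      nlinarith [run_uu hr (j + 1 + L)]
    have h10 : Uu S A w (j + 1 + L) x + 2 * A / θ ^ 2 ≤
        BB A M c θ M3 * Lm S A w j x ^ (2 * g * h) := by nlinarith
    calc Uu S A w m x ≤ M4 * (Uu S A w (j + 1 + L) x + 2 * A / θ ^ 2) := h6
      _ ≤ M4 * (BB A M c θ M3 * Lm S A w j x ^ (2 * g * h)) :=
          mul_le_mul_of_nonneg_left h10 (by linarith)
      _ = M4 * BB A M c θ M3 * Lm S A w j x ^ (2 * g * h) := by ring
      _ ≤ BC A M c θ M3 M4 * Lm S A w m x ^ (2 * g) :=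
          mul_le_mul hBC h8 (by positivity) (by
            have : 0 ≤ M4 * BB A M c θ M3 := by positivity
            linarith)

end Pool.Agent.H84.SF
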