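import Mathlib
import Pool.Agent.H84.SF.Def
import Pool.Agent.H84.SF.Alg
import Pool.Agent.H84.SF.Bex
import Pool.Agent.H84.SF.Fdb

/-!
# Smoothed Fatou, SF-4d: the basic assumption at all scales below `Λ` gives `Gd` at the scale `Λ`
-/

set_option autoImplicit false

open Finset

namespace Pool.Agent.H84.SF

variable {X : Type}

/-- all assumptions of the deterministic lemma -/
structure Par (S : Dat X) (M θ A w c g M3 M4 N : ℝ) : Prop where
  hs : Stat S M θ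
  hc : Cst M θ A w c (3 * g)
  hg : Grow S θ M3 M4
  small : M3 * (4 * A * M / c) * θ ^ (1 - 2 * (3 * g)) ≤ 1 / 4
  g0 : 0 < g
  cθ : θ ≤ c
  es : ES S A w c N
  N1 : BC A M c θ M3 M4 ≤ N ^ g
  N2 : 2 * M < N ^ (1 - 2 * g)
  N3 : 2 * M / c < N ^ (g / 2)
  N4 : 1 / θ < N ^ g
  N5 : BB A M c θ M3 ≤ N ^ (g ^ 2)

variable {S : Dat X} {M θ A w c g M3 M4 N Λ : ℝ}

theorem par_N (hp : Par S M θ A w c g M3 M4 N) : 1 ≤ N := hp.hc.hw.trans hp.es.hN

theorem lm_monoP (hp : Par S M θ A w c g M3 M4 N) (v : X) {m n : ℕ} (h : m ≤ n) :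
    Lm S A w m v ≤ Lm S A w n v := lm_mono hp.hs.a0 (cst_A hp.hs hp.hc).le h

/-- the last time `m0` with `Lm ≤ N` -/
theorem m0_ex (hp : Par S M θ A w c g M3 M4 N) {v : X} {n : ℕ} (hN : N < Lm S A w n v) :
    ∃ m0 < n, Lm S A w m0 v ≤ N ∧ N < Lm S A w (m0 + 1) v := by
  induction n with
  | zero =>
    rw [lm_zero] at hN
    exact absurd hp.es.hN (not_le.2 hN)
  | succ k ih =>
    by_cases h : N < Lm S A w k v
    · obtain ⟨m0, h1, h2⟩ := ih h
      exact ⟨m0, by omega, h2⟩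
    · exact ⟨k, by omega, not_lt.1 h, hN⟩

theorem run_of (hp : Par S M θ A w c g M3 M4 N) (hG : Gd S A w c (3 * g) Λ) {v : X} (hv : v ∈ S.V)
    {n : ℕ} (hn : Lm S A w n v ≤ 2 * Λ) (hN : N < Lm S A w n v)
    (hba : ∀ k < n, N < Lm S A w k v → Lm S A w k v ^ (-g) ≤ S.a (S.f^[k] v)) :
    ∃ m0 < n, Lm S A w m0 v ≤ N ∧ N < Lm S A w (m0 + 1) v ∧
      Run S M θ A w c (3 * g) g M3 M4 v m0 n := by
  obtain ⟨m0, hm0, h1, h2⟩ := m0_ex hp hN
  have hN0 := par_N hp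
  have hc0 := hp.hc.hc
  have hg0 := hp.g0
  have hM := hp.hs.hM
  have hg1 : g ≤ 1 / 12 := by linarith [hp.hc.hh1]
  have hba' : ∀ k, m0 ≤ k → k < n → S.a (S.f^[k] v) < θ →
      N < Lm S A w k v ∧ Lm S A w k v ^ (-g) ≤ S.a (S.f^[k] v) := by
    intro k hk hkn hak
    rcases Nat.eq_or_lt_of_le hk with h3 | h3
    · subst h3
      have := (hp.es.es v hv m0 h1).1
      linarith [hp.cθ]
    · have h4 : N < Lm S A w k v := lt_of_lt_of_le h2 (lm_monoP hp v h3)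
      exact ⟨h4, hba k hkn h4⟩
  refine ⟨m0, hm0, h1, h2, ?_⟩
  refine ⟨hp.hs, hp.hc, hp.hg, hp.small, hg0.le, ?_, ?_, ?_, ?_⟩
  · intro k hk
    have h3 := (hp.es.es v hv k ((lm_monoP hp v hk.le).trans h1)).1
    linarith
  · have h3 := (hp.es.es v hv m0 h1).2
    have h4 := one_le_lm hp.hs hp.hc m0 v
    have h5 : 0 < c * Lm S A w m0 v := mul_pos hc0 (by linarith)
    unfold Uu
    rw [div_le_div_iff₀ (by linarith) hc0]
    linarith
  · intro k hk hkn hak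
    exact (hba' k hk hkn hak).2
  · intro k hk hkn hak
    obtain ⟨h3, h4⟩ := hba' k hk hkn hak
    refine ⟨Λ, hG, ?_⟩
    have h5 : 0 < Lm S A w k v := by linarith
    have h6 : 0 < S.a (S.f^[k] v) := lt_of_lt_of_le (Real.rpow_pos_of_pos h5 _) h4
    have h7 : Lm S A w k v ≤ 2 * Λ := (lm_monoP hp v hkn.le).trans hn
    have h8 : 0 < 2 * Λ := by linarith
    -- M / a² ≤ M (2Λ)^(2g)
    have h9 : (2 * Λ) ^ (-g) ≤ S.a (S.f^[k] v) :=
      (Real.rpow_le_rpow_of_nonpos h5 h7 (by linarith)).trans h4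
    have h10 : (2 * Λ) ^ (-(2 * g)) ≤ S.a (S.f^[k] v) ^ 2 := by
      have h11 : (2 * Λ) ^ (-(2 * g)) = ((2 * Λ) ^ (-g)) ^ 2 := by
        rw [← Real.rpow_natCast, ← Real.rpow_mul h8.le]
        congr 1
        push_cast
        ring
      rw [h11]
      exact pow_le_pow_left₀ (Real.rpow_nonneg h8.le _) h9 2
    rw [div_lt_iff₀ (by positivity)]
    have h12 : 2 * M < (2 * Λ) ^ (1 - 2 * g) :=
      lt_of_lt_of_le hp.N2 (Real.rpow_le_rpow (by linarith) (by linarith) (by linarith))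
    have h13 : (2 * Λ) ^ (1 - 2 * g) = 2 * Λ * (2 * Λ) ^ (-(2 * g)) := by
      rw [sub_eq_add_neg, Real.rpow_add h8, Real.rpow_one]
    have h14 : 0 < Λ := by linarith
    nlinarith

/-- at scales `> N` the derivative is large -/
theorem ph_big (hp : Par S M θ A w c g M3 M4 N) (hG : Gd S A w c (3 * g) Λ) {v : X} (hv : v ∈ S.V)
    {n : ℕ} (hn : Lm S A w n v ≤ 2 * Λ) (hN : N < Lm S A w n v)
    (hba : ∀ k < n, N < Lm S A w k v → Lm S A w k v ^ (-g) ≤ S.a (S.f^[k] v)) :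
    Lm S A w n v ^ (1 - 3 * g) ≤ Ph S n v := by
  obtain ⟨m0, hm0, h1, h2, hr⟩ := run_of hp hG hv hn hN hba
  have h3 := all_bd hr hm0.le le_rfl
  have hN0 := par_N hp
  have h4 : 0 < Lm S A w n v := by linarith
  have h5 : 0 < Ph S n v := run_ph hr le_rfl
  have h6 : BC A M c θ M3 M4 ≤ Lm S A w n v ^ g :=
    hp.N1.trans (Real.rpow_le_rpow (by linarith) hN.le hp.g0.le)
  have h7 : Uu S A w n v ≤ Lm S A w n v ^ (3 * g) := by
    refine h3.trans ?_
    have h8 : Lm S A w n v ^ (3 * g) = Lm S A w n v ^ g * Lm S A w n v ^ (2 * g) := by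
      rw [← Real.rpow_add h4]
      congr 1
      ring
    rw [h8]
    exact mul_le_mul_of_nonneg_right h6 (Real.rpow_nonneg h4.le _)
  unfold Uu at h7
  rw [div_le_iff₀ h5] at h7
  rw [sub_eq_add_neg, Real.rpow_add h4, Real.rpow_one, Real.rpow_neg h4.le]
  rw [mul_inv_le_iff₀ (Real.rpow_pos_of_pos h4 _)]
  linarith

theorem gd_le (hp : Par S M θ A w c g M3 M4 N) {v : X} (hv : v ∈ S.V) {l : ℕ}
    (hl : Lm S A w l v ≤ N) :
    c * Lm S A w l v ^ (-(3 * g)) ≤ S.a (S.f^[l] v) ∧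
      c * Lm S A w l v ^ (1 - 3 * g) ≤ Ph S l v := by
  obtain ⟨h1, h2⟩ := hp.es.es v hv l hl
  have h3 := one_le_lm hp.hs hp.hc l v
  have hc0 := hp.hc.hc
  have hg0 := hp.g0
  have h4 : Lm S A w l v ^ (-(3 * g)) ≤ 1 := Real.rpow_le_one_of_one_le_of_nonpos h3 (by linarith)
  have h5 : Lm S A w l v ^ (1 - 3 * g) ≤ Lm S A w l v := by
    have := Real.rpow_le_rpow_of_exponent_le h3 (show 1 - 3 * g ≤ 1 by linarith)
    rwa [Real.rpow_one] at this
  constructor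
  · nlinarith
  · nlinarith

theorem gd_step (hp : Par S M θ A w c g M3 M4 N) {Λ' : ℝ} (hG : Gd S A w c (3 * g) Λ)
    (hba : BA S A w g N Λ') (h : Λ' ≤ 2 * Λ) : Gd S A w c (3 * g) Λ' := by
  intro v hv l hl
  by_cases hN : N < Lm S A w l v
  · have h1 := ph_big hp hG hv (hl.le.trans h) hN fun k hk hk1 =>
      hba v hv k hk1 (lt_of_le_of_lt (lm_monoP hp v hk.le) hl)
    have h2 := hba v hv l hN hl
    have hN0 := par_N hp
    have h3 : 1 ≤ Lm S A w l v := by linarith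
    have hc0 := hp.hc.hc
    have hc1 := hp.hc.hc1
    have hg0 := hp.g0
    have h4 : Lm S A w l v ^ (-(3 * g)) ≤ Lm S A w l v ^ (-g) :=
      Real.rpow_le_rpow_of_exponent_le h3 (by linarith)
    have h5 : 0 ≤ Lm S A w l v ^ (-(3 * g)) := Real.rpow_nonneg (by linarith) _
    have h6 : 0 ≤ Lm S A w l v ^ (1 - 3 * g) := Real.rpow_nonneg (by linarith) _
    constructor
    · nlinarith
    · nlinarith
  · exact gd_le hp hv (not_lt.1 hN)

theorem ba_mono {Λ' : ℝ} (hba : BA S A w g N Λ) (h : Λ' ≤ Λ) : BA S A w g N Λ' :=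
  fun v hv l h1 h2 => hba v hv l h1 (lt_of_lt_of_le h2 h)

theorem gd_mono {h Λ' : ℝ} (hG : Gd S A w c h Λ) (h1 : Λ' ≤ Λ) : Gd S A w c h Λ' :=
  fun v hv l h2 => hG v hv l (lt_of_lt_of_le h2 h1)

theorem gd_pow (hp : Par S M θ A w c g M3 M4 N) (hba : BA S A w g N Λ) (n : ℕ) :
    Gd S A w c (3 * g) (min Λ (2 ^ n * N)) := by
  by_cases hΛ : 0 ≤ Λ
  · induction n with
    | zero =>
      intro v hv l hl
      refine gd_le hp hv ?_
      have := lt_of_lt_of_le hl (min_le_right _ _)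
      simp only [pow_zero, one_mul] at this
      exact this.le
    | succ k ih =>
      refine gd_mono (Λ := min Λ (2 * min Λ (2 ^ k * N))) ?_ ?_
      · exact gd_step hp ih (ba_mono hba (min_le_left _ _)) (min_le_right _ _)
      · refine le_min (min_le_left _ _) ?_
        rw [mul_min_of_nonneg _ _ (by norm_num : (0 : ℝ) ≤ 2)]
        refine min_le_min (by linarith) (le_of_eq ?_)
        rw [pow_succ]
        ring
  · intro v hv l hl
    have h1 := lt_of_lt_of_le hl (min_le_left _ _)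
    have h2 := one_le_lm hp.hs hp.hc l v
    linarith [not_le.1 hΛ]

/-- **Induction on the scale.** -/
theorem gd_of_ba (hp : Par S M θ A w c g M3 M4 N) (hba : BA S A w g N Λ) :
    Gd S A w c (3 * g) Λ := by
  intro v hv l hl
  have hN0 := par_N hp
  obtain ⟨n, hn⟩ := pow_unbounded_of_one_lt (Lm S A w l v) (one_lt_two : (1 : ℝ) < 2)
  refine gd_pow hp hba n v hv l (lt_min hl (lt_of_lt_of_le hn ?_))
  have : (0 : ℝ) ≤ 2 ^ n := by positivity
  nlinarith

end Pool.Agent.H84.SF
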