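import Mathlib
import Pool.Agent.H84.SF.Def
import Pool.Agent.H84.SF.Alg
import Pool.Agent.H84.SF.Bex
import Pool.Agent.H84.SF.Blk
import Pool.Agent.H84.SF.Fdt
import Pool.Agent.H84.SF.Fdb
import Pool.Agent.H84.SF.Ind

/-!
# Smoothed Fatou, SF-4d: a failure of the basic assumption happens at a free deep time
-/

set_option autoImplicit false

open Finset

namespace Pool.Agent.H84.SF

variable {X : Type} {S : Dat X} {M θ A w c g M3 M4 N Λ : ℝ}

theorem bd_ex {x : X} {m0 n : ℕ} {h : ℝ} (hr : Run S M θ A w c h g M3 M4 x m0 n) {k : ℕ} (h1 : m0 ≤ k)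
    (h2 : k < n) (h3 : S.a (S.f^[k] x) < θ) : ∃ L, BdR S M A w c h x k L := by
  obtain ⟨Λ, hG, hΛ⟩ := hr.gd k h1 h2 h3
  obtain ⟨v, L, hb⟩ := bnd_ex hr.hs hr.hc hG (run_pos hr h2) h3 hΛ
  exact ⟨L, v, hb⟩

/-- a time with `a < Lm ^ (-g)` is a free deep time -/
theorem fail_fd (hp : Par S M θ A w c g M3 M4 N) {v : X} {m0 n : ℕ} (hm0 : m0 < n)
    (hr : Run S M θ A w c (3 * g) g M3 M4 v m0 n) (hN : N < Lm S A w n v)
    (hf : S.a (S.f^[n] v) < Lm S A w n v ^ (-g)) : FDx S M θ A w c (3 * g) v m0 n := by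
  have hN0 := par_N hp
  have hg0 := hp.g0
  have hg1 : g ≤ 1 / 12 := by linarith [hp.hc.hh1]
  have hc0 := hp.hc.hc
  have hM := hp.hs.hM
  have hL : 0 < Lm S A w n v := by linarith
  have hLg : Lm S A w n v ^ (-g) < θ := by
    have h1 : N ^ g ≤ Lm S A w n v ^ g := Real.rpow_le_rpow (by linarith) hN.le hg0.le
    have h2 := lt_of_lt_of_le hp.N4 h1
    rw [Real.rpow_neg hL.le]
    rw [div_lt_iff₀ hp.hs.hθ] at h2
    rw [inv_lt_iff_one_lt_mul₀ (Real.rpow_pos_of_pos hL _), mul_comm]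
    exact h2
  have hnθ : S.a (S.f^[n] v) < θ := hf.trans hLg
  rcases fd_tri (θ := θ) (al := fun k => S.a (S.f^[k] v)) (Bd := BdR S M A w c (3 * g) v)
    (m0 := m0) (n := n) (fun k h1 h2 h3 => bd_ex hr h1 h2 h3) hm0.le le_rfl with h | h | h
  · exact FD.first n hm0.le (fun l h1 h2 => h l h1 h2) hnθ
  · obtain ⟨j, L, hj, hjL, hjn, hnj⟩ := h
    rcases Nat.eq_or_lt_of_le hnj with h1 | h1
    · exact FD.next j L n hj hjL h1.symm.le (fun l h2 h3 => by omega) hnθ
    · exfalso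
      obtain ⟨l, hl⟩ : ∃ l, n = j + (l + 1) := ⟨n - j - 1, by omega⟩
      have hlL : l < L := by omega
      obtain ⟨u, hb⟩ := hjL
      have h2 := bnd_a hr.hs hr.hc hb hlL
      rw [← Function.iterate_add_apply, show l + 1 + j = n by omega] at h2
      have h3 : S.a (S.f^[j] v) < θ := fd_lt hj
      have h4 := hr.ba j (fd_ge hj) hjn h3
      have h5 : 0 < Lm S A w j v := by linarith [one_le_lm hr.hs hr.hc j v]
      have h6 : Lm S A w n v ^ (-g) ≤ S.a (S.f^[j] v) :=
        (Real.rpow_le_rpow_of_nonpos h5 (lm_monoP hp v hjn.le) (by linarith)).trans h4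
      -- `a_j ^ 2 / M ≥ Λ ^ (-2 g) / M`
      have h7 : Lm S A w n v ^ (-(2 * g)) / M ≤ S.a (S.f^[j] v) ^ 2 / M := by
        refine div_le_div_of_nonneg_right ?_ (by linarith)
        have h8 : Lm S A w n v ^ (-(2 * g)) = (Lm S A w n v ^ (-g)) ^ 2 := by
          rw [← Real.rpow_natCast, ← Real.rpow_mul hL.le]
          congr 1
          push_cast
          ring
        rw [h8]
        exact pow_le_pow_left₀ (Real.rpow_nonneg hL.le _) h6 2
      have h8 : Lm S A w n v ^ (-(6 * g ^ 2)) / M ≤ (S.a (S.f^[j] v) ^ 2 / M) ^ (3 * g) := by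
        refine le_trans ?_ (Real.rpow_le_rpow (by positivity) h7 (by linarith))
        rw [Real.div_rpow (Real.rpow_nonneg hL.le _) (by linarith), ← Real.rpow_mul hL.le,
          show -(2 * g) * (3 * g) = -(6 * g ^ 2) by ring]
        refine div_le_div_of_nonneg_left (Real.rpow_nonneg hL.le _)
          (Real.rpow_pos_of_pos (by linarith) _) ?_
        have := Real.rpow_le_rpow_of_exponent_le hM (show 3 * g ≤ 1 by linarith)
        rwa [Real.rpow_one] at this
      have h9 : c / 2 * (Lm S A w n v ^ (-(6 * g ^ 2)) / M) ≤ Lm S A w n v ^ (-g) := by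
        have h10 : c / 2 * (Lm S A w n v ^ (-(6 * g ^ 2)) / M) ≤
            c / 2 * (S.a (S.f^[j] v) ^ 2 / M) ^ (3 * g) :=
          mul_le_mul_of_nonneg_left h8 (by linarith)
        linarith
      -- contradiction with N3
      have h10 : N ^ (g / 2) ≤ Lm S A w n v ^ (g / 2) :=
        Real.rpow_le_rpow (by linarith) hN.le (by linarith)
      have h11 : 2 * M / c < Lm S A w n v ^ (g / 2) := lt_of_lt_of_le hp.N3 h10
      have h12 : Lm S A w n v ^ (g / 2) * Lm S A w n v ^ (-g) ≤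
          Lm S A w n v ^ (-(6 * g ^ 2)) := by
        rw [← Real.rpow_add hL]
        refine Real.rpow_le_rpow_of_exponent_le (by linarith) ?_
        nlinarith
      rw [div_lt_iff₀ hc0] at h11
      have h13 : 0 < Lm S A w n v ^ (-g) := Real.rpow_pos_of_pos hL _
      have h14 : c / 2 * (Lm S A w n v ^ (-(6 * g ^ 2)) / M) =
          c * Lm S A w n v ^ (-(6 * g ^ 2)) / (2 * M) := by
        field_simp
      rw [h14, div_le_iff₀ (by linarith)] at h9
      have h15 : c * (Lm S A w n v ^ (g / 2) * Lm S A w n v ^ (-g)) ≤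
          c * Lm S A w n v ^ (-(6 * g ^ 2)) := mul_le_mul_of_nonneg_left h12 hc0.le
      nlinarith
  · obtain ⟨j, L, hj, hjL, hjn, hl⟩ := h
    exact FD.next j L n hj hjL hjn.le hl hnθ

/-- the size of the disc at the first failure -/
theorem fail_bd (hp : Par S M θ A w c g M3 M4 N) (hG : Gd S A w c (3 * g) Λ) {v : X} (hv : v ∈ S.V)
    {n : ℕ} (hn : Lm S A w n v ≤ 2 * Λ) (hN : N < Lm S A w n v)
    (hba : ∀ k < n, N < Lm S A w k v → Lm S A w k v ^ (-g) ≤ S.a (S.f^[k] v))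
    (hf : S.a (S.f^[n] v) < Lm S A w n v ^ (-g)) :
    Uu S A w n v ≤ Lm S A w n v ^ (7 * g ^ 2) := by
  obtain ⟨m0, hm0, h1, h2, hr⟩ := run_of hp hG hv hn hN hba
  have h3 := fd_bd hr (fail_fd hp hm0 hr hN hf) le_rfl
  have hN0 := par_N hp
  have hL : 0 < Lm S A w n v := by linarith
  refine h3.trans ?_
  have h4 : Lm S A w n v ^ (7 * g ^ 2) =
      Lm S A w n v ^ (g ^ 2) * Lm S A w n v ^ (2 * g * (3 * g)) := by
    rw [← Real.rpow_add hL]
    congr 1
    ring
  rw [h4]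
  refine mul_le_mul_of_nonneg_right ?_ (Real.rpow_nonneg hL.le _)
  exact hp.N5.trans (Real.rpow_le_rpow (by linarith) hN.le (by positivity))

end Pool.Agent.H84.SF
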