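import Mathlib
import Pool.Agent.H84.SF.Def
import Pool.Agent.H84.SF.Alg

/-!
# Smoothed Fatou, SF-4d: blocks of bounded length give growth outside the deep set
-/

set_option autoImplicit false

open Finset

namespace Pool.Agent.H84.SF

variable {X : Type}

/-- every `x` with `θ ≤ a x` has a block: a time `m ∈ [1, m0]` before which the orbit stays in `θ ≤ a`, with large derivative at the
end or with derivative `≥ 1 / E` and deep end point -/
structure H4 (S : Dat X) (θ E K : ℝ) (m0 : ℕ) : Prop where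
  hE4 : 1 ≤ E
  hK4 : 2 ^ m0 ≤ K
  h4 : ∀ x, θ ≤ S.a x → ∃ m, 1 ≤ m ∧ m ≤ m0 ∧ (∀ i < m, θ ≤ S.a (S.f^[i] x)) ∧
    (K ≤ Ph S m x ∨ (1 / E ≤ Ph S m x ∧ S.a (S.f^[m] x) < θ))

variable {S : Dat X} {M θ E K : ℝ} {m0 : ℕ}

theorem ph_ge_pow (hθ : 0 < θ) {x : X} {m : ℕ} (h : ∀ l < m, θ ≤ S.a (S.f^[l] x)) :
    θ ^ m ≤ Ph S m x := by
  unfold Ph
  rw [← Finset.card_range m, ← Finset.prod_const, Finset.card_range]
  exact Finset.prod_le_prod (fun _ _ => hθ.le) fun i hi => h i (Finset.mem_range.1 hi)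

theorem gr_of (hs : Stat S M θ) (h : H4 S θ E K m0) :
    Grow S θ (E * 2 ^ m0) (E * 2 ^ m0 / θ ^ m0) := by
  have hθ := hs.hθ
  have hθ1 := hs.hθ1
  have hE := h.hE4
  have h2 : (1 : ℝ) ≤ 2 ^ m0 := one_le_pow₀ (by norm_num)
  have hM3 : 1 ≤ E * 2 ^ m0 := by nlinarith
  have hθm : 0 < θ ^ m0 := pow_pos hθ _
  have hθm1 : θ ^ m0 ≤ 1 := pow_le_one₀ hθ.le hθ1
  have hM34 : E * 2 ^ m0 ≤ E * 2 ^ m0 / θ ^ m0 := by
    rw [le_div_iff₀ hθm]
    nlinarith
  -- one block
  have key : ∀ (C : ℝ) (x : X) (m : ℕ), 1 ≤ C → E * 2 ^ m0 ≤ C →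
      (∀ l < m, θ ≤ S.a (S.f^[l] x)) →
      (∀ y n, n ≤ m0 → (∀ l < n, θ ≤ S.a (S.f^[l] y)) → S.f^[n] y = S.f^[m] x →
        (∃ m1, n < m1 ∧ (∀ i < m1, θ ≤ S.a (S.f^[i] y))) → 2 ^ n / C ≤ Ph S n y) →
      2 ^ m / C ≤ Ph S m x := by
    intro C x m hC1 hCE
    have hC0 : 0 < C := by linarith
    induction m using Nat.strong_induction_on generalizing x with
    | _ m ih =>
      intro h1 hpar
      rcases Nat.eq_zero_or_pos m with hm | hm
      · subst hm
        rw [pow_zero, ph_zero, div_le_one hC0]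
        exact hC1
      · obtain ⟨m1, h3, h4, h5, h6⟩ := h.h4 x (h1 0 hm)
        rcases Nat.lt_or_ge m m1 with h7 | h7
        · exact hpar x m (by omega) h1 rfl ⟨m1, h7, h5⟩
        · rcases h6 with h6 | ⟨h6, h8⟩
          · have h9 : 2 ^ (m - m1) / C ≤ Ph S (m - m1) (S.f^[m1] x) := by
              refine ih (m - m1) (by omega) (S.f^[m1] x) ?_ ?_
              · intro l hl
                rw [← Function.iterate_add_apply]
                exact h1 _ (by omega)
              · intro y n h10 h11 h12 h13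
                refine hpar y n h10 h11 ?_ h13
                rw [h12, ← Function.iterate_add_apply]
                congr 2
                omega
            have h10 : Ph S m x = Ph S m1 x * Ph S (m - m1) (S.f^[m1] x) := by
              rw [← ph_add]
              congr 1
              omega
            have h11 : (2 : ℝ) ^ m1 ≤ Ph S m1 x :=
              ((pow_le_pow_right₀ (by norm_num) h4).trans h.hK4).trans h6
            have h12 : (2 : ℝ) ^ m = 2 ^ m1 * 2 ^ (m - m1) := by
              rw [← pow_add]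
              congr 1
              omega
            rw [h10, h12, mul_div_assoc]
            exact mul_le_mul h11 h9 (by positivity) (le_trans (by positivity) h11)
          · have h9 : m = m1 := by
              by_contra h10
              have := h1 m1 (by omega)
              linarith
            subst h9
            refine le_trans ?_ h6
            rw [div_le_div_iff₀ hC0 (by linarith)]
            have h10 : (2 : ℝ) ^ m ≤ 2 ^ m0 := pow_le_pow_right₀ (by norm_num) h4
            nlinarith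
  refine ⟨hM3, hM3.trans hM34, ?_, ?_⟩
  · intro x m hx
    refine key _ x m (hM3.trans hM34) hM34 hx ?_
    intro y n hn hy _ _
    refine le_trans ?_ (ph_ge_pow hθ hy)
    rw [div_le_iff₀ (by positivity)]
    have h3 : (2 : ℝ) ^ n ≤ 2 ^ m0 := pow_le_pow_right₀ (by norm_num) hn
    have h4 : θ ^ m0 ≤ θ ^ n := pow_le_pow_of_le_one hθ.le hθ1 hn
    have h5 : (2 : ℝ) ^ m0 ≤ θ ^ n * (E * 2 ^ m0 / θ ^ m0) := by
      rw [← mul_div_assoc, le_div_iff₀ hθm]
      have h6 : (2 : ℝ) ^ m0 * θ ^ m0 ≤ 2 ^ m0 * θ ^ n := mul_le_mul_of_nonneg_left h4 (by positivity)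
      have h7 : (2 : ℝ) ^ m0 * θ ^ n ≤ E * (2 ^ m0 * θ ^ n) := by
        have : 0 ≤ (2 : ℝ) ^ m0 * θ ^ n := by positivity
        nlinarith
      linarith
    linarith
  · intro x m hx hxm
    refine key _ x m hM3 le_rfl hx ?_
    intro y n hn hy hyx hm1
    obtain ⟨m1, h3, h4⟩ := hm1
    have := h4 n h3
    rw [hyx] at this
    linarith

end Pool.Agent.H84.SF
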