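import Mathlib
import Pool.Agent.H84.SF.Def
import Pool.Agent.H84.SF.Alg
import Pool.Agent.H84.SF.Bex
import Pool.Agent.H84.SF.Ind
import Pool.Agent.H84.SF.Fail
import Pool.Agent.H84.SF.Sum

/-!
# Smoothed Fatou, SF-4d: the first failure of the basic assumption
-/

set_option autoImplicit false

open Finset

namespace Pool.Agent.H84.SF

variable {X : Type} {S : Dat X} {M θ A w c g M3 M4 N Λ : ℝ}

theorem orb_tail (hp : Par S M θ A w c g M3 M4 N) {v : X} {m k : ℕ} (hmk : m ≤ k)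
    (hph : ∀ l, m ≤ l → l ≤ k → Lm S A w l v ^ (1 - 3 * g) ≤ Ph S l v)
    (hpos : ∀ l, m ≤ l → l < k → 0 < S.a (S.f^[l] v)) :
    ∑ l ∈ Ico m (k + 1), 1 / Ph S l v ≤ 4 * (√(Lm S A w m v))⁻¹ := by
  refine tail_sum (L := fun l => Lm S A w l v) (P := fun l => Ph S l v) hmk ?_ ?_
  · intro l h1 h2
    have h3 := one_le_lm hp.hs hp.hc l v
    exact ⟨h3, (sqrt3_le h3 hp.hc.hh1).trans (hph l h1 h2)⟩
  · intro l h1 h2
    have h3 := hpos l h1 h2
    have hA := cst_A hp.hs hp.hc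
    have hM := hp.hs.hM
    have h4 : M ≤ A := by
      have := hp.hc.hA
      nlinarith
    have h5 := ph_nonneg hp.hs.a0 l (x := v)
    have h6 := hp.hs.aM (S.f^[l] v)
    show Lm S A w l v + Ph S l v ≤ Lm S A w (l + 1) v
    rw [lm_succ, ← mul_div_assoc, add_le_add_iff_left, le_div_iff₀ h3]
    nlinarith

/-- a failure of the basic assumption -/
def Fl (S : Dat X) (A w g N : ℝ) (v : X) (k : ℕ) : Prop :=
  N < Lm S A w k v ∧ S.a (S.f^[k] v) < Lm S A w k v ^ (-g)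

theorem ba_of_not_fl {Λ : ℝ} (h : ∀ v ∈ S.V, ∀ k, Lm S A w k v < Λ → ¬ Fl S A w g N v k) :
    BA S A w g N Λ := by
  intro v hv l h1 h2
  by_contra h3
  exact h v hv l h2 ⟨h1, not_le.1 h3⟩

/-- the first failure -/
theorem first_fl (hp : Par S M θ A w c g M3 M4 N) (hV : S.V.Finite)
    (h : ∃ v ∈ S.V, ∃ k, Fl S A w g N v k) :
    ∃ v ∈ S.V, ∃ k, Fl S A w g N v k ∧ (∀ l < k, ¬ Fl S A w g N v l) ∧
      BA S A w g N (Lm S A w k v) := by
  classical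
  have hW : {v | v ∈ S.V ∧ ∃ k, Fl S A w g N v k}.Finite := hV.subset fun v hv => hv.1
  let φ : X → ℝ := fun v => if h : ∃ k, Fl S A w g N v k then Lm S A w (Nat.find h) v else 0
  obtain ⟨v0, hv0, h0⟩ := h
  obtain ⟨v, ⟨hv, hk⟩, hmin⟩ := Set.exists_min_image _ φ hW ⟨v0, hv0, h0⟩
  refine ⟨v, hv, Nat.find hk, Nat.find_spec hk, fun l hl => Nat.find_min hk hl, ?_⟩
  refine ba_of_not_fl fun v' hv' l hl hfl => ?_
  have hk' : ∃ k, Fl S A w g N v' k := ⟨l, hfl⟩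
  have h1 := hmin v' ⟨hv', hk'⟩
  simp only [φ, dif_pos hk, dif_pos hk'] at h1
  have h2 := lm_monoP hp v' (Nat.find_min' hk' hfl)
  linarith

/-- **(O1)** the basic assumption holds, or it fails at a time with a large disc -/
theorem o1 (hp : Par S M θ A w c g M3 M4 N) (hV : S.V.Finite)
    (h : ∃ v ∈ S.V, ∃ k, Fl S A w g N v k) :
    ∃ v ∈ S.V, ∃ k, N < Lm S A w k v ∧ S.a (S.f^[k] v) < Lm S A w k v ^ (-g) ∧
      Uu S A w k v ≤ Lm S A w k v ^ (7 * g ^ 2) ∧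
      (∀ l ≤ k, N < Lm S A w l v → Lm S A w l v ^ (1 - 3 * g) ≤ Ph S l v) ∧
      (∀ l < k, 0 < S.a (S.f^[l] v)) ∧
      (∀ m ≤ k, N < Lm S A w m v →
        ∑ l ∈ Ico m (k + 1), 1 / Ph S l v ≤ 4 * (√(Lm S A w m v))⁻¹) := by
  obtain ⟨v, hv, k, hfl, hlt, hba⟩ := first_fl hp hV h
  have hG := gd_of_ba hp hba
  have hN0 := par_N hp
  have hba' : ∀ l < k, N < Lm S A w l v → Lm S A w l v ^ (-g) ≤ S.a (S.f^[l] v) := by
    intro l hl hN
    by_contra h3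
    exact hlt l hl ⟨hN, not_le.1 h3⟩
  have hk0 : 0 < Lm S A w k v := by linarith [hfl.1]
  have hph : ∀ l ≤ k, N < Lm S A w l v → Lm S A w l v ^ (1 - 3 * g) ≤ Ph S l v := by
    intro l hl hN
    refine ph_big hp hG hv ?_ hN fun j hj => hba' j (by omega)
    linarith [lm_monoP hp v hl]
  have hpos : ∀ l < k, 0 < S.a (S.f^[l] v) := by
    intro l hl
    by_cases hN : N < Lm S A w l v
    · exact lt_of_lt_of_le (Real.rpow_pos_of_pos (by linarith) _) (hba' l hl hN)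
    · exact lt_of_lt_of_le hp.hc.hc (hp.es.es v hv l (not_lt.1 hN)).1
  refine ⟨v, hv, k, hfl.1, hfl.2, ?_, hph, hpos, ?_⟩
  · exact fail_bd hp hG hv (by linarith) hfl.1 hba' hfl.2
  · intro m hm hN
    refine orb_tail hp hm (fun l h1 h2 => hph l h2 ?_) fun l h1 h2 => hpos l h2
    exact lt_of_lt_of_le hN (lm_monoP hp v h1)

/-- **(O2)** if the basic assumption never fails -/
theorem o2 (hp : Par S M θ A w c g M3 M4 N)
    (h : ∀ v ∈ S.V, ∀ k, ¬ Fl S A w g N v k) :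
    (∀ Λ, Gd S A w c (3 * g) Λ) ∧
    (∀ v ∈ S.V, ∀ l, 0 < S.a (S.f^[l] v)) ∧
    (∀ v ∈ S.V, ∀ l, N < Lm S A w l v → Lm S A w l v ^ (1 - 3 * g) ≤ Ph S l v) ∧
    (∀ v ∈ S.V, ∀ m k, m ≤ k → N < Lm S A w m v →
        ∑ l ∈ Ico m (k + 1), 1 / Ph S l v ≤ 4 * (√(Lm S A w m v))⁻¹) := by
  have hba : ∀ Λ, BA S A w g N Λ := fun Λ => ba_of_not_fl fun v hv k _ => h v hv k
  have hG : ∀ Λ, Gd S A w c (3 * g) Λ := fun Λ => gd_of_ba hp (hba Λ)
  have hN0 := par_N hp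
  have hba' : ∀ v ∈ S.V, ∀ l, N < Lm S A w l v → Lm S A w l v ^ (-g) ≤ S.a (S.f^[l] v) := by
    intro v hv l hN
    by_contra h3
    exact h v hv l ⟨hN, not_le.1 h3⟩
  have hpos : ∀ v ∈ S.V, ∀ l, 0 < S.a (S.f^[l] v) := by
    intro v hv l
    by_cases hN : N < Lm S A w l v
    · exact lt_of_lt_of_le (Real.rpow_pos_of_pos (by linarith) _) (hba' v hv l hN)
    · exact lt_of_lt_of_le hp.hc.hc (hp.es.es v hv l (not_lt.1 hN)).1
  have hph : ∀ v ∈ S.V, ∀ l, N < Lm S A w l v → Lm S A w l v ^ (1 - 3 * g) ≤ Ph S l v := by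
    intro v hv l hN
    exact ph_big hp (hG (Lm S A w l v)) hv (by linarith) hN fun j _ => hba' v hv j
  refine ⟨hG, hpos, hph, ?_⟩
  intro v hv m k hmk hN
  refine orb_tail hp hmk (fun l h1 h2 => hph v hv l ?_) fun l h1 h2 => hpos v hv l
  exact lt_of_lt_of_le hN (lm_monoP hp v h1)

end Pool.Agent.H84.SF
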