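import Mathlib
import Pool.Agent.H84.SF.Def
import Pool.Agent.H84.SF.Alg
import Pool.Agent.H84.SF.Bex
import Pool.Agent.H84.SF.Blk
import Pool.Agent.H84.SF.Ind
import Pool.Agent.H84.SF.Fail
import Pool.Agent.H84.SF.Sum
import Pool.Agent.H84.SF.Min
import Pool.Agent.H84.SF.Gvy
import Pool.Agent.H84.SF.Esh
import Pool.Agent.H84.SF.Grb
import Pool.Agent.H84.SF.End

/-!
# Smoothed Fatou, SF-4d: the deterministic lemma
-/

set_option autoImplicit false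

open Finset

namespace Pool.Agent.H84.SF

variable {X : Type} {S : Dat X} {M θ A w c g E K N : ℝ} {m0 n0 : ℕ}

/-- the constants -/
structure Num (M θ A w c g E K N : ℝ) (m0 n0 : ℕ) : Prop where
  hA : 64 * M ^ 2 ≤ A
  hw : 1 ≤ w
  hwθ : w * (M * θ ^ 2) ≤ 1
  hc : 0 < c
  hcE : c * (w * E + A * E ^ 2) ≤ 1
  g0 : 0 < g
  g1 : 3 * g ≤ 1 / 4
  small : E * 2 ^ m0 * (4 * A * M / c) * θ ^ (1 - 2 * (3 * g)) ≤ 1 / 4
  cθ : θ ≤ c
  wN : w ≤ N
  N0 : N < K ^ n0 / E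
  N1 : BC A M c θ (E * 2 ^ m0) (E * 2 ^ m0 / θ ^ m0) ≤ N ^ g
  N2 : 2 * M < N ^ (1 - 2 * g)
  N3 : 2 * M / c < N ^ (g / 2)
  N4 : 1 / θ < N ^ g
  N5 : BB A M c θ (E * 2 ^ m0) ≤ N ^ (g ^ 2)

theorem cst_of (hs : Stat S M θ) (h3 : H3 S E K n0) (hn : Num M θ A w c g E K N m0 n0) :
    Cst M θ A w c (3 * g) := by
  have hE := h3.hE
  have hM := hs.hM
  have hw := hn.hw
  have hc := hn.hc
  have hA : 1 ≤ A := by
    have := hn.hA
    nlinarith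
  refine ⟨hn.hA, hw, hn.hwθ, hc, ?_, by linarith [hn.g0], hn.g1⟩
  have h1 : 1 ≤ w * E + A * E ^ 2 := by
    have h2 : 0 ≤ A * E ^ 2 := by positivity
    nlinarith
  have h2 := hn.hcE
  nlinarith

theorem par_of {K4 : ℝ} (hs : Stat S M θ) (h3 : H3 S E K n0) (h4 : H4 S θ E K4 m0)
    (hn : Num M θ A w c g E K N m0 n0) :
    Par S M θ A w c g (E * 2 ^ m0) (E * 2 ^ m0 / θ ^ m0) N := by
  have hM := hs.hM
  have hMA : M ≤ A := by
    have := hn.hA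
    nlinarith
  exact ⟨hs, cst_of hs h3 hn, gr_of hs h4, hn.small, hn.g0, hn.cθ,
    es_of hs h3 hMA hn.hw hn.wN hn.N0 hn.hc hn.hcE, hn.N1, hn.N2, hn.N3, hn.N4, hn.N5⟩

theorem H3.mono {E3 : ℝ} (h : H3 S E3 K n0) (hE : E3 ≤ E) : H3 S E K n0 := by
  have h1 := h.hE
  have hK := h.hK
  refine ⟨h1.trans hE, hK, fun v hv l hl => ?_, fun v hv l j hlj => ?_⟩
  · exact (one_div_le_one_div_of_le (by linarith) hE).trans (h.h3a v hv l hl)
  · exact (div_le_div_of_nonneg_left (pow_nonneg (by linarith) _) (by linarith) hE).trans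
      (h.h3p v hv l j hlj)

theorem H4.mono {E4 K4 : ℝ} (h : H4 S θ E4 K4 m0) (hE : E4 ≤ E) : H4 S θ E K4 m0 := by
  have h1 := h.hE4
  refine ⟨h1.trans hE, h.hK4, fun x hx => ?_⟩
  obtain ⟨m, h2, h3, h4, h5⟩ := h.h4 x hx
  refine ⟨m, h2, h3, h4, ?_⟩
  rcases h5 with h5 | ⟨h5, h6⟩
  · exact Or.inl h5
  · exact Or.inr ⟨(one_div_le_one_div_of_le (by linarith) hE).trans h5, h6⟩

/-- the derivatives along critical orbits are positive up to the time `k`, and their inverses are summable -/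
structure TailB (S : Dat X) (E K N : ℝ) (v : X) (k : ℕ) : Prop where
  pos : ∀ l < k, 0 < S.a (S.f^[l] v)
  tail : ∀ n1, ∑ l ∈ Ico (n1 + 1) (k + 1), 1 / Ph S l v ≤ E / K ^ n1 + 4 / √N

/-- **SF-4d, the deterministic lemma.** Either there is a critical value and a time `k` with large disc (`Uu` is its inverse size) at which
the orbit is too close to a critical point, or all critical orbits are good at all scales. -/
theorem det {E3 E4 K4 : ℝ} (hs : Stat S M θ) (hV : S.V.Finite) (h3' : H3 S E3 K n0)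
    (h4' : H4 S θ E4 K4 m0) (hE3 : E3 ≤ E) (hE4 : E4 ≤ E) (hn : Num M θ A w c g E K N m0 n0) :
    (∃ v ∈ S.V, ∃ k, N < Lm S A w k v ∧ S.a (S.f^[k] v) < Lm S A w k v ^ (-g) ∧
      Uu S A w k v ≤ Lm S A w k v ^ (7 * g ^ 2) ∧
      Lm S A w k v ^ (1 - 3 * g) ≤ Ph S k v ∧ TailB S E3 K N v k) ∨
    ((∀ Λ, Gd S A w c (3 * g) Λ) ∧ (∀ v ∈ S.V, ∀ k, TailB S E3 K N v k) ∧
      (∀ v ∈ S.V, ∀ k, N < Lm S A w k v → Lm S A w k v ^ (-g) ≤ S.a (S.f^[k] v) ∧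
        Lm S A w k v ^ (1 - 3 * g) ≤ Ph S k v) ∧
      ∀ v ∈ S.V, ∀ Y, w ≤ Y → ∃ p, Lm S A w p v ≤ Y ∧ Y < Lm S A w (p + 1) v ∧
        c / (2 * A) * Y ^ (1 - 3 * g) ≤ Ph S p v) := by
  have h3 := h3'.mono hE3
  have h4 := h4'.mono hE4
  have hp := par_of hs h3 h4 hn
  have hM := hs.hM
  have hMA : M ≤ A := by
    have := hn.hA
    nlinarith
  have hN1 := par_N hp
  have hN0 : 0 < √N := Real.sqrt_pos.2 (by linarith)
  have hN : 0 ≤ 4 / √N := by positivity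
  have htail : ∀ v ∈ S.V, ∀ k, (∀ l < k, 0 < S.a (S.f^[l] v)) →
      (∀ m ≤ k, N < Lm S A w m v →
        ∑ l ∈ Ico m (k + 1), 1 / Ph S l v ≤ 4 * (√(Lm S A w m v))⁻¹) → TailB S E3 K N v k := by
    intro v hv k h1 h2
    have hE1 := h3'.hE
    have hK2 := h3'.hK
    have hN03 : N < K ^ n0 / E3 := lt_of_lt_of_le hn.N0
      (div_le_div_of_nonneg_left (pow_nonneg (by linarith) _) (by linarith) hE3)
    refine ⟨h1, es_tail hs h3' hMA hn.hw hN03 hv hN (fun l hl => ph_pos fun i hi => h1 i (by omega)) ?_⟩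
    intro m hm hNm
    refine (h2 m hm hNm).trans ?_
    rw [div_eq_mul_inv]
    have h5 : (√(Lm S A w m v))⁻¹ ≤ (√N)⁻¹ := inv_anti₀ hN0 (Real.sqrt_le_sqrt hNm.le)
    linarith
  by_cases hfl : ∃ v ∈ S.V, ∃ k, Fl S A w g N v k
  · left
    obtain ⟨v, hv, k, h5, h6, h7, h8, h9, h10⟩ := o1 hp hV hfl
    exact ⟨v, hv, k, h5, h6, h7, h8 k le_rfl h5, htail v hv k h9 h10⟩
  · right
    push Not at hfl
    obtain ⟨h5, h6, h7, h8⟩ := o2 hp hfl
    refine ⟨h5, fun v hv k => htail v hv k (fun l _ => h6 v hv l) fun m hm hNm => h8 v hv m k hm hNm,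
      ?_, fun v hv Y hY => gvy hs hp.hc (h5 (Y + 1)) hv hY (by linarith)⟩
    intro v hv k hk
    refine ⟨?_, h7 v hv k hk⟩
    by_contra h9
    exact hfl v hv k ⟨hk, not_le.1 h9⟩

end Pool.Agent.H84.SF
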