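import Mathlib
import Pool.Agent.H91.SF.Defs
import Pool.Agent.H91.SF.ALG
import Pool.Agent.H84.SF.Def
import Pool.Agent.H84.SF.Alg
import Pool.Agent.H84.SF.Bex

/-!
# Smoothed Fatou: transfer of `Gd` from the base map to the nearby maps
-/

set_option autoImplicit false

open Finset Metric

namespace Pool.Agent.H84.SF

open Pool.Agent.H91.SF (Fd Bas Frz)

variable {X : Type}

/-- the map `F t` of the family `S`, with its critical values -/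
def Dt (S : Fd X) (C : Finset X) (t : ℂ) : Dat X where
  f := S.F t
  a := S.a t
  D := S.D
  V := {v | ∃ c ∈ C, v = S.F t c}

theorem dt_ph (S : Fd X) (C : Finset X) (t : ℂ) (x : X) (k : ℕ) :
    Ph (Dt S C t) k x = H91.SF.ph S t x k := rfl

theorem dt_lm (S : Fd X) (C : Finset X) (K : ℝ) (t : ℂ) (x : X) (k : ℕ) :
    Lm (Dt S C t) K 1 k x = H91.SF.lm S K t x k := rfl

theorem dt_ss (S : Fd X) (C : Finset X) (t : ℂ) (x : X) (k : ℕ) :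
    ∑ l ∈ Ico 1 (k + 1), 1 / Ph (Dt S C t) l x = H91.SF.ss S t x k := by
  rw [Finset.sum_Ico_eq_sum_range]
  unfold H91.SF.ss
  refine Finset.sum_congr (by simp) fun l _ => ?_
  rw [one_div, add_comm 1 l]
  rfl

theorem dt_V_finite (S : Fd X) (C : Finset X) (t : ℂ) : (Dt S C t).V.Finite := by
  refine (C.finite_toSet.image (S.F t)).subset ?_
  rintro v ⟨c, hc, rfl⟩
  exact ⟨c, hc, rfl⟩

variable {S : Fd X} {C : Finset X} {M1 K Ms θ ρ c h r : ℝ}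

/-- an orbit with bounded distortion of all derivatives -/
theorem lm_cmp {S : Fd X} {K : ℝ} (hK : 0 ≤ K) {t : ℂ} {x y : X} {k : ℕ}
    (h0 : ∀ l < k, 0 < S.a 0 (H91.SF.orb S 0 x l)) (hp : ∀ l ≤ k, 0 < H91.SF.ph S 0 x l)
    (h1 : ∀ l ≤ k, 3 / 4 * H91.SF.ph S 0 x l ≤ H91.SF.ph S t y l ∧
        H91.SF.ph S t y l ≤ 4 / 3 * H91.SF.ph S 0 x l)
    (h2 : ∀ l < k, 3 / 4 * S.a 0 (H91.SF.orb S 0 x l) ≤ S.a t (H91.SF.orb S t y l) ∧
        S.a t (H91.SF.orb S t y l) ≤ 4 / 3 * S.a 0 (H91.SF.orb S 0 x l)) :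
    9 / 16 * H91.SF.lm S K 0 x k ≤ H91.SF.lm S K t y k ∧
      H91.SF.lm S K t y k ≤ 16 / 9 * H91.SF.lm S K 0 x k := by
  unfold H91.SF.lm H91.SF.cl
  have key : ∀ l ∈ range k, 9 / 16 * (H91.SF.ph S 0 x l / S.a 0 (H91.SF.orb S 0 x l)) ≤
      H91.SF.ph S t y l / S.a t (H91.SF.orb S t y l) ∧
      H91.SF.ph S t y l / S.a t (H91.SF.orb S t y l) ≤
        16 / 9 * (H91.SF.ph S 0 x l / S.a 0 (H91.SF.orb S 0 x l)) := by
    intro l hl
    have hl' := Finset.mem_range.1 hl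
    obtain ⟨h3, h4⟩ := h1 l hl'.le
    obtain ⟨h5, h6⟩ := h2 l hl'
    have h7 := h0 l hl'
    have h8 := hp l hl'.le
    have h9 : 0 < S.a t (H91.SF.orb S t y l) := by linarith
    constructor
    · rw [← mul_div_assoc, div_le_div_iff₀ h7 h9]
      have h10 := mul_le_mul_of_nonneg_left h6 h8.le
      have h11 := mul_le_mul_of_nonneg_right h3 h7.le
      linarith
    · rw [← mul_div_assoc, div_le_div_iff₀ h9 h7]
      have h10 := mul_le_mul_of_nonneg_left h5 h8.le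
      have h11 := mul_le_mul_of_nonneg_right h4 h7.le
      linarith
  have h3 := Finset.sum_le_sum fun l hl => (key l hl).1
  have h4 := Finset.sum_le_sum fun l hl => (key l hl).2
  rw [← Finset.mul_sum] at h3 h4
  have h5 := mul_le_mul_of_nonneg_left h3 hK
  have h6 := mul_le_mul_of_nonneg_left h4 hK
  constructor <;> linarith

/-- growth of one step of `lm` -/
theorem lm_step_up {S : Dat X} (hs : Stat S Ms θ) (hc : Cst Ms θ K 1 c h)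
    (hG : ∀ Λ, Gd S K 1 c h Λ) {v : X} (hv : v ∈ S.V) {k : ℕ} (hk : 1 ≤ k) :
    Lm S K 1 (k + 1) v ≤ 2 * Ms ^ 2 / c * Lm S K 1 k v ^ (5 / 4 : ℝ) := by
  have hK := cst_A hs hc
  have hM := hs.hM
  have hc0 := hc.hc
  obtain ⟨j, rfl⟩ : ∃ j, k = j + 1 := ⟨k - 1, by omega⟩
  have hg : ∀ l, c * Lm S K 1 l v ^ (-h) ≤ S.a (S.f^[l] v) := fun l =>
    (hG (Lm S K 1 l v + 1) v hv l (by linarith)).1
  have h1 := one_le_lm hs hc j v
  have h2 := one_le_lm hs hc (j + 1) v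
  have h3 := hg j
  have h4 := hg (j + 1)
  have hpow : ∀ l, 0 < Lm S K 1 l v ^ (-h) := fun l =>
    Real.rpow_pos_of_pos (by linarith [one_le_lm hs hc l v]) _
  have h5 : 0 < S.a (S.f^[j] v) := lt_of_lt_of_le (mul_pos hc0 (hpow j)) h3
  have h6 : 0 < S.a (S.f^[j + 1] v) := lt_of_lt_of_le (mul_pos hc0 (hpow (j + 1))) h4
  have h7 := hs.aM (S.f^[j] v)
  -- `K Ph (j+1) ≤ Ms² Lm (j+1)`
  have h8 : K * Ph S (j + 1) v ≤ Ms ^ 2 * Lm S K 1 (j + 1) v := by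
    have h9 : K * (Ph S j v / S.a (S.f^[j] v)) ≤ Lm S K 1 (j + 1) v := by
      rw [lm_succ]
      linarith
    have h10 : K * Ph S (j + 1) v =
        K * (Ph S j v / S.a (S.f^[j] v)) * S.a (S.f^[j] v) ^ 2 := by
      rw [ph_succ]
      field_simp
    rw [h10]
    have h11 : S.a (S.f^[j] v) ^ 2 ≤ Ms ^ 2 := pow_le_pow_left₀ h5.le h7 2
    have h12 : 0 ≤ K * (Ph S j v / S.a (S.f^[j] v)) :=
      mul_nonneg hK.le (div_nonneg (ph_nonneg hs.a0 _) h5.le)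
    calc K * (Ph S j v / S.a (S.f^[j] v)) * S.a (S.f^[j] v) ^ 2 ≤
        K * (Ph S j v / S.a (S.f^[j] v)) * Ms ^ 2 := mul_le_mul_of_nonneg_left h11 h12
      _ ≤ Lm S K 1 (j + 1) v * Ms ^ 2 := mul_le_mul_of_nonneg_right h9 (by positivity)
      _ = Ms ^ 2 * Lm S K 1 (j + 1) v := by ring
  rw [lm_succ (j + 1)]
  set Lk := Lm S K 1 (j + 1) v with hLk
  have hL0 : 0 < Lk := by linarith
  -- `1 / a ≤ Lk^h / c`
  have h9 : (S.a (S.f^[j + 1] v))⁻¹ ≤ Lk ^ h / c := by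
    have h10 := inv_anti₀ (mul_pos hc0 (hpow (j + 1))) h4
    rw [← hLk, mul_inv, Real.rpow_neg hL0.le, inv_inv] at h10
    rw [div_eq_mul_inv, mul_comm]
    exact h10
  have h10 : K * (Ph S (j + 1) v / S.a (S.f^[j + 1] v)) ≤ Ms ^ 2 * Lk * (Lk ^ h / c) := by
    rw [div_eq_mul_inv, ← mul_assoc]
    exact mul_le_mul h8 h9 (inv_nonneg.2 h6.le) (by positivity)
  have h11 : Lk ^ (1 + h) ≤ Lk ^ (5 / 4 : ℝ) :=
    Real.rpow_le_rpow_of_exponent_le h2 (by linarith [hc.hh1])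
  have h12 : Lk ^ (1 + h) = Lk * Lk ^ h := by
    rw [Real.rpow_add hL0, Real.rpow_one]
  have h13 : Lk ≤ Lk ^ (5 / 4 : ℝ) := by
    have := Real.rpow_le_rpow_of_exponent_le h2 (show (1 : ℝ) ≤ 5 / 4 by norm_num)
    rwa [Real.rpow_one] at this
  have h14 : 1 ≤ Ms ^ 2 / c := by
    rw [le_div_iff₀ hc0]
    have := hc.hc1
    nlinarith
  have h15 : Lk ≤ Ms ^ 2 / c * Lk ^ (5 / 4 : ℝ) := by
    have : 0 ≤ Lk ^ (5 / 4 : ℝ) := Real.rpow_nonneg hL0.le _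
    nlinarith
  have h16 : Ms ^ 2 * Lk * (Lk ^ h / c) ≤ Ms ^ 2 / c * Lk ^ (5 / 4 : ℝ) := by
    have h17 : Ms ^ 2 * Lk * (Lk ^ h / c) = Ms ^ 2 / c * (Lk * Lk ^ h) := by ring
    rw [h17, ← h12]
    exact mul_le_mul_of_nonneg_left h11 (by positivity)
  have h18 : 2 * Ms ^ 2 / c * Lk ^ (5 / 4 : ℝ) =
      Ms ^ 2 / c * Lk ^ (5 / 4 : ℝ) + Ms ^ 2 / c * Lk ^ (5 / 4 : ℝ) := by ring
  rw [h18]
  linarith

/-- **Transfer of `Gd`** to the maps with parameter `|t| ≤ r`. -/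
theorem gd_frz (hB : Bas S C M1 K ρ) (hs : Stat (Dt S C 0) Ms θ) (hc : Cst Ms θ K 1 c h)
    (hG : ∀ Λ, Gd (Dt S C 0) K 1 c h Λ)
    (hss : ∀ q ∈ C, ∀ k, 1 + H91.SF.ss S 0 (S.F 0 q) k ≤ M1)
    (hr : 0 < r) (hrρ : r < ρ) (hr1 : r * (1 + K / c) ≤ 1) {Λ' : ℝ}
    (hΛ : 2 * Ms ^ 2 / c * (16 / 9 * Λ') ^ (5 / 4 : ℝ) * r ≤ 1) {t : ℂ} (ht : ‖t‖ ≤ r) :
    Gd (Dt S C t) K 1 (27 / 64 * c) h Λ' := by
  have hK := cst_A hs hc
  have hc0 := hc.hc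
  have hh := hc.hh
  have hh1 := hc.hh1
  rintro vt ⟨q, hq, rfl⟩ l hl
  have hv : S.F 0 q ∈ (Dt S C 0).V := ⟨q, hq, rfl⟩
  have h1K : 0 ≤ K / c := by positivity
  have hr1' : r ≤ 1 := by nlinarith
  obtain ⟨k, hk1, hk2⟩ := last_ex hs hc (hG (1 / r + 1)) hv hr (by linarith) (by linarith)
  have hg : ∀ l, c * Lm (Dt S C 0) K 1 l (S.F 0 q) ^ (-h) ≤ S.a 0 ((S.F 0)^[l] (S.F 0 q)) ∧
      c * Lm (Dt S C 0) K 1 l (S.F 0 q) ^ (1 - h) ≤ Ph (Dt S C 0) l (S.F 0 q) := fun l =>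
    hG (Lm (Dt S C 0) K 1 l (S.F 0 q) + 1) (S.F 0 q) hv l (by linarith)
  have hL1 : ∀ l, 1 ≤ Lm (Dt S C 0) K 1 l (S.F 0 q) := fun l => one_le_lm hs hc l _
  have hapos : ∀ l, 0 < S.a 0 ((S.F 0)^[l] (S.F 0 q)) := fun l =>
    lt_of_lt_of_le (mul_pos hc0 (Real.rpow_pos_of_pos (by linarith [hL1 l]) _)) (hg l).1
  have hk : 1 ≤ k := by
    by_contra hk0
    have hk0 : k = 0 := by omega
    subst hk0
    rw [zero_add, lm_succ, lm_zero, ph_zero] at hk2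
    have h2 := (hg 0).1
    rw [lm_zero, Real.one_rpow, mul_one] at h2
    have h3 : K * (1 / S.a 0 ((S.F 0)^[0] (S.F 0 q))) ≤ K / c := by
      rw [mul_one_div]
      exact div_le_div_of_nonneg_left hK.le hc0 h2
    have h4 : (1 + K * (1 / S.a 0 ((S.F 0)^[0] (S.F 0 q)))) * r ≤ r * (1 + K / c) := by
      rw [mul_comm]
      exact mul_le_mul_of_nonneg_left (by linarith) hr.le
    have h5 : 1 < (1 + K * (1 / S.a 0 ((S.F 0)^[0] (S.F 0 q)))) * r := hk2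
    linarith
  have h0ρ : (0 : ℂ) ∈ ball (0 : ℂ) ρ := mem_ball_self hB.hρ
  have htρ : t ∈ ball (0 : ℂ) ρ := mem_ball_zero_iff.2 (lt_of_le_of_lt ht hrρ)
  have hfz := hB.frz 0 h0ρ q hq k hk (fun l _ => hapos l) (hss q hq k)
  have htk : ‖t - 0‖ * H91.SF.lm S K 0 (S.F 0 q) k ≤ 1 := by
    rw [sub_zero, ← dt_lm S C]
    have h2 : 0 ≤ Lm (Dt S C 0) K 1 k (S.F 0 q) := by linarith [hL1 k]
    calc ‖t‖ * Lm (Dt S C 0) K 1 k (S.F 0 q) ≤ r * Lm (Dt S C 0) K 1 k (S.F 0 q) :=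
        mul_le_mul_of_nonneg_right ht h2
      _ = Lm (Dt S C 0) K 1 k (S.F 0 q) * r := mul_comm _ _
      _ ≤ 1 := hk1
  have hf := hfz t htρ t htρ htk htk
  -- comparison for all `j ≤ k`
  have hcmp : ∀ j ≤ k, 9 / 16 * H91.SF.lm S K 0 (S.F 0 q) j ≤ H91.SF.lm S K t (S.F t q) j ∧
      H91.SF.lm S K t (S.F t q) j ≤ 16 / 9 * H91.SF.lm S K 0 (S.F 0 q) j := by
    intro j hj
    refine lm_cmp hK.le (fun l _ => hapos l) (fun l _ => H91.SF.ph_pos fun i _ => hapos i) ?_ ?_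
    · intro l hl
      exact (hf l (hl.trans hj)).1
    · intro l hl
      exact (hf l (by omega)).2.1 (by omega)
  have hlk : l < k := by
    by_contra hlk
    push Not at hlk
    have h2 : H91.SF.lm S K t (S.F t q) k ≤ H91.SF.lm S K t (S.F t q) l :=
      lm_mono (S := Dt S C t) (hB.a0 t) hK.le hlk
    have h3 : H91.SF.lm S K t (S.F t q) l < Λ' := hl
    have h4 := (hcmp k le_rfl).1
    have h5 : Lm (Dt S C 0) K 1 k (S.F 0 q) ≤ 16 / 9 * Λ' := by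
      rw [dt_lm]
      linarith
    have h6 := lm_step_up hs hc hG hv hk
    have h7 : Lm (Dt S C 0) K 1 k (S.F 0 q) ^ (5 / 4 : ℝ) ≤ (16 / 9 * Λ') ^ (5 / 4 : ℝ) :=
      Real.rpow_le_rpow (by linarith [hL1 k]) h5 (by norm_num)
    have h8 : 0 ≤ 2 * Ms ^ 2 / c := by positivity
    have h9 : Lm (Dt S C 0) K 1 (k + 1) (S.F 0 q) * r ≤
        2 * Ms ^ 2 / c * (16 / 9 * Λ') ^ (5 / 4 : ℝ) * r :=
      mul_le_mul_of_nonneg_right (h6.trans (mul_le_mul_of_nonneg_left h7 h8)) hr.le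
    linarith
  obtain ⟨⟨h2, -⟩, h3, -⟩ := hf l hlk.le
  have h4 := (h3 hlk).1
  obtain ⟨h5, h6⟩ := hg l
  obtain ⟨h7, h8⟩ := hcmp l hlk.le
  rw [← dt_lm S C, ← dt_lm S C] at h7 h8
  set L0 := Lm (Dt S C 0) K 1 l (S.F 0 q) with hL0
  set Lt := Lm (Dt S C t) K 1 l (S.F t q) with hLt
  have hL0p : 1 ≤ L0 := hL1 l
  have hLtp : 0 < Lt := by linarith
  have hL0' : 0 < L0 := by linarith
  constructor
  · -- a
    have h9 : Lt ^ (-h) ≤ (9 / 16 : ℝ) ^ (-h) * L0 ^ (-h) := by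
      rw [← Real.mul_rpow (by norm_num) hL0'.le]
      exact Real.rpow_le_rpow_of_nonpos (by positivity) h7 (by linarith)
    have h10 : (9 / 16 : ℝ) ^ (-h) ≤ 16 / 9 := by
      have h11 := Real.rpow_le_rpow_of_exponent_ge (show (0 : ℝ) < 9 / 16 by norm_num)
        (by norm_num) (show (-1 : ℝ) ≤ -h by linarith)
      rw [Real.rpow_neg_one] at h11
      norm_num at h11 ⊢
      exact h11
    have h11 : 0 ≤ L0 ^ (-h) := Real.rpow_nonneg hL0'.le _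
    have h12 : Lt ^ (-h) ≤ 16 / 9 * L0 ^ (-h) :=
      h9.trans (mul_le_mul_of_nonneg_right h10 h11)
    have h13 : 27 / 64 * c * Lt ^ (-h) ≤ 27 / 64 * c * (16 / 9 * L0 ^ (-h)) :=
      mul_le_mul_of_nonneg_left h12 (by positivity)
    have h14 : 3 / 4 * (c * L0 ^ (-h)) ≤ 3 / 4 * S.a 0 ((S.F 0)^[l] (S.F 0 q)) := by linarith
    have h15 : 3 / 4 * S.a 0 ((S.F 0)^[l] (S.F 0 q)) ≤ S.a t ((S.F t)^[l] (S.F t q)) := h4
    show 27 / 64 * c * Lt ^ (-h) ≤ S.a t ((S.F t)^[l] (S.F t q))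
    linarith
  · -- Ph
    have h9 : Lt ^ (1 - h) ≤ (16 / 9 : ℝ) ^ (1 - h) * L0 ^ (1 - h) := by
      rw [← Real.mul_rpow (by norm_num) hL0'.le]
      exact Real.rpow_le_rpow hLtp.le h8 (by linarith)
    have h10 : (16 / 9 : ℝ) ^ (1 - h) ≤ 16 / 9 := by
      have h11 := Real.rpow_le_rpow_of_exponent_le (show (1 : ℝ) ≤ 16 / 9 by norm_num)
        (show 1 - h ≤ 1 by linarith)
      rwa [Real.rpow_one] at h11
    have h11 : 0 ≤ L0 ^ (1 - h) := Real.rpow_nonneg hL0'.le _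
    have h12 : Lt ^ (1 - h) ≤ 16 / 9 * L0 ^ (1 - h) :=
      h9.trans (mul_le_mul_of_nonneg_right h10 h11)
    have h13 : 27 / 64 * c * Lt ^ (1 - h) ≤ 27 / 64 * c * (16 / 9 * L0 ^ (1 - h)) :=
      mul_le_mul_of_nonneg_left h12 (by positivity)
    have h15 : 3 / 4 * Ph (Dt S C 0) l (S.F 0 q) ≤ Ph (Dt S C t) l (S.F t q) := h2
    linarith

end Pool.Agent.H84.SF
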