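import Mathlib
import Pool.Agent.H91.SF.Defs
import Pool.Agent.H91.SF.ALG
import Pool.Agent.H84.SF.Def
import Pool.Agent.H84.SF.Alg
import Pool.Agent.H84.SF.Bex
import Pool.Agent.H84.SF.Min
import Pool.Agent.H84.SF.Esh
import Pool.Agent.H84.SF.Grb
import Pool.Agent.H84.SF.End
import Pool.Agent.H84.SF.Det
import Pool.Agent.H84.SF.Trf

/-!
# Smoothed Fatou: the inputs `BlkAll` and `Gde` of the closing theorem from the deterministic lemma
-/

set_option autoImplicit false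

open Finset Metric Filter Topology

namespace Pool.Agent.H84.SF

open Pool.Agent.H91.SF (Fd Bas Frz Blk BlkAll Gde)

variable {X : Type} {S : Fd X} {C : Finset X} {M1 K Ms θ ρ c h r E Kx N : ℝ} {m0 n0 n1 : ℕ}

/-- blocks of the points outside the deep set -/
theorem reg_blk {S : Dat X} (hs : Stat S Ms θ) (h4 : H4 S θ E Kx m0) {x : X} (hx : θ ≤ S.a x) :
    ∃ m, 1 ≤ m ∧ m ≤ m0 ∧ (∀ l < m, 0 < S.a (S.f^[l] x)) ∧
      ∑ l ∈ range m, Ph S l x / S.a (S.f^[l] x) ≤ m0 * Ms ^ m0 / θ ∧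
      ∑ l ∈ Ico 1 (m + 1), 1 / Ph S l x ≤ m0 / θ ^ m0 ∧
      (Kx ≤ Ph S m x ∨ (1 / E ≤ Ph S m x ∧ S.a (S.f^[m] x) < θ)) := by
  obtain ⟨m, h1, h2, h3, h5⟩ := h4.h4 x hx
  have hθ := hs.hθ
  have hθ1 := hs.hθ1
  have hM := hs.hM
  have hup : ∀ l ≤ m0, Ph S l x ≤ Ms ^ m0 := by
    intro l hl
    have h6 : Ph S l x ≤ Ms ^ l := by
      unfold Ph
      calc ∏ i ∈ range l, S.a (S.f^[i] x) ≤ ∏ i ∈ range l, Ms :=
          Finset.prod_le_prod (fun i _ => hs.a0 _) fun i _ => hs.aM _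
        _ = Ms ^ l := by rw [Finset.prod_const, Finset.card_range]
    exact h6.trans (pow_le_pow_right₀ hM hl)
  have hlow : ∀ l ≤ m, θ ^ m0 ≤ Ph S l x := by
    intro l hl
    have h6 : θ ^ l ≤ Ph S l x := ph_ge_pow hθ fun i hi => h3 i (by omega)
    exact (pow_le_pow_of_le_one hθ.le hθ1 (by omega)).trans h6
  have hθm : 0 < θ ^ m0 := pow_pos hθ _
  have hm : (m : ℝ) ≤ m0 := by exact_mod_cast h2
  refine ⟨m, h1, h2, fun l hl => lt_of_lt_of_le hθ (h3 l hl), ?_, ?_, h5⟩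
  · have h6 : ∀ l ∈ range m, Ph S l x / S.a (S.f^[l] x) ≤ Ms ^ m0 / θ := by
      intro l hl
      have hl' := Finset.mem_range.1 hl
      exact div_le_div₀ (by positivity) (hup l (by omega)) hθ (h3 l hl')
    refine (Finset.sum_le_sum h6).trans ?_
    rw [Finset.sum_const, Finset.card_range, nsmul_eq_mul, mul_div_assoc]
    exact mul_le_mul_of_nonneg_right hm (by positivity)
  · have h6 : ∀ l ∈ Ico 1 (m + 1), 1 / Ph S l x ≤ 1 / θ ^ m0 := by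
      intro l hl
      have hl' := Finset.mem_Ico.1 hl
      exact one_div_le_one_div_of_le hθm (hlow l (by omega))
    refine (Finset.sum_le_sum h6).trans ?_
    rw [Finset.sum_const, Nat.card_Ico, nsmul_eq_mul, ← mul_one_div (m0 : ℝ) (θ ^ m0)]
    have h7 : ((m + 1 - 1 : ℕ) : ℝ) = m := by simp
    rw [h7]
    exact mul_le_mul_of_nonneg_right hm (by positivity)

/-- the scale of the deep blocks at radius `r` -/
theorem scale_ev (hs1 : 1 ≤ Ms) (hc0 : 0 < c) :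
    ∀ᶠ r : ℝ in 𝓝[>] 0, 2 * Ms ^ 2 / c * (16 / 9 * (2 * Ms / √r)) ^ (5 / 4 : ℝ) * r ≤ 1 := by
  have h1 : Tendsto (fun r : ℝ => 2 * Ms ^ 2 / c * (16 / 9 * (2 * Ms)) ^ (5 / 4 : ℝ) *
      r ^ (3 / 8 : ℝ)) (𝓝[>] 0) (𝓝 (2 * Ms ^ 2 / c * (16 / 9 * (2 * Ms)) ^ (5 / 4 : ℝ) * 0)) := by
    refine Tendsto.const_mul _ ?_
    have h2 : Tendsto (fun r : ℝ => r ^ (3 / 8 : ℝ)) (𝓝 0) (𝓝 0) := by
      have := (Real.continuousAt_rpow_const 0 (3 / 8 : ℝ) (Or.inr (by norm_num))).tendsto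
      rwa [Real.zero_rpow (by norm_num)] at this
    exact h2.mono_left nhdsWithin_le_nhds
  rw [mul_zero] at h1
  have h2 := h1.eventually (gt_mem_nhds (show (0 : ℝ) < 1 by norm_num))
  filter_upwards [h2, self_mem_nhdsWithin] with r hr hr0
  have hr0' : 0 < r := hr0
  have h3 : (16 / 9 * (2 * Ms / √r)) ^ (5 / 4 : ℝ) * r =
      (16 / 9 * (2 * Ms)) ^ (5 / 4 : ℝ) * r ^ (3 / 8 : ℝ) := by
    rw [← mul_div_assoc, Real.div_rpow (by positivity) (Real.sqrt_nonneg _), Real.sqrt_eq_rpow,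
      ← Real.rpow_mul hr0'.le, div_mul_eq_mul_div, div_eq_iff (Real.rpow_pos_of_pos hr0' _).ne',
      mul_assoc, ← Real.rpow_add hr0']
    congr 1
    norm_num
  rw [mul_assoc, h3, ← mul_assoc]
  exact hr.le

theorem blk_all (hB : Bas S C M1 K ρ) (hs : ∀ t ∈ ball (0 : ℂ) ρ, Stat (Dt S C t) Ms θ)
    (hc : Cst Ms θ K 1 c h) (hG : ∀ Λ, Gd (Dt S C 0) K 1 c h Λ)
    (hss : ∀ q ∈ C, ∀ k, 1 + H91.SF.ss S 0 (S.F 0 q) k ≤ M1)
    (h4 : ∀ t ∈ ball (0 : ℂ) ρ, H4 (Dt S C t) θ E Kx m0) (hEM : E ≤ M1) (h16 : 16 ≤ Kx) :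
    ∃ E', 1 ≤ E' ∧ BlkAll S M1 θ (100 * (K * Ms / c) ^ 2) E' := by
  have h0ρ : (0 : ℂ) ∈ ball (0 : ℂ) ρ := mem_ball_self hB.hρ
  have hs0 := hs 0 h0ρ
  have hK := cst_A hs0 hc
  have hc0 := hc.hc
  have hM := hs0.hM
  have hθ := hs0.hθ
  have hθm : 0 < θ ^ m0 := pow_pos hθ _
  have hc' : Cst Ms θ K 1 (27 / 64 * c) h :=
    ⟨hc.hA, hc.hw, hc.hwθ, by positivity, by linarith [hc.hc1], hc.hh, hc.hh1⟩
  have h10 : (0 : ℝ) ≤ m0 * Ms ^ m0 / θ := by positivity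
  have h11 : (0 : ℝ) ≤ m0 / θ ^ m0 := by positivity
  have h12 : 0 < 8 / (27 / 64 * c) ^ 2 := by positivity
  refine ⟨1 + m0 * Ms ^ m0 / θ + m0 / θ ^ m0 + 8 / (27 / 64 * c) ^ 2, by linarith, ?_⟩
  have e1 := scale_ev hM hc0
  have e2 : ∀ᶠ r : ℝ in 𝓝[>] 0, r < ρ := nhdsWithin_le_nhds (gt_mem_nhds hB.hρ)
  have e3 : ∀ᶠ r : ℝ in 𝓝[>] 0, r < 1 / (1 + K / c) :=
    nhdsWithin_le_nhds (gt_mem_nhds (by positivity))
  unfold BlkAll
  filter_upwards [e1, e2, e3, self_mem_nhdsWithin] with r hr1 hr2 hr3 hr0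
  have hr0' : 0 < r := hr0
  have hr4 : r * (1 + K / c) ≤ 1 := by
    rw [lt_div_iff₀ (by positivity)] at hr3
    exact hr3.le
  have hsr : 0 < √r := Real.sqrt_pos.2 hr0'
  refine ⟨m0 + ⌈1 + Ms / (27 / 64 * c * √r)⌉₊, fun t ht am ham hram => ?_⟩
  have htρ : t ∈ ball (0 : ℂ) ρ := mem_ball_zero_iff.2 (lt_of_le_of_lt ht hr2)
  have hGt := gd_frz hB hs0 hc hG hss hr0' hr2 hr4 hr1 ht
  refine ⟨?_, ?_⟩
  · intro x _ hx
    obtain ⟨m, h1, h2, h3, h5, h6, h7⟩ := reg_blk (hs t htρ) (h4 t htρ) (x := x) hx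
    refine ⟨m, h1, by omega, h3, ?_, ?_, ?_⟩
    · exact (show H91.SF.cl S t x m ≤ m0 * Ms ^ m0 / θ from h5).trans (by linarith)
    · rw [← dt_ss S C]
      exact h6.trans (by linarith)
    · rcases h7 with h7 | ⟨h7, h8⟩
      · exact Or.inl (h16.trans h7)
      · refine Or.inr ⟨?_, h8⟩
        have hE := (h4 t htρ).hE4
        rw [div_le_iff₀ (by linarith)] at h7
        have h9 : 0 ≤ Ph (Dt S C t) m x := ph_nonneg (hs t htρ).a0 m
        calc (1 : ℝ) ≤ Ph (Dt S C t) m x * E := h7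
          _ ≤ Ph (Dt S C t) m x * M1 := mul_le_mul_of_nonneg_left hEM h9
          _ = M1 * H91.SF.ph S t x m := mul_comm _ _
  · intro x hx1 hx2
    have hx0 : 0 < S.a t x := lt_of_lt_of_le ham hx1
    -- `√r ≤ a ^ 2`
    have hsa : √r ≤ S.a t x ^ 2 := by
      refine Real.sqrt_le_iff.2 ⟨by positivity, ?_⟩
      calc r ≤ am ^ 4 := hram
        _ ≤ S.a t x ^ 4 := pow_le_pow_left₀ ham.le hx1 4
        _ = (S.a t x ^ 2) ^ 2 := by ring
    have hΛ : Ms / S.a t x ^ 2 < 2 * Ms / √r := by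
      have h1 : Ms / S.a t x ^ 2 ≤ Ms / √r := div_le_div_of_nonneg_left (by linarith) hsr hsa
      have h2 : 0 < Ms / √r := by positivity
      have h3 : 2 * Ms / √r = Ms / √r + Ms / √r := by ring
      linarith
    obtain ⟨m, h1, h2, h3, h5, h6, h7, h8⟩ := deep_block (hs t htρ) hc' hGt (x := x) hx0 hx2 hΛ
    refine ⟨m, h1, ?_, h3, ?_, ?_, ?_⟩
    · have h9 : (m : ℝ) ≤ 1 + Ms / (27 / 64 * c * √r) := by
        refine h2.trans ?_
        have h10 : Ms / (27 / 64 * c * S.a t x ^ 2) ≤ Ms / (27 / 64 * c * √r) :=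
          div_le_div_of_nonneg_left (by linarith) (by positivity)
            (mul_le_mul_of_nonneg_left hsa (by positivity))
        have h11 : Ms / (27 / 64 * c * (Dt S C t).a x ^ 2) =
            Ms / (27 / 64 * c * S.a t x ^ 2) := rfl
        rw [h11]
        linarith
      have h10 := Nat.le_ceil (1 + Ms / (27 / 64 * c * √r))
      have h11 : (m : ℝ) ≤ (⌈1 + Ms / (27 / 64 * c * √r)⌉₊ : ℝ) := h9.trans h10
      have h12 : m ≤ ⌈1 + Ms / (27 / 64 * c * √r)⌉₊ := by exact_mod_cast h11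
      omega
    · have h9 : H91.SF.cl S t x m ≤ 2 / S.a t x := h5
      rw [le_div_iff₀ hx0] at h9
      linarith
    · rw [← dt_ss S C]
      have h9 : (27 / 64 * c) ^ 2 * S.a t x * ∑ l ∈ Ico 1 (m + 1), 1 / Ph (Dt S C t) l x ≤ 8 := by
        have h10 : ∑ l ∈ Ico 1 (m + 1), 1 / Ph (Dt S C t) l x ≤
            8 / ((27 / 64 * c) ^ 2 * S.a t x) := h6
        rw [le_div_iff₀ (by positivity)] at h10
        linarith
      have h10 : S.a t x * ∑ l ∈ Ico 1 (m + 1), 1 / Ph (Dt S C t) l x ≤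
          8 / (27 / 64 * c) ^ 2 := by
        rw [le_div_iff₀ (by positivity)]
        linarith
      linarith
    · have h9 : 1 ≤ (4 * K * Ms / (27 / 64 * c)) ^ 2 * S.a t x * H91.SF.ph S t x m ^ 2 := h8
      refine h9.trans ?_
      have h10 : (4 * K * Ms / (27 / 64 * c)) ^ 2 ≤ 100 * (K * Ms / c) ^ 2 := by
        have h11 : 4 * K * Ms / (27 / 64 * c) = 256 / 27 * (K * Ms / c) := by
          field_simp
          norm_num
        rw [h11, mul_pow]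
        exact mul_le_mul_of_nonneg_right (by norm_num) (sq_nonneg _)
      exact mul_le_mul_of_nonneg_right (mul_le_mul_of_nonneg_right h10 hx0.le) (sq_nonneg _)

/-- the initial times -/
theorem gde_of (hB : Bas S C M1 K ρ) (hs : Stat (Dt S C 0) Ms θ)
    (hc : Cst Ms θ K 1 c h) (hh : h ≤ 1 / 8) (hG : ∀ Λ, Gd (Dt S C 0) K 1 c h Λ)
    {E2 B2 : ℝ} (hss : ∀ q ∈ C, ∀ k, H91.SF.ss S 0 (S.F 0 q) k ≤ E2) (hE2 : 1 + E2 ≤ M1 / 2)
    (htail : ∀ q ∈ C, ∀ k, ∑ l ∈ Ico (n1 + 1) (k + 1), 1 / Ph (Dt S C 0) l (S.F 0 q) ≤ B2)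
    (hT : ∀ q ∈ C, 1 / M1 + 2 * B2 ≤ S.T 0 q n1) :
    Gde S C M1 K (100 * (K * Ms / c) ^ 2) := by
  have h0ρ : (0 : ℂ) ∈ ball (0 : ℂ) ρ := mem_ball_self hB.hρ
  have hK := cst_A hs hc
  have hc0 := hc.hc
  have hM := hs.hM
  -- `T`
  have hTk : ∀ q ∈ C, ∀ k, n1 ≤ k →
      S.T 0 q n1 - 2 * ∑ l ∈ Ico (n1 + 1) (k + 1), 1 / Ph (Dt S C 0) l (S.F 0 q) ≤
        S.T 0 q k := by
    intro q hq k hk
    induction k, hk using Nat.le_induction with
    | base => simp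
    | succ k hk ih =>
      rw [Finset.sum_Ico_succ_top (by omega)]
      have h1 := (abs_le.1 (hB.Tt 0 h0ρ q hq k)).1
      have h2 : (H91.SF.ph S 0 (S.F 0 q) (k + 1))⁻¹ = 1 / Ph (Dt S C 0) (k + 1) (S.F 0 q) := by
        rw [one_div]
        rfl
      rw [h2] at h1
      linarith
  -- a bound of `Lm` at the time `n1 + 1`
  obtain ⟨B, hBd⟩ : ∃ B, ∀ q ∈ C, Lm (Dt S C 0) K 1 (n1 + 1) (S.F 0 q) ≤ B := by
    obtain ⟨B, hB⟩ := (C.finite_toSet.image fun q => Lm (Dt S C 0) K 1 (n1 + 1) (S.F 0 q)).bddAbove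
    exact ⟨B, fun q hq => hB ⟨q, hq, rfl⟩⟩
  unfold Gde
  filter_upwards [eventually_ge_atTop (max 1 B)] with R hR q hq
  have hR1 : 1 ≤ R := (le_max_left _ _).trans hR
  have hRB : B ≤ R := (le_max_right _ _).trans hR
  have hv : S.F 0 q ∈ (Dt S C 0).V := ⟨q, hq, rfl⟩
  have hg : ∀ l, c * Lm (Dt S C 0) K 1 l (S.F 0 q) ^ (-h) ≤ S.a 0 ((S.F 0)^[l] (S.F 0 q)) := fun l =>
    (hG (Lm (Dt S C 0) K 1 l (S.F 0 q) + 1) (S.F 0 q) hv l (by linarith)).1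
  have hapos : ∀ l, 0 < S.a 0 ((S.F 0)^[l] (S.F 0 q)) := fun l =>
    lt_of_lt_of_le (mul_pos hc0 (Real.rpow_pos_of_pos (by
      linarith [one_le_lm hs hc l (S.F 0 q)]) _)) (hg l)
  obtain ⟨p, hp1, hp2, hp3⟩ := gvy hs hc (hG (R + 1)) hv hR1 (by linarith)
  have hpn : n1 + 1 ≤ p := by
    by_contra hlt
    push Not at hlt
    have h1 : Lm (Dt S C 0) K 1 (p + 1) (S.F 0 q) ≤ Lm (Dt S C 0) K 1 (n1 + 1) (S.F 0 q) :=
      lm_mono hs.a0 hK.le (by omega)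
    have h2 := hBd q hq
    linarith
  refine ⟨p, by omega, fun l _ => hapos l, hp1, ?_, ?_, ?_⟩
  · -- growth
    have hph : 0 ≤ H91.SF.ph S 0 (S.F 0 q) p := (H91.SF.ph_pos fun l _ => hapos l).le
    have h1 : R ^ (7 / 8 : ℝ) ≤ 100 * (K * Ms / c) ^ 2 * H91.SF.ph S 0 (S.F 0 q) p := by
      have h2 : R ^ (7 / 8 : ℝ) ≤ R ^ (1 - h) :=
        Real.rpow_le_rpow_of_exponent_le hR1 (by linarith)
      have h3 : c / (2 * K) * R ^ (1 - h) ≤ H91.SF.ph S 0 (S.F 0 q) p := hp3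
      have h4 : R ^ (1 - h) ≤ 2 * K / c * H91.SF.ph S 0 (S.F 0 q) p := by
        have h5 := mul_le_mul_of_nonneg_left h3 (show 0 ≤ 2 * K / c by positivity)
        have h6 : 2 * K / c * (c / (2 * K) * R ^ (1 - h)) = R ^ (1 - h) := by
          field_simp
        linarith
      have h5 : 2 * K / c ≤ 100 * (K * Ms / c) ^ 2 := by
        have h6 : 1 ≤ K / c := by
          rw [le_div_iff₀ hc0]
          have := hc.hA
          have := hc.hc1
          nlinarith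
        have h7 : K * Ms / c = K / c * Ms := by ring
        have h8 : 1 * 1 ≤ K / c * Ms := mul_le_mul h6 hM (by norm_num) (by linarith)
        have h9 : K / c * 1 ≤ K / c * Ms := mul_le_mul_of_nonneg_left hM (by linarith)
        rw [h7, mul_div_assoc]
        nlinarith
      exact (h2.trans h4).trans (mul_le_mul_of_nonneg_right h5 hph)
    have h2 : R ^ 7 = (R ^ (7 / 8 : ℝ)) ^ 8 := by
      rw [← Real.rpow_natCast (R ^ (7 / 8 : ℝ)), ← Real.rpow_mul (by linarith),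
        ← Real.rpow_natCast R 7]
      congr 1
      norm_num
    rw [h2]
    exact pow_le_pow_left₀ (Real.rpow_nonneg (by linarith) _) h1 8
  · linarith [hss q hq p]
  · have h1 := hTk q hq p (by omega)
    have h2 := htail q hq p
    have h3 := hT q hq
    linarith

end Pool.Agent.H84.SF
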