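import Mathlib
import Pool.Agent.H91.SF.Defs
import Pool.Agent.H91.SF.ALG
import Pool.Agent.H84.SF.Def
import Pool.Agent.H84.SF.Alg
import Pool.Agent.H84.SF.Bex
import Pool.Agent.H84.SF.Esh
import Pool.Agent.H84.SF.Det
import Pool.Agent.H84.SF.Trf
import Pool.Agent.H84.SF.Inst

/-!
# Smoothed Fatou: the deterministic part of the late stage for a family of maps

Either the late event `Ev` happens at the parameter `0`, or the inputs `BlkAll`, `Gde` of the closing theorem hold.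
-/

set_option autoImplicit false

open Finset Metric Filter Topology

namespace Pool.Agent.H84.SF

open Pool.Agent.H91.SF (Fd Bas Frz Blk BlkAll Gde)

variable {X : Type} {S : Fd X} {C : Finset X} {M1 K Ms θ ρ c g E Kx N E3 E4 K4 : ℝ}
  {m0 n0 n1 : ℕ}

/-- the late event for the critical point `q` at the time `k` -/
structure Ev (S : Fd X) (C : Finset X) (M1 K g η Lam : ℝ) (q : X) (k : ℕ) : Prop where
  hq : q ∈ C
  one : 1 ≤ k
  ps : H91.SF.pos S 0 (S.F 0 q) k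
  ssb : 1 + H91.SF.ss S 0 (S.F 0 q) k ≤ M1
  tt : 1 / M1 ≤ S.T 0 q k
  lam : Lam < H91.SF.lm S K 0 (S.F 0 q) k
  grw : H91.SF.lm S K 0 (S.F 0 q) k ^ (1 - η) ≤ H91.SF.ph S 0 (S.F 0 q) k
  sml : S.a 0 (H91.SF.orb S 0 (S.F 0 q) k) < H91.SF.lm S K 0 (S.F 0 q) k ^ (-g)

/-- a bound of `Lm` in the early stage -/
theorem es_up {S : Dat X} (hs : Stat S Ms θ) (h3 : H3 S E Kx n0) (hK : 0 ≤ K) {v : X}
    (hv : v ∈ S.V) (hn : n1 ≤ n0) : Lm S K 1 n1 v ≤ 1 + K * (n1 * (E * Ms ^ n1)) := by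
  unfold Lm
  have hM := hs.hM
  have hE := h3.hE
  have h1 : ∀ l ∈ range n1, Ph S l v / S.a (S.f^[l] v) ≤ E * Ms ^ n1 := by
    intro l hl
    have hl' := Finset.mem_range.1 hl
    have h2 := h3.h3a v hv l (by omega)
    have h5 : Ph S l v ≤ Ms ^ n1 := by
      have h6 : Ph S l v ≤ Ms ^ l := by
        unfold Ph
        calc ∏ i ∈ range l, S.a (S.f^[i] v) ≤ ∏ i ∈ range l, Ms :=
            Finset.prod_le_prod (fun i _ => hs.a0 _) fun i _ => hs.aM _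
          _ = Ms ^ l := by rw [Finset.prod_const, Finset.card_range]
      exact h6.trans (pow_le_pow_right₀ hM (by omega))
    have h7 : 0 < S.a (S.f^[l] v) := lt_of_lt_of_le (by positivity) h2
    rw [div_le_iff₀ h7]
    rw [div_le_iff₀ (by linarith)] at h2
    have h8 : 0 ≤ Ms ^ n1 := by positivity
    calc Ph S l v ≤ Ms ^ n1 * 1 := by linarith
      _ ≤ Ms ^ n1 * (S.a (S.f^[l] v) * E) := mul_le_mul_of_nonneg_left h2 h8
      _ = E * Ms ^ n1 * S.a (S.f^[l] v) := by ring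
  have h2 := Finset.sum_le_sum h1
  rw [Finset.sum_const, Finset.card_range, nsmul_eq_mul] at h2
  have h3 := mul_le_mul_of_nonneg_left h2 hK
  linarith

/-- **The deterministic part of the late stage.** -/
theorem dme (hB : Bas S C M1 K ρ) (hs : ∀ t ∈ ball (0 : ℂ) ρ, Stat (Dt S C t) Ms θ)
    (h3' : H3 (Dt S C 0) E3 Kx n0) (h4 : ∀ t ∈ ball (0 : ℂ) ρ, H4 (Dt S C t) θ E4 K4 m0)
    (hE3 : E3 ≤ E) (hE4 : E4 ≤ E) (hn : Num Ms θ K 1 c g E Kx N m0 n0) (hg : g ≤ 1 / 24)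
    (h16 : 16 ≤ K4) (hEM : 2 * (E3 + 5) ≤ M1) (hEM4 : E4 ≤ M1) (hn1 : n1 ≤ n0)
    (hN1 : 1 + K * (n1 * (E3 * Ms ^ n1)) ≤ N)
    (hT : ∀ q ∈ C, 1 / M1 + 2 * (E3 / Kx ^ n1 + 4 / √N) ≤ S.T 0 q n1) :
    (∃ q k, Ev S C M1 K g (7 * g ^ 2) N q k) ∨
    ((∀ Λ, Gd (Dt S C 0) K 1 c (3 * g) Λ) ∧
      (∀ q ∈ C, ∀ k, H91.SF.ss S 0 (S.F 0 q) k ≤ E3 + 4) ∧
      ∃ E', 1 ≤ E' ∧ BlkAll S M1 θ (100 * (K * Ms / c) ^ 2) E' ∧
        Gde S C M1 K (100 * (K * Ms / c) ^ 2)) := by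
  have h0ρ : (0 : ℂ) ∈ ball (0 : ℂ) ρ := mem_ball_self hB.hρ
  have hs0 := hs 0 h0ρ
  have h40 := h4 0 h0ρ
  have h3 := h3'.mono hE3
  have hc := cst_of hs0 h3 hn
  have hK := cst_A hs0 hc
  have hE := h3'.hE
  have hMs := hs0.hM
  have hN : 1 ≤ N := par_N (par_of hs0 h3 (h40.mono hE4) hn)
  have hsN : 1 ≤ √N := Real.one_le_sqrt.2 hN
  have h4N : 4 / √N ≤ 4 := div_le_self (by norm_num) hsN
  -- `ss` and `T` from the tail bounds
  have hssv : ∀ q ∈ C, ∀ k, TailB (Dt S C 0) E3 Kx N (S.F 0 q) k →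
      H91.SF.ss S 0 (S.F 0 q) k ≤ E3 + 4 := by
    intro q hq k ht
    have h5 := ht.tail 0
    rw [pow_zero, div_one, zero_add, dt_ss] at h5
    linarith
  have hTv : ∀ q ∈ C, ∀ k, n1 ≤ k → TailB (Dt S C 0) E3 Kx N (S.F 0 q) k →
      1 / M1 ≤ S.T 0 q k := by
    intro q hq k hk ht
    have hTk : ∀ k, n1 ≤ k →
        S.T 0 q n1 - 2 * ∑ l ∈ Ico (n1 + 1) (k + 1), 1 / Ph (Dt S C 0) l (S.F 0 q) ≤
          S.T 0 q k := by
      intro k hk
      induction k, hk using Nat.le_induction with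
      | base => simp
      | succ k hk ih =>
        rw [Finset.sum_Ico_succ_top (by omega)]
        have h1 := (abs_le.1 (hB.Tt 0 h0ρ q hq k)).1
        have h2 : (H91.SF.ph S 0 (S.F 0 q) (k + 1))⁻¹ =
            1 / Ph (Dt S C 0) (k + 1) (S.F 0 q) := by
          rw [one_div]
          rfl
        rw [h2] at h1
        linarith
    have h5 := hTk k hk
    have h6 := ht.tail n1
    have h7 := hT q hq
    linarith
  rcases det hs0 (dt_V_finite S C 0) h3' h40 hE3 hE4 hn with h | h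
  · left
    obtain ⟨v, ⟨q, hq, rfl⟩, k, h5, h6, h7, h8, h9⟩ := h
    have hLk : 0 < Lm (Dt S C 0) K 1 k (S.F 0 q) := by linarith
    have hnk : n1 < k := by
      by_contra hlt
      push Not at hlt
      have h10 : Lm (Dt S C 0) K 1 k (S.F 0 q) ≤ Lm (Dt S C 0) K 1 n1 (S.F 0 q) :=
        lm_mono hs0.a0 hK.le hlt
      have h11 := es_up hs0 h3' hK.le (v := S.F 0 q) ⟨q, hq, rfl⟩ hn1
      linarith
    refine ⟨q, k, hq, by omega, h9.pos, ?_, hTv q hq k hnk.le h9, h5, ?_, h6⟩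
    · linarith [hssv q hq k h9]
    · have hph : 0 < H91.SF.ph S 0 (S.F 0 q) k := H91.SF.ph_pos h9.pos
      have h10 : H91.SF.lm S K 0 (S.F 0 q) k / H91.SF.ph S 0 (S.F 0 q) k ≤
          H91.SF.lm S K 0 (S.F 0 q) k ^ (7 * g ^ 2) := h7
      have hLk' : 0 < H91.SF.lm S K 0 (S.F 0 q) k := hLk
      rw [div_le_iff₀ hph] at h10
      rw [sub_eq_add_neg, Real.rpow_add hLk', Real.rpow_one, Real.rpow_neg hLk'.le,
        mul_inv_le_iff₀ (Real.rpow_pos_of_pos hLk' _)]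
      linarith
  · right
    obtain ⟨hG, htb, -, -⟩ := h
    have hss : ∀ q ∈ C, ∀ k, H91.SF.ss S 0 (S.F 0 q) k ≤ E3 + 4 := fun q hq k =>
      hssv q hq k (htb _ ⟨q, hq, rfl⟩ k)
    refine ⟨hG, hss, ?_⟩
    obtain ⟨E', hE', hblk⟩ := blk_all hB hs hc hG (fun q hq k => by linarith [hss q hq k])
      h4 hEM4 h16
    refine ⟨E', hE', hblk, ?_⟩
    exact gde_of hB hs0 hc (by linarith) hG (E2 := E3 + 4) (B2 := E3 / Kx ^ n1 + 4 / √N)
      hss (by linarith) (fun q hq k => (htb _ ⟨q, hq, rfl⟩ k).tail n1) hT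

end Pool.Agent.H84.SF
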