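import Mathlib
import Pool.Agent.H84.SF.Def
import Pool.Agent.H84.SF.Fdb
import Pool.Agent.H84.SF.Det

/-!
# Smoothed Fatou, SF-4d: choice of the constants

`B` is the base (a power of the degree), all constants are powers of `B` with exponents which do not depend on `B`:
`M = E = B ^ s`, `A ≤ B ^ q`, `c = B ^ (-(2 s + q + 1))`, `θ = B ^ (-T)`, `K = B ^ κ`, `N = B ^ N0`.
-/

set_option autoImplicit false

open Finset

namespace Pool.Agent.H84.SF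

/-- exponent of the constants -/
def Rx (s q T m0 : ℕ) : ℕ := 3 * s + 2 * q + 2 * T + T * m0 + 12

theorem two_pow_le {B : ℝ} (hB : 2 ≤ B) (k : ℕ) : (2 : ℝ) ^ k ≤ B ^ k :=
  pow_le_pow_left₀ (by norm_num) hB k

section

variable {B A w : ℝ} {s q T m0 : ℕ}

theorem nx_K (hB : 2 ≤ B) (hA0 : 0 < A) (hAq : A ≤ B ^ q) :
    4 * A * B ^ s / (B ^ (2 * s + q + 1))⁻¹ ≤ B ^ (3 * s + 2 * q + 3) := by
  have hB0 : 0 < B := by linarith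
  have h4B : (4 : ℝ) ≤ B ^ 2 := by
    have := two_pow_le hB 2
    norm_num at this ⊢
    exact this
  rw [div_inv_eq_mul]
  calc 4 * A * B ^ s * B ^ (2 * s + q + 1) ≤ B ^ 2 * B ^ q * B ^ s * B ^ (2 * s + q + 1) := by
        gcongr
    _ = B ^ (3 * s + 2 * q + 3) := by
      rw [← pow_add, ← pow_add, ← pow_add]
      congr 1
      omega

theorem nx_M3 (hB : 2 ≤ B) (hm0 : 2 ^ m0 ≤ B) : B ^ s * 2 ^ m0 ≤ B ^ (s + 1) := by
  rw [pow_add, pow_one]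
  exact mul_le_mul_of_nonneg_left hm0 (pow_nonneg (by linarith) _)

theorem nx_BB (hB : 2 ≤ B) (hm0 : 2 ^ m0 ≤ B) (hA0 : 0 < A) (hAq : A ≤ B ^ q)
    (hT : 8 * s + 4 * q + 12 ≤ T) :
    BB A (B ^ s) ((B ^ (2 * s + q + 1))⁻¹) ((B ^ T)⁻¹) (B ^ s * 2 ^ m0) ≤
      B ^ (q + s + 5 + 2 * T) := by
  have hB0 : 0 < B := by linarith
  have h8B : (8 : ℝ) ≤ B ^ 3 := by
    have := two_pow_le hB 3
    norm_num at this ⊢
    exact this
  have h2B : (2 : ℝ) ≤ B ^ 1 := by rw [pow_one]; exact hB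
  have hθ2 : 1 / ((B ^ T)⁻¹) ^ 2 = B ^ (2 * T) := by
    rw [one_div, inv_pow, inv_inv, ← pow_mul, mul_comm]
  have hK := nx_K (s := s) hB hA0 hAq
  have hM3 := nx_M3 (s := s) hB hm0
  have h1 : B ^ (3 * s + 2 * q + 3) ≤ B ^ (2 * T) := pow_le_pow_right₀ (by linarith) (by omega)
  unfold BB
  rw [hθ2]
  calc 8 * A * (B ^ s * 2 ^ m0) * (4 * A * B ^ s / (B ^ (2 * s + q + 1))⁻¹ + B ^ (2 * T)) ≤
      B ^ 3 * B ^ q * B ^ (s + 1) * (B ^ (2 * T) + B ^ (2 * T)) := by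
        gcongr
        exact hK.trans h1
    _ = 2 * (B ^ 3 * B ^ q * B ^ (s + 1) * B ^ (2 * T)) := by ring
    _ ≤ B ^ 1 * (B ^ 3 * B ^ q * B ^ (s + 1) * B ^ (2 * T)) := by gcongr
    _ = B ^ (q + s + 5 + 2 * T) := by
      rw [← pow_add, ← pow_add, ← pow_add, ← pow_add]
      congr 1
      omega

theorem nx_BC (hB : 2 ≤ B) (hm0 : 2 ^ m0 ≤ B) (hA0 : 0 < A) (hAq : A ≤ B ^ q)
    (hT : 8 * s + 4 * q + 12 ≤ T) :
    BC A (B ^ s) ((B ^ (2 * s + q + 1))⁻¹) ((B ^ T)⁻¹) (B ^ s * 2 ^ m0)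
      (B ^ s * 2 ^ m0 / ((B ^ T)⁻¹) ^ m0) ≤ B ^ (3 * s + 2 * q + 11 + 2 * T + T * m0) := by
  have hB0 : 0 < B := by linarith
  have hB1 : 1 ≤ B := by linarith
  have hp0 : ∀ k : ℕ, 0 < B ^ k := fun k => pow_pos hB0 k
  have hmono : ∀ {i j : ℕ}, i ≤ j → B ^ i ≤ B ^ j := fun h => pow_le_pow_right₀ hB1 h
  have h16B : (16 : ℝ) ≤ B ^ 4 := by
    have := two_pow_le hB 4
    norm_num at this ⊢
    exact this
  have h2B : (2 : ℝ) ≤ B ^ 1 := by rw [pow_one]; exact hB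
  have hM3 := nx_M3 (s := s) hB hm0
  have hBB := nx_BB hB hm0 hA0 hAq hT
  have hBB0 : 0 ≤ BB A (B ^ s) ((B ^ (2 * s + q + 1))⁻¹) ((B ^ T)⁻¹) (B ^ s * 2 ^ m0) := by
    unfold BB
    positivity
  unfold BC
  generalize BB A (B ^ s) ((B ^ (2 * s + q + 1))⁻¹) ((B ^ T)⁻¹) (B ^ s * 2 ^ m0) = b at hBB hBB0 ⊢
  have h1 : B ^ s * 2 ^ m0 / ((B ^ T)⁻¹) ^ m0 ≤ B ^ (s + 1) * B ^ (T * m0) := by
    rw [inv_pow, div_inv_eq_mul, ← pow_mul]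
    exact mul_le_mul_of_nonneg_right hM3 (hp0 _).le
  have h10 : 0 ≤ B ^ s * 2 ^ m0 / ((B ^ T)⁻¹) ^ m0 := by positivity
  have h2 : 2 * b + 2 * A + 8 * B ^ s ≤ B ^ (q + s + 9 + 2 * T) := by
    have h3 : A ≤ B ^ (q + s + 5 + 2 * T) := hAq.trans (hmono (by omega))
    have h4 : B ^ s ≤ B ^ (q + s + 5 + 2 * T) := hmono (by omega)
    have h5 : B ^ (q + s + 9 + 2 * T) = B ^ 4 * B ^ (q + s + 5 + 2 * T) := by
      rw [← pow_add]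
      congr 1
      omega
    rw [h5]
    have h6 := hp0 (q + s + 5 + 2 * T)
    have h7 := mul_le_mul_of_nonneg_right h16B h6.le
    linarith
  rw [div_inv_eq_mul]
  have h3 : B ^ s * 2 ^ m0 / ((B ^ T)⁻¹) ^ m0 * b ≤
      B ^ (3 * s + 2 * q + 10 + 2 * T + T * m0) := by
    calc B ^ s * 2 ^ m0 / ((B ^ T)⁻¹) ^ m0 * b ≤
        B ^ (s + 1) * B ^ (T * m0) * B ^ (q + s + 5 + 2 * T) := mul_le_mul h1 hBB hBB0 (by positivity)
      _ = B ^ (s + 1 + T * m0 + (q + s + 5 + 2 * T)) := by rw [← pow_add, ← pow_add]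
      _ ≤ _ := hmono (by omega)
  have h4 : (2 * b + 2 * A + 8 * B ^ s) * B ^ (2 * s + q + 1) ≤
      B ^ (3 * s + 2 * q + 10 + 2 * T + T * m0) := by
    calc (2 * b + 2 * A + 8 * B ^ s) * B ^ (2 * s + q + 1) ≤
        B ^ (q + s + 9 + 2 * T) * B ^ (2 * s + q + 1) := mul_le_mul_of_nonneg_right h2 (hp0 _).le
      _ = B ^ (q + s + 9 + 2 * T + (2 * s + q + 1)) := by rw [← pow_add]
      _ ≤ _ := hmono (by
          have := Nat.zero_le (T * m0)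
          omega)
  have h5 : B ^ (3 * s + 2 * q + 11 + 2 * T + T * m0) =
      B ^ 1 * B ^ (3 * s + 2 * q + 10 + 2 * T + T * m0) := by
    rw [← pow_add]
    congr 1
    omega
  rw [h5]
  have h6 := mul_le_mul_of_nonneg_right h2B (hp0 (3 * s + 2 * q + 10 + 2 * T + T * m0)).le
  linarith

theorem nx_small {g : ℝ} (hB : 2 ≤ B) (hm0 : 2 ^ m0 ≤ B) (hA0 : 0 < A) (hAq : A ≤ B ^ q)
    (hT : 8 * s + 4 * q + 12 ≤ T) (hg1 : g ≤ 1 / 12) :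
    B ^ s * 2 ^ m0 * (4 * A * B ^ s / (B ^ (2 * s + q + 1))⁻¹) *
      ((B ^ T)⁻¹) ^ (1 - 2 * (3 * g)) ≤ 1 / 4 := by
  have hB0 : 0 < B := by linarith
  have hB1 : 1 ≤ B := by linarith
  have hp0 : ∀ k : ℕ, 0 < B ^ k := fun k => pow_pos hB0 k
  have hp : ∀ k : ℕ, 1 ≤ B ^ k := fun k => one_le_pow₀ hB1
  have hmono : ∀ {i j : ℕ}, i ≤ j → B ^ i ≤ B ^ j := fun h => pow_le_pow_right₀ hB1 h
  have h4B : (4 : ℝ) ≤ B ^ 2 := by
    have := two_pow_le hB 2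
    norm_num at this ⊢
    exact this
  have hM3 := nx_M3 (s := s) hB hm0
  have hK := nx_K (s := s) hB hA0 hAq
  have hK0 : 0 < 4 * A * B ^ s / (B ^ (2 * s + q + 1))⁻¹ := by positivity
  have h1 : ((B ^ T)⁻¹) ^ (1 - 2 * (3 * g)) ≤ (B ^ (4 * s + 2 * q + 6))⁻¹ := by
    have h2 : (B ^ T)⁻¹ ≤ ((B ^ (4 * s + 2 * q + 6))⁻¹) ^ (2 : ℝ) := by
      rw [Real.rpow_two, inv_pow, ← pow_mul]
      exact inv_anti₀ (hp0 _) (hmono (by omega))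
    have h3 : (B ^ T)⁻¹ ≤ 1 := inv_le_one_of_one_le₀ (hp _)
    calc ((B ^ T)⁻¹) ^ (1 - 2 * (3 * g)) ≤ ((B ^ T)⁻¹) ^ (1 / 2 : ℝ) :=
          Real.rpow_le_rpow_of_exponent_ge (inv_pos.2 (hp0 _)) h3 (by linarith)
      _ ≤ (((B ^ (4 * s + 2 * q + 6))⁻¹) ^ (2 : ℝ)) ^ (1 / 2 : ℝ) :=
          Real.rpow_le_rpow (inv_pos.2 (hp0 _)).le h2 (by norm_num)
      _ = (B ^ (4 * s + 2 * q + 6))⁻¹ := by
          rw [← Real.rpow_mul (inv_pos.2 (hp0 _)).le]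
          norm_num
  have h4 : B ^ s * 2 ^ m0 * (4 * A * B ^ s / (B ^ (2 * s + q + 1))⁻¹) ≤
      B ^ (4 * s + 2 * q + 4) := by
    calc B ^ s * 2 ^ m0 * (4 * A * B ^ s / (B ^ (2 * s + q + 1))⁻¹) ≤
        B ^ (s + 1) * B ^ (3 * s + 2 * q + 3) := mul_le_mul hM3 hK hK0.le (hp0 _).le
      _ = B ^ (4 * s + 2 * q + 4) := by
        rw [← pow_add]
        congr 1
        omega
  calc B ^ s * 2 ^ m0 * (4 * A * B ^ s / (B ^ (2 * s + q + 1))⁻¹) *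
        ((B ^ T)⁻¹) ^ (1 - 2 * (3 * g)) ≤
        B ^ (4 * s + 2 * q + 4) * (B ^ (4 * s + 2 * q + 6))⁻¹ :=
        mul_le_mul h4 h1 (Real.rpow_nonneg (inv_pos.2 (hp0 _)).le _) (hp0 _).le
    _ = (B ^ 2)⁻¹ := by
        rw [show 4 * s + 2 * q + 6 = (4 * s + 2 * q + 4) + 2 by omega,
          pow_add B (4 * s + 2 * q + 4) 2, mul_inv,
          ← mul_assoc, mul_inv_cancel₀ (hp0 _).ne', one_mul]
    _ ≤ 1 / 4 := by
        rw [one_div]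
        exact inv_anti₀ (by norm_num) h4B

end

/-- **The constants.** -/
theorem num_ex {B A κ g w : ℝ} {s q T m0 n0 N0 : ℕ} (hB : 2 ≤ B) (hm0 : 2 ^ m0 ≤ B)
    (hA : 64 * (B ^ s) ^ 2 ≤ A) (hAq : A ≤ B ^ q) (hw : 1 ≤ w)
    (hws : w ≤ B ^ s) (hT : 8 * s + 4 * q + 12 ≤ T) (hg : 0 < g) (hg1 : g ≤ 1 / 12)
    (hN0 : (Rx s q T m0 : ℝ) ≤ N0 * g ^ 2) (hn0 : (N0 + s : ℝ) < κ * n0) :
    Num (B ^ s) ((B ^ T)⁻¹) A w ((B ^ (2 * s + q + 1))⁻¹) g (B ^ s) (B ^ κ)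
      (B ^ N0) m0 n0 := by
  have hB0 : 0 < B := by linarith
  have hB1 : 1 ≤ B := by linarith
  have hB1' : 1 < B := by linarith
  have hp : ∀ k : ℕ, 1 ≤ B ^ k := fun k => one_le_pow₀ hB1
  have hp0 : ∀ k : ℕ, 0 < B ^ k := fun k => pow_pos hB0 k
  have hmono : ∀ {i j : ℕ}, i ≤ j → B ^ i ≤ B ^ j := fun h => pow_le_pow_right₀ hB1 h
  have h2B : (2 : ℝ) ≤ B ^ 1 := by rw [pow_one]; exact hB
  have hA0 : 0 < A := lt_of_lt_of_le (by positivity) hA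
  -- powers of `N = B ^ N0`
  have hg2 : (Rx s q T m0 : ℝ) ≤ N0 := by
    have h1 : (0 : ℝ) ≤ N0 := Nat.cast_nonneg _
    have h2 : g ^ 2 ≤ 1 := by nlinarith
    nlinarith
  have hNpow : ∀ e : ℝ, g ^ 2 ≤ e → B ^ (Rx s q T m0) ≤ (B ^ N0) ^ e := by
    intro e he
    rw [← Real.rpow_natCast B N0, ← Real.rpow_mul hB0.le, ← Real.rpow_natCast B (Rx s q T m0)]
    refine Real.rpow_le_rpow_of_exponent_le hB1 (hN0.trans ?_)
    exact mul_le_mul_of_nonneg_left he (Nat.cast_nonneg _)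
  have hlt : ∀ {i : ℕ}, i < Rx s q T m0 → B ^ i < B ^ Rx s q T m0 :=
    fun h => pow_lt_pow_right₀ hB1' h
  refine ⟨hA, hw, ?_, inv_pos.2 (hp0 _), ?_, hg, by linarith, nx_small hB hm0 hA0 hAq hT hg1,
    ?_, ?_, ?_, ?_, ?_, ?_, ?_, ?_⟩
  · -- hwθ
    rw [inv_pow, ← pow_mul, ← mul_assoc, mul_inv_le_iff₀ (hp0 _), one_mul]
    calc w * B ^ s ≤ B ^ s * B ^ s := mul_le_mul_of_nonneg_right hws (hp0 _).le
      _ = B ^ (s + s) := (pow_add _ _ _).symm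
      _ ≤ B ^ (T * 2) := hmono (by omega)
  · -- hcE
    rw [inv_mul_le_iff₀ (hp0 _), mul_one]
    have h1 : w * B ^ s ≤ B ^ (2 * s + q) := by
      calc w * B ^ s ≤ B ^ s * B ^ s := mul_le_mul_of_nonneg_right hws (hp0 _).le
        _ = B ^ (s + s) := (pow_add _ _ _).symm
        _ ≤ B ^ (2 * s + q) := hmono (by omega)
    have h2 : A * (B ^ s) ^ 2 ≤ B ^ (2 * s + q) := by
      calc A * (B ^ s) ^ 2 ≤ B ^ q * (B ^ s) ^ 2 := mul_le_mul_of_nonneg_right hAq (by positivity)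
        _ = B ^ (2 * s + q) := by
          rw [← pow_mul, ← pow_add]
          congr 1
          omega
    have h3 : B ^ (2 * s + q + 1) = B ^ (2 * s + q) * B := pow_succ _ _
    rw [h3]
    have h4 := hp0 (2 * s + q)
    nlinarith
  · exact inv_anti₀ (hp0 _) (hmono (by omega))
  · -- wN
    refine hws.trans (hmono ?_)
    have h1 : s ≤ Rx s q T m0 := by unfold Rx; omega
    exact_mod_cast (Nat.cast_le.2 h1 : (s : ℝ) ≤ (Rx s q T m0 : ℝ)).trans hg2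
  · -- N0
    rw [lt_div_iff₀ (hp0 _), ← pow_add, ← Real.rpow_natCast (B ^ κ) n0, ← Real.rpow_mul hB0.le,
      ← Real.rpow_natCast B (N0 + s)]
    refine Real.rpow_lt_rpow_of_exponent_lt hB1' ?_
    push_cast
    exact hn0
  · exact (nx_BC hB hm0 hA0 hAq hT).trans ((hmono (by unfold Rx; omega)).trans
      (hNpow g (by nlinarith)))
  · refine lt_of_lt_of_le ?_ (hNpow (1 - 2 * g) (by nlinarith))
    calc 2 * B ^ s ≤ B ^ 1 * B ^ s := mul_le_mul_of_nonneg_right h2B (hp0 _).le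
      _ = B ^ (1 + s) := (pow_add _ _ _).symm
      _ < B ^ Rx s q T m0 := hlt (by unfold Rx; omega)
  · refine lt_of_lt_of_le ?_ (hNpow (g / 2) (by nlinarith))
    rw [div_inv_eq_mul]
    calc 2 * B ^ s * B ^ (2 * s + q + 1) ≤ B ^ 1 * B ^ s * B ^ (2 * s + q + 1) := by gcongr
      _ = B ^ (1 + s + (2 * s + q + 1)) := by rw [← pow_add, ← pow_add]
      _ < B ^ Rx s q T m0 := hlt (by unfold Rx; omega)
  · refine lt_of_lt_of_le ?_ (hNpow g (by nlinarith))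
    rw [one_div, inv_inv]
    exact hlt (by unfold Rx; omega)
  · exact (nx_BB hB hm0 hA0 hAq hT).trans ((hmono (by unfold Rx; omega)).trans
      (hNpow (g ^ 2) le_rfl))

/-- further numerical conditions of the theorem `dme` -/
theorem num_more {B K κ E3 : ℝ} {s q p e T n1 N0 : ℕ} (hB : 2 ≤ B) (hK0 : 0 < K)
    (hKq : K ≤ B ^ q) (hE1 : 1 ≤ E3) (hE3 : E3 ≤ B ^ e)
    (hT : 6 * s + 4 * q + 4 * p + 17 ≤ T) (hκ : (e + p + 3 : ℝ) ≤ κ * n1)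
    (hN : q + n1 + (e + s * n1) + 1 ≤ N0) (hN2 : 2 * p + 10 ≤ N0) :
    100 * (K * B ^ s / (B ^ (2 * s + q + 1))⁻¹) ^ 2 * (B ^ T)⁻¹ * (16 * (B ^ p) ^ 2) ^ 2 ≤ 1 ∧
    1 + K * (n1 * (E3 * (B ^ s) ^ n1)) ≤ B ^ N0 ∧
    2 * (E3 / (B ^ κ) ^ n1 + 4 / √(B ^ N0)) ≤ 1 / B ^ p := by
  have hB0 : 0 < B := by linarith
  have hB1 : 1 ≤ B := by linarith
  have hp : ∀ k : ℕ, 1 ≤ B ^ k := fun k => one_le_pow₀ hB1
  have hp0 : ∀ k : ℕ, 0 < B ^ k := fun k => pow_pos hB0 k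
  have hmono : ∀ {i j : ℕ}, i ≤ j → B ^ i ≤ B ^ j := fun h => pow_le_pow_right₀ hB1 h
  have h2 : ∀ k : ℕ, (2 : ℝ) ^ k ≤ B ^ k := two_pow_le hB
  refine ⟨?_, ?_, ?_⟩
  · rw [div_inv_eq_mul]
    have h1 : 100 * (16 : ℝ) ^ 2 ≤ B ^ 15 := le_trans (by norm_num) (h2 15)
    calc 100 * (K * B ^ s * B ^ (2 * s + q + 1)) ^ 2 * (B ^ T)⁻¹ * (16 * (B ^ p) ^ 2) ^ 2 =
        (100 * (16 : ℝ) ^ 2) * (K * B ^ s * B ^ (2 * s + q + 1)) ^ 2 * ((B ^ p) ^ 2) ^ 2 *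
          (B ^ T)⁻¹ := by ring
      _ ≤ B ^ 15 * (B ^ q * B ^ s * B ^ (2 * s + q + 1)) ^ 2 * ((B ^ p) ^ 2) ^ 2 *
          (B ^ T)⁻¹ := by gcongr
      _ = B ^ (6 * s + 4 * q + 4 * p + 17) * (B ^ T)⁻¹ := by
        congr 1
        rw [← pow_add, ← pow_add, ← pow_mul, ← pow_mul, ← pow_mul, ← pow_add, ← pow_add]
        congr 1
        omega
      _ ≤ 1 := by
        rw [mul_inv_le_iff₀ (hp0 _), one_mul]
        exact hmono hT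
  · have h1 : (n1 : ℝ) ≤ B ^ n1 := by
      have h3 : (n1 : ℝ) < 2 ^ n1 := by exact_mod_cast Nat.lt_two_pow_self
      exact h3.le.trans (h2 n1)
    have h3 : K * (n1 * (E3 * (B ^ s) ^ n1)) ≤ B ^ (q + n1 + (e + s * n1)) := by
      calc K * (n1 * (E3 * (B ^ s) ^ n1)) ≤ B ^ q * (B ^ n1 * (B ^ e * (B ^ s) ^ n1)) := by
            gcongr
        _ = B ^ (q + n1 + (e + s * n1)) := by
            rw [← pow_mul, ← pow_add, ← pow_add, ← pow_add]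
            congr 1
            ring
    have h4 : B ^ (q + n1 + (e + s * n1)) + B ^ (q + n1 + (e + s * n1)) ≤ B ^ N0 := by
      calc B ^ (q + n1 + (e + s * n1)) + B ^ (q + n1 + (e + s * n1)) =
          2 * B ^ (q + n1 + (e + s * n1)) := by ring
        _ ≤ B * B ^ (q + n1 + (e + s * n1)) := by gcongr
        _ = B ^ (q + n1 + (e + s * n1) + 1) := by rw [pow_succ, mul_comm]
        _ ≤ B ^ N0 := hmono hN
    linarith [hp (q + n1 + (e + s * n1))]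
  · have h1 : E3 / (B ^ κ) ^ n1 ≤ 1 / B ^ (p + 3) := by
      rw [div_le_div_iff₀ (by positivity) (hp0 _), one_mul]
      calc E3 * B ^ (p + 3) ≤ B ^ e * B ^ (p + 3) := mul_le_mul_of_nonneg_right hE3 (hp0 _).le
        _ ≤ (B ^ κ) ^ n1 := by
          rw [← pow_add, ← Real.rpow_natCast (B ^ κ) n1, ← Real.rpow_mul hB0.le,
            ← Real.rpow_natCast B (e + (p + 3))]
          refine Real.rpow_le_rpow_of_exponent_le hB1 ?_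
          push_cast
          linarith
    have h3 : B ^ (p + 5) ≤ √(B ^ N0) := by
      refine Real.le_sqrt_of_sq_le ?_
      rw [← pow_mul]
      exact hmono (by omega)
    have h4 : 4 / √(B ^ N0) ≤ 1 / B ^ (p + 3) := by
      rw [div_le_div_iff₀ (lt_of_lt_of_le (hp0 _) h3) (hp0 _), one_mul]
      refine le_trans ?_ h3
      have h5 : B ^ (p + 5) = B ^ 2 * B ^ (p + 3) := by
        rw [← pow_add]
        congr 1
        omega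
      rw [h5]
      exact mul_le_mul_of_nonneg_right (le_trans (by norm_num) (h2 2)) (hp0 _).le
    have h5 : 1 / B ^ (p + 3) = (1 / B ^ 3) * (1 / B ^ p) := by
      rw [pow_add]
      field_simp
    have h6 : 1 / B ^ 3 ≤ 1 / 8 := one_div_le_one_div_of_le (by norm_num)
      (le_trans (by norm_num) (h2 3))
    have h7 : 0 < 1 / B ^ p := by positivity
    have h8 : 1 / B ^ (p + 3) ≤ 1 / 8 * (1 / B ^ p) := by
      rw [h5]
      exact mul_le_mul_of_nonneg_right h6 h7.le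
    linarith

/-- **SF-4d with explicit constants.** -/
theorem det_main {X : Type} {S : Dat X} {B A κ g w E3 E4 K4 : ℝ} {s q T m0 n0 N0 : ℕ}
    (hs : Stat S (B ^ s) ((B ^ T)⁻¹)) (hV : S.V.Finite) (h3 : H3 S E3 (B ^ κ) n0)
    (h4 : H4 S ((B ^ T)⁻¹) E4 K4 m0) (hE3 : E3 ≤ B ^ s) (hE4 : E4 ≤ B ^ s) (hB : 2 ≤ B)
    (hm0 : 2 ^ m0 ≤ B)
    (hA : 64 * (B ^ s) ^ 2 ≤ A) (hAq : A ≤ B ^ q) (hw : 1 ≤ w)
    (hws : w ≤ B ^ s) (hT : 8 * s + 4 * q + 12 ≤ T) (hg : 0 < g) (hg1 : g ≤ 1 / 12)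
    (hN0 : (Rx s q T m0 : ℝ) ≤ N0 * g ^ 2) (hn0 : (N0 + s : ℝ) < κ * n0) :
    Cst (B ^ s) ((B ^ T)⁻¹) A w ((B ^ (2 * s + q + 1))⁻¹) (3 * g) ∧
    ((∃ v ∈ S.V, ∃ k, B ^ N0 < Lm S A w k v ∧
      S.a (S.f^[k] v) < Lm S A w k v ^ (-g) ∧
      Uu S A w k v ≤ Lm S A w k v ^ (7 * g ^ 2) ∧
      Lm S A w k v ^ (1 - 3 * g) ≤ Ph S k v ∧
      TailB S E3 (B ^ κ) (B ^ N0) v k) ∨
    ((∀ Λ, Gd S A w ((B ^ (2 * s + q + 1))⁻¹) (3 * g) Λ) ∧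
      (∀ v ∈ S.V, ∀ k, TailB S E3 (B ^ κ) (B ^ N0) v k) ∧
      (∀ v ∈ S.V, ∀ k, B ^ N0 < Lm S A w k v →
        Lm S A w k v ^ (-g) ≤ S.a (S.f^[k] v) ∧
        Lm S A w k v ^ (1 - 3 * g) ≤ Ph S k v) ∧
      ∀ v ∈ S.V, ∀ Y, w ≤ Y → ∃ p, Lm S A w p v ≤ Y ∧
        Y < Lm S A w (p + 1) v ∧
        (B ^ (2 * s + q + 1))⁻¹ / (2 * A) * Y ^ (1 - 3 * g) ≤ Ph S p v)) := by
  have hn := num_ex (κ := κ) hB hm0 hA hAq hw hws hT hg hg1 hN0 hn0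
  exact ⟨cst_of hs (h3.mono hE3) hn, det hs hV h3 h4 hE3 hE4 hn⟩

end Pool.Agent.H84.SF
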