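import Pool.Agent.H84.SF.Alg

/-!
# Smoothed Fatou, SF-4d: shadowing of a critical orbit
-/

set_option autoImplicit false

open Finset

namespace Pool.Agent.H84.SF

variable {X : Type} {S : Dat X} {M θ A w : ℝ}

/-- one step: factors between `1 - t` and `1 + t` -/
theorem shd_fac {a E E' P e0 ρ t : ℝ} (ha : 0 < a) (hP : 0 ≤ P) (he : 0 ≤ e0)
    (hρ : 0 ≤ ρ) (hρ1 : ρ ≤ 1) (ht : 0 ≤ t) (ht1 : t ≤ 1)
    (h1 : (1 - ρ) * (P * e0) ≤ E) (h2 : E ≤ (1 + ρ) * (P * e0)) (h3 : |E' - a * E| ≤ t * a * E) :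
    (1 - (ρ + 2 * t)) * (P * a * e0) ≤ E' ∧ E' ≤ (1 + (ρ + 2 * t)) * (P * a * e0) := by
  obtain ⟨h4, h5⟩ := abs_le.1 h3
  have hPe : 0 ≤ P * e0 := mul_nonneg hP he
  have hE : 0 ≤ E := (mul_nonneg (by linarith) hPe).trans h1
  constructor
  · have h6 : a * (1 - t) * ((1 - ρ) * (P * e0)) ≤ a * (1 - t) * E :=
      mul_le_mul_of_nonneg_left h1 (mul_nonneg ha.le (by linarith))
    have h7 : (1 - (ρ + 2 * t)) * (P * a * e0) ≤ a * (1 - t) * ((1 - ρ) * (P * e0)) := by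
      have h8 : 0 ≤ (t + ρ * t) * (a * (P * e0)) := by positivity
      nlinarith
    nlinarith
  · have h6 : a * (1 + t) * E ≤ a * (1 + t) * ((1 + ρ) * (P * e0)) :=
      mul_le_mul_of_nonneg_left h2 (by positivity)
    have h7 : a * (1 + t) * ((1 + ρ) * (P * e0)) ≤ (1 + (ρ + 2 * t)) * (P * a * e0) := by
      have h8 : 0 ≤ (t - ρ * t) * (a * (P * e0)) := by
        refine mul_nonneg ?_ (by positivity)
        nlinarith
      nlinarith
    nlinarith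

/-- the orbit of `z` stays near the orbit of `v` as long as the scale `D z v` is linear for `v` -/
theorem shd (h : Stat S M θ) (hA : 64 * M ^ 2 ≤ A) (hw : 0 ≤ w) {v z : X} {L : ℕ}
    (hpos : ∀ l < L, 0 < S.a (S.f^[l] v)) (he : Lm S A w L v * S.D z v ≤ 1) :
    ∀ l ≤ L, ∃ ρ : ℝ, ρ = 4 * M ^ 2 * S.D z v * ∑ m ∈ range l, Ph S m v / S.a (S.f^[m] v) ∧
      0 ≤ ρ ∧ ρ ≤ 1 / 16 ∧
      ((1 - ρ) * (Ph S l v * S.D z v) ≤ S.D (S.f^[l] z) (S.f^[l] v) ∧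
        S.D (S.f^[l] z) (S.f^[l] v) ≤ (1 + ρ) * (Ph S l v * S.D z v)) ∧
      ((1 - ρ) * (Ph S l v * 1) ≤ Ph S l z ∧ Ph S l z ≤ (1 + ρ) * (Ph S l v * 1)) := by
  have hM := h.hM
  have hM2 : 1 ≤ M ^ 2 := one_le_pow₀ hM
  have hA0 : 0 < A := by linarith
  have he0 : 0 ≤ S.D z v := h.D0 _ _
  have hterm : ∀ m, 0 ≤ Ph S m v / S.a (S.f^[m] v) := fun m =>
    div_nonneg (ph_nonneg h.a0 m) (h.a0 _)
  have hsum : ∀ l, 0 ≤ ∑ m ∈ range l, Ph S m v / S.a (S.f^[m] v) := fun l =>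
    sum_nonneg fun m _ => hterm m
  have hρ : ∀ l ≤ L, 4 * M ^ 2 * S.D z v * ∑ m ∈ range l, Ph S m v / S.a (S.f^[m] v) ≤ 1 / 16 := by
    intro l hl
    have h1 : A * ∑ m ∈ range l, Ph S m v / S.a (S.f^[m] v) ≤ Lm S A w L v := by
      have := lm_mono (S := S) (x := v) (u := w) h.a0 hA0.le hl
      unfold Lm at this ⊢
      linarith
    have h2 : (A * ∑ m ∈ range l, Ph S m v / S.a (S.f^[m] v)) * S.D z v ≤ 1 :=
      (mul_le_mul_of_nonneg_right h1 he0).trans he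
    have h3 : 64 * M ^ 2 * (S.D z v * ∑ m ∈ range l, Ph S m v / S.a (S.f^[m] v)) ≤
        A * (S.D z v * ∑ m ∈ range l, Ph S m v / S.a (S.f^[m] v)) :=
      mul_le_mul_of_nonneg_right hA (mul_nonneg he0 (hsum l))
    nlinarith
  intro l
  induction l with
  | zero =>
    intro _
    exact ⟨0, by simp, le_rfl, by norm_num, by simp [ph_zero], by simp [ph_zero]⟩
  | succ l ih =>
    intro hl
    obtain ⟨ρ, hρe, hρ0, hρ1, ⟨h1, h2⟩, h3, h4⟩ := ih (by omega)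
    have ha : 0 < S.a (S.f^[l] v) := hpos l (by omega)
    have hP : 0 < Ph S l v := ph_pos fun i hi => hpos i (by omega)
    set t : ℝ := 2 * M ^ 2 * S.D z v * (Ph S l v / S.a (S.f^[l] v)) with ht
    have ht0 : 0 ≤ t := by positivity
    have hρt : ρ + 2 * t =
        4 * M ^ 2 * S.D z v * ∑ m ∈ range (l + 1), Ph S m v / S.a (S.f^[m] v) := by
      rw [sum_range_succ, hρe, ht]; ring
    have hρt1 : ρ + 2 * t ≤ 1 / 16 := hρt ▸ hρ (l + 1) hl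
    have hE0 : 0 ≤ S.D (S.f^[l] z) (S.f^[l] v) := h.D0 _ _
    have hta : t * S.a (S.f^[l] v) = 2 * M ^ 2 * (Ph S l v * S.D z v) := by
      rw [ht]; field_simp
    have hE2 : S.D (S.f^[l] z) (S.f^[l] v) ≤ 2 * (Ph S l v * S.D z v) :=
      h2.trans (mul_le_mul_of_nonneg_right (by linarith) (mul_nonneg hP.le he0))
    have hME : M ^ 2 * S.D (S.f^[l] z) (S.f^[l] v) ≤ t * S.a (S.f^[l] v) := by
      rw [hta]; nlinarith
    refine ⟨ρ + 2 * t, hρt, by positivity, hρt1, ?_, ?_⟩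
    · have h5 := h.d1 (S.f^[l] z) (S.f^[l] v)
      rw [← Function.iterate_succ_apply' S.f, ← Function.iterate_succ_apply' S.f] at h5
      have h6 : M ^ 2 * S.D (S.f^[l] z) (S.f^[l] v) ^ 2 ≤
          t * S.a (S.f^[l] v) * S.D (S.f^[l] z) (S.f^[l] v) := by
        rw [pow_two (S.D _ _), ← mul_assoc]
        exact mul_le_mul_of_nonneg_right hME hE0
      have := shd_fac ha hP.le he0 hρ0 (by linarith) ht0 (by linarith) h1 h2 (h5.trans h6)
      rwa [ph_succ]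
    · have h5 := h.d2 (S.f^[l] z) (S.f^[l] v)
      have h6 : |Ph S (l + 1) z - S.a (S.f^[l] v) * Ph S l z| ≤
          t * S.a (S.f^[l] v) * Ph S l z := by
        rw [ph_succ]
        have h7 : Ph S l z * S.a (S.f^[l] z) - S.a (S.f^[l] v) * Ph S l z =
            (S.a (S.f^[l] z) - S.a (S.f^[l] v)) * Ph S l z := by ring
        rw [h7, abs_mul, abs_of_nonneg (ph_nonneg h.a0 l)]
        exact mul_le_mul_of_nonneg_right (h5.trans hME) (ph_nonneg h.a0 l)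
      have := shd_fac ha hP.le zero_le_one hρ0 (by linarith) ht0 (by linarith) h3 h4 h6
      rwa [ph_succ (x := v)]

/-- the derivatives along the two orbits -/
theorem shd_a (h : Stat S M θ) (hA : 64 * M ^ 2 ≤ A) (hw : 0 ≤ w) {v z : X} {L : ℕ}
    (hpos : ∀ l < L, 0 < S.a (S.f^[l] v)) (he : Lm S A w L v * S.D z v ≤ 1) {l : ℕ} (hl : l < L) :
    S.a (S.f^[l] v) / 2 ≤ S.a (S.f^[l] z) ∧ S.a (S.f^[l] z) ≤ 2 * S.a (S.f^[l] v) := by
  have hM := h.hM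
  have hM2 : 1 ≤ M ^ 2 := one_le_pow₀ hM
  have he0 : 0 ≤ S.D z v := h.D0 _ _
  obtain ⟨ρ, hρe, hρ0, hρ1, ⟨h1, h2⟩, -⟩ := shd h hA hw hpos he l hl.le
  obtain ⟨ρ', hρe', hρ0', hρ1', -, -⟩ := shd h hA hw hpos he (l + 1) hl
  have ha : 0 < S.a (S.f^[l] v) := hpos l hl
  have hP : 0 < Ph S l v := ph_pos fun i hi => hpos i (by omega)
  have h3 : 4 * M ^ 2 * S.D z v * (Ph S l v / S.a (S.f^[l] v)) ≤ 1 / 16 := by
    rw [sum_range_succ, mul_add] at hρe'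
    linarith
  have h4 : 4 * M ^ 2 * (Ph S l v * S.D z v) ≤ 1 / 16 * S.a (S.f^[l] v) := by
    have h5 := mul_le_mul_of_nonneg_right h3 ha.le
    have h6 : 4 * M ^ 2 * S.D z v * (Ph S l v / S.a (S.f^[l] v)) * S.a (S.f^[l] v) =
        4 * M ^ 2 * (Ph S l v * S.D z v) := by field_simp
    linarith
  have h5 := abs_le.1 (h.d2 (S.f^[l] z) (S.f^[l] v))
  have h6 : S.D (S.f^[l] z) (S.f^[l] v) ≤ 2 * (Ph S l v * S.D z v) :=
    h2.trans (mul_le_mul_of_nonneg_right (by linarith) (mul_nonneg hP.le he0))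
  have h7 : M ^ 2 * S.D (S.f^[l] z) (S.f^[l] v) ≤ M ^ 2 * (2 * (Ph S l v * S.D z v)) :=
    mul_le_mul_of_nonneg_left h6 (by positivity)
  constructor <;> linarith [h5.1, h5.2]

end Pool.Agent.H84.SF
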